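import Pool.Agent.J4H37.WN.Deg

set_option autoImplicit false

/-!
# Degeneration of points of the plane to a germ, and curves in a weighted plane
-/

namespace Pool.Agent.J4H37.WN

open Polynomial

variable {k K : Type} [Field k] [Field K] [Algebra k K]

/-- The curve `(E : A : B)` of degree `e` over `K` in the weighted plane with weights `1, q, p`
meets the points. -/
structure Sweep2 (q p e : ℕ) (E A B : K[X]) (M : List (Datum k K)) : Prop where
  dE : E.natDegree ≤ e
  dA : A.natDegree ≤ e * q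
  dB : B.natDegree ≤ e * p
  nz : ∀ (V : ℕ) (c : ℕ → ℕ → k) (S : Finset (ℕ × ℕ)), (∀ s ∈ S, q * s.1 + p * s.2 ≤ V) →
    (∃ s ∈ S, c s.1 s.2 ≠ 0) →
    ∑ s ∈ S, C (algebraMap k K (c s.1 s.2)) * E ^ (V - (q * s.1 + p * s.2)) * A ^ s.1 * B ^ s.2 ≠ 0
  ne : ∀ z ∈ M, z.D ≠ 0
  deg : ∀ z ∈ M, z.D.natDegree = z.wt
  dvdx : ∀ z ∈ M, z.D ∣ A - C (algebraMap k K z.x) * E ^ q
  dvdy : ∀ z ∈ M, z.D ∣ B - C (algebraMap k K z.y) * E ^ p
  copE : ∀ z ∈ M, IsCoprime z.D E
  cop : M.Pairwise fun z z' => IsCoprime z.D z'.D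

/-- `k[ε] → K[s][ε]`, `ε ↦ E ε`. -/
noncomputable def psi (E : K[X]) : k[X] →+* K[X][X] :=
  eval₂RingHom (((C : K[X] →+* K[X][X]).comp (C : K →+* K[X])).comp (algebraMap k K)) (C E * X)

theorem psi_C (E : K[X]) (r : k) : psi (k := k) E (C r) = C (C (algebraMap k K r)) := by
  simp [psi]

theorem psi_X (E : K[X]) : psi (k := k) E X = C E * X := by
  simp [psi]

theorem coeff_psi (E : K[X]) (g : k[X]) (n : ℕ) :
    (psi E g).coeff n = C (algebraMap k K (g.coeff n)) * E ^ n := by
  have h1 : psi E g = (g.map ((C : K →+* K[X]).comp (algebraMap k K))).comp (C E * X) := by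
    unfold psi
    rw [coe_eval₂RingHom, comp, eval₂_map]
    rfl
  rw [h1, comp_C_mul_X_coeff, coeff_map]
  rfl

noncomputable def ew (q p : ℕ) (E A B : K[X]) (ξ : k[X]) :
    MvPolynomial (Fin 3) k[X] →+* K[X][X] :=
  MvPolynomial.eval₂Hom (psi E)
    ![C A * X ^ q, eval₂ ((psi E).comp C) (C A * X ^ q) ξ + C B * X ^ p, 1]

noncomputable def ew2 (q p : ℕ) (E A B : K[X]) : k[X][X][X] →+* K[X][X] :=
  eval₂RingHom (eval₂RingHom (psi E) (C A * X ^ q)) (C B * X ^ p)

theorem ew_eq (q p : ℕ) (E A B : K[X]) (ξ : k[X]) (f : MvPolynomial (Fin 3) k[X]) :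
    ew q p E A B ξ f = ew2 q p E A B (expand (ξ.map (C : k →+* k[X])) f) := by
  have h : ew q p E A B ξ = (ew2 q p E A B).comp (expand (ξ.map (C : k →+* k[X]))) := by
    apply MvPolynomial.ringHom_ext
    · intro r
      simp [ew, ew2, expand]
    · intro i
      fin_cases i <;> simp [ew, ew2, expand, eval₂_map]
  exact DFunLike.congr_fun h f

theorem ew_dvd {q p e : ℕ} {E A B : K[X]} {M : List (Datum k K)} (hM : Sweep2 q p e E A B M)
    (ξ : k[X]) {z : Datum k K} (hz : z ∈ M) {m : ℕ} {F : MvPolynomial (Fin 3) k[X]}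
    (hF : F ∈ (Ideal.span {MvPolynomial.X 0 - MvPolynomial.C (ptx q z) * MvPolynomial.X 2,
      MvPolynomial.X 1 - MvPolynomial.C (pty q p ξ z) * MvPolynomial.X 2} :
        Ideal (MvPolynomial (Fin 3) k[X])) ^ m) :
    C (z.D ^ m) ∣ ew q p E A B ξ F := by
  have h1 : Ideal.map (ew q p E A B ξ) (Ideal.span
      {MvPolynomial.X 0 - MvPolynomial.C (ptx q z) * MvPolynomial.X 2,
      MvPolynomial.X 1 - MvPolynomial.C (pty q p ξ z) * MvPolynomial.X 2}) ≤
      Ideal.span {C z.D} := by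
    rw [Ideal.map_span, Ideal.span_le]
    have hx : C z.D ∣ (C A * X ^ q -
        C (C (algebraMap k K z.x) * E ^ q) * X ^ q : K[X][X]) := by
      rw [← sub_mul, ← C_sub]
      exact (map_dvd (C : K[X] →+* K[X][X]) (hM.dvdx z hz)).mul_right _
    rintro _ ⟨g, hg, rfl⟩
    rw [SetLike.mem_coe, Ideal.mem_span_singleton]
    rcases hg with rfl | rfl
    · have : ew q p E A B ξ (MvPolynomial.X 0 - MvPolynomial.C (ptx q z) * MvPolynomial.X 2) =
          C A * X ^ q - C (C (algebraMap k K z.x) * E ^ q) * X ^ q := by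
        simp only [ew, ptx, map_sub, map_mul, MvPolynomial.coe_eval₂Hom, MvPolynomial.eval₂_X,
          MvPolynomial.eval₂_C, map_pow, psi_C, psi_X]
        simp [mul_pow]
        ring
      rw [this]
      exact hx
    · have h2 : ew q p E A B ξ (MvPolynomial.X 1 - MvPolynomial.C (pty q p ξ z) *
          MvPolynomial.X 2) =
          (eval (C A * X ^ q) (ξ.map ((psi E).comp C)) -
            eval (C (C (algebraMap k K z.x) * E ^ q) * X ^ q) (ξ.map ((psi E).comp C))) +
          C (B - C (algebraMap k K z.y) * E ^ p) * X ^ p := by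
        have h3 : psi E (ξ.comp (C z.x * X ^ q)) =
            eval (C (C (algebraMap k K z.x) * E ^ q) * X ^ q) (ξ.map ((psi E).comp C)) := by
          rw [eval_map, comp, hom_eval₂]
          congr 1
          rw [map_mul, psi_C, map_pow, psi_X, mul_pow, C_mul, C_pow]
          ring
        simp only [ew, pty, map_sub, map_mul, map_add, MvPolynomial.coe_eval₂Hom,
          MvPolynomial.eval₂_X, MvPolynomial.eval₂_C]
        rw [h3, eval_map (f := (psi E).comp C) (x := C A * X ^ q), psi_C, map_pow, psi_X]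
        simp [mul_pow]
        ring
      rw [h2]
      refine dvd_add (hx.trans (sub_dvd_eval_sub _ _ _)) ?_
      exact (map_dvd (C : K[X] →+* K[X][X]) (hM.dvdy z hz)).mul_right _
  have h2 := Ideal.mem_map_of_mem (ew q p E A B ξ) hF
  rw [Ideal.map_pow] at h2
  have h3 := Ideal.pow_right_mono h1 m h2
  rw [Ideal.span_singleton_pow, Ideal.mem_span_singleton, ← C_pow] at h3
  exact h3

/-- A bound for all degrees. -/
noncomputable def bdeg (G : k[X][X][X]) : ℕ := G.natDegree + (G.support.sup fun j => (G.coeff j).natDegree) + 1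

theorem bdeg_coeff (G : k[X][X][X]) (j : ℕ) : (G.coeff j).natDegree < bdeg G := by
  by_cases hj : j ∈ G.support
  · have h1 := Finset.le_sup (f := fun j => (G.coeff j).natDegree) hj
    unfold bdeg
    omega
  · rw [notMem_support_iff.1 hj, natDegree_zero]
    unfold bdeg
    omega

/-- The exponents. -/
def expo (q p V N : ℕ) : Finset (ℕ × ℕ) :=
  (Finset.range N ×ˢ Finset.range N).filter fun s => q * s.1 + p * s.2 ≤ V

/-- The coefficient of `ε ^ V`. -/
theorem coeff_ew2 (q p : ℕ) (E A B : K[X]) (G : k[X][X][X]) (V : ℕ) :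
    (ew2 q p E A B G).coeff V = ∑ s ∈ expo q p V (bdeg G),
      C (algebraMap k K (((G.coeff s.2).coeff s.1).coeff (V - (q * s.1 + p * s.2)))) *
        E ^ (V - (q * s.1 + p * s.2)) * A ^ s.1 * B ^ s.2 := by
  unfold ew2
  rw [coe_eval₂RingHom, eval₂_eq_sum_range' _ (n := bdeg G) (by unfold bdeg; omega),
    finsetSum_coeff]
  unfold expo
  rw [Finset.sum_filter, Finset.sum_product_right]
  refine Finset.sum_congr rfl fun j _ => ?_
  rw [coe_eval₂RingHom, eval₂_eq_sum_range' _ (bdeg_coeff G j), Finset.sum_mul, finsetSum_coeff]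
  refine Finset.sum_congr rfl fun i _ => ?_
  have h1 : psi E ((G.coeff j).coeff i) * (C A * X ^ q) ^ i * (C B * X ^ p) ^ j =
      psi E ((G.coeff j).coeff i) * C (A ^ i * B ^ j) * X ^ (q * i + p * j) := by
    rw [mul_pow, mul_pow, ← pow_mul, ← pow_mul, pow_add, C_mul, C_pow, C_pow]
    ring
  rw [h1, coeff_mul_X_pow']
  split_ifs with h
  · rw [coeff_mul_C, coeff_psi]
    ring
  · rfl

theorem natDegree_ew2 {q p e : ℕ} {E A B : K[X]} (hE : E.natDegree ≤ e)
    (hA : A.natDegree ≤ e * q) (hB : B.natDegree ≤ e * p) (G : k[X][X][X]) (V : ℕ) :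
    ((ew2 q p E A B G).coeff V).natDegree ≤ e * V := by
  rw [coeff_ew2]
  refine natDegree_sum_le_of_forall_le _ _ fun s hs => ?_
  have hs' : q * s.1 + p * s.2 ≤ V := (Finset.mem_filter.1 hs).2
  obtain ⟨n, hn⟩ : ∃ n, n = V - (q * s.1 + p * s.2) := ⟨_, rfl⟩
  rw [← hn]
  obtain ⟨c, hc⟩ : ∃ c, c = algebraMap k K (((G.coeff s.2).coeff s.1).coeff n) := ⟨_, rfl⟩
  rw [← hc]
  have h1 := natDegree_mul_le (p := C c * E ^ n * A ^ s.1) (q := B ^ s.2)
  have h2 := natDegree_mul_le (p := C c * E ^ n) (q := A ^ s.1)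
  have h3 := natDegree_mul_le (p := C c) (q := E ^ n)
  rw [natDegree_C] at h3
  have h4 : (E ^ n).natDegree ≤ n * e := (natDegree_pow_le).trans (Nat.mul_le_mul_left _ hE)
  have h5 : (A ^ s.1).natDegree ≤ s.1 * (e * q) :=
    (natDegree_pow_le).trans (Nat.mul_le_mul_left _ hA)
  have h6 : (B ^ s.2).natDegree ≤ s.2 * (e * p) :=
    (natDegree_pow_le).trans (Nat.mul_le_mul_left _ hB)
  have h7 : n * e + s.1 * (e * q) + s.2 * (e * p) = e * V := by
    have : V = n + (q * s.1 + p * s.2) := by omega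
    rw [this]
    ring
  omega

/-- The bound for the multiplicities at the moving points. -/
theorem deg_bound2 {q p e : ℕ} {E A B : K[X]} {M : List (Datum k K)}
    (hM : Sweep2 q p e E A B M) (ξ : k[X]) {V : ℝ} {d : ℕ}
    (hV : ∀ f : MvPolynomial (Fin 3) k, f ≠ 0 → f.IsHomogeneous d → ∃ i j : ℕ,
      ((expand ξ f).coeff j).coeff i ≠ 0 ∧ ((q * i + p * j : ℕ) : ℝ) ≤ V)
    {F : MvPolynomial (Fin 3) k[X]} (hF0 : F ≠ 0) (hFh : F.IsHomogeneous d)
    (m : Fin M.length → ℕ)
    (hF : ∀ l, F ∈ (Ideal.span {MvPolynomial.X 0 - MvPolynomial.C (ptx q (M.get l)) *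
        MvPolynomial.X 2,
      MvPolynomial.X 1 - MvPolynomial.C (pty q p ξ (M.get l)) * MvPolynomial.X 2} :
        Ideal (MvPolynomial (Fin 3) k[X])) ^ (m l)) :
    ((∑ l, (M.get l).wt * m l : ℕ) : ℝ) ≤ e * V := by
  classical
  have hnu : ¬ IsUnit (MvPolynomial.C (X : k[X]) : MvPolynomial (Fin 3) k[X]) := by
    intro hu
    have h1 := hu.map (MvPolynomial.map (constantCoeff : k[X] →+* k))
    simp at h1
  obtain ⟨f, hFf, hf⟩ := (FiniteMultiplicity.of_not_isUnit hnu hF0).exists_eq_pow_mul_and_not_dvd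
  obtain ⟨N, hN⟩ : ∃ N, N = multiplicity (MvPolynomial.C (X : k[X])) F := ⟨_, rfl⟩
  rw [← hN, ← map_pow] at hFf
  have hfh : f.IsHomogeneous d := by
    intro s hs
    refine hFh ?_
    rw [hFf, MvPolynomial.coeff_C_mul]
    exact mul_ne_zero (pow_ne_zero _ X_ne_zero) hs
  have hf0 : MvPolynomial.map (constantCoeff : k[X] →+* k) f ≠ 0 := by
    intro h0
    refine hf ?_
    rw [MvPolynomial.C_dvd_iff_dvd_coeff]
    intro s
    rw [X_dvd_iff]
    have h1 := congrArg (MvPolynomial.coeff s) h0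
    rw [MvPolynomial.coeff_map, MvPolynomial.coeff_zero] at h1
    exact h1
  obtain ⟨i0, j0, hij, hVij⟩ := hV _ hf0 (hfh.map _)
  obtain ⟨G, hG⟩ : ∃ G, G = expand (ξ.map (C : k →+* k[X])) f := ⟨_, rfl⟩
  rw [← expand_red, ← hG] at hij
  obtain ⟨v, hv⟩ : ∃ v, v = q * i0 + p * j0 := ⟨_, rfl⟩
  have hR0 : (ew2 q p E A B G).coeff v ≠ 0 := by
    rw [coeff_ew2]
    refine hM.nz v (fun i j => ((G.coeff j).coeff i).coeff (v - (q * i + p * j))) _
      (fun s hs => (Finset.mem_filter.1 hs).2) ⟨(i0, j0), ?_, ?_⟩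
    · unfold expo
      rw [Finset.mem_filter, Finset.mem_product, Finset.mem_range, Finset.mem_range]
      refine ⟨⟨?_, ?_⟩, hv.ge⟩
      · refine lt_of_le_of_lt (le_natDegree_of_ne_zero (n := i0) (p := G.coeff j0) ?_)
          (bdeg_coeff G j0)
        intro h0
        rw [h0] at hij
        simp at hij
      · refine lt_of_le_of_lt (le_natDegree_of_ne_zero (n := j0) (p := G) ?_)
          (by unfold bdeg; omega)
        intro h0
        rw [h0] at hij
        simp at hij
    · simp only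
      rw [hv, Nat.sub_self]
      exact hij
  have hdvd : ∀ l, (M.get l).D ^ m l ∣ (ew2 q p E A B G).coeff v := by
    intro l
    have h1 := ew_dvd hM ξ (List.get_mem M l) (hF l)
    rw [C_dvd_iff_dvd_coeff] at h1
    have h2 := h1 (v + N)
    have h3 : ew q p E A B ξ F = C (E ^ N) * (X ^ N * ew2 q p E A B G) := by
      rw [hFf, map_mul, ew_eq, hG, ew_eq, ← mul_assoc]
      congr 1
      have : expand (ξ.map (C : k →+* k[X])) (MvPolynomial.C (X ^ N)) = C (C (X ^ N)) := by
        simp [expand]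
      rw [this, ew2, coe_eval₂RingHom, eval₂_C, coe_eval₂RingHom, eval₂_C, map_pow, psi_X,
        mul_pow, C_pow]
    rw [h3, coeff_C_mul, coeff_X_pow_mul] at h2
    exact ((hM.copE _ (List.get_mem M l)).pow).dvd_of_dvd_mul_left h2
  have hprod : ∏ l, (M.get l).D ^ m l ∣ (ew2 q p E A B G).coeff v := by
    refine Finset.prod_dvd_of_coprime ?_ fun l _ => hdvd l
    intro i _ j _ hij
    refine IsCoprime.pow ?_
    have h1 := List.pairwise_iff_get.1 hM.cop
    rcases lt_or_gt_of_ne hij with h | h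
    · exact h1 i j h
    · exact (h1 j i h).symm
  have h1 := natDegree_le_of_dvd hprod hR0
  rw [natDegree_prod _ _ fun l _ => pow_ne_zero _ (hM.ne _ (List.get_mem M l))] at h1
  have h2 := natDegree_ew2 hM.dE hM.dA hM.dB G v
  have h3 : ∑ l, (M.get l).wt * m l ≤ e * v := by
    refine le_trans (le_of_eq ?_) (h1.trans h2)
    refine Finset.sum_congr rfl fun l _ => ?_
    rw [natDegree_pow, hM.deg _ (List.get_mem M l), mul_comm]
  rw [← hv] at hVij
  have h4 : ((∑ l, (M.get l).wt * m l : ℕ) : ℝ) ≤ ((e * v : ℕ) : ℝ) := by exact_mod_cast h3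
  refine h4.trans ?_
  push_cast
  exact mul_le_mul_of_nonneg_left hVij (Nat.cast_nonneg _)

/-- The curves of Euclid's algorithm. -/
theorem Sweep.two {q p : ℕ} (hq : 0 < q) {A B : K[X]} {M : List (Datum k K)}
    (hM : Sweep q p A B M) : Sweep2 q p 1 1 A B M := by
  refine ⟨by simp, by rw [hM.dA]; omega, by rw [hM.dB]; omega, ?_, ?_, hM.deg, ?_, ?_, ?_, hM.cop⟩
  · rintro V c S - ⟨s, hs, hcs⟩
    have h1 := hM.nz (∑ s ∈ S, monomial s.2 (monomial s.1 (c s.1 s.2))) (by
      intro h0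
      have h2 := congrArg (fun f => (f.coeff s.2).coeff s.1) h0
      simp only [finsetSum_coeff, coeff_zero, coeff_monomial] at h2
      rw [Finset.sum_eq_single s] at h2
      · rw [if_pos rfl, coeff_monomial, if_pos rfl] at h2
        exact hcs h2
      · intro t _ hts
        split_ifs with h3
        · rw [coeff_monomial, if_neg]
          intro h4
          exact hts (Prod.ext h4 h3)
        · simp
      · intro h
        exact absurd hs h)
    rw [eval₂_finsetSum] at h1
    refine fun h0 => h1 (Eq.trans (Finset.sum_congr rfl fun t _ => ?_) h0)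
    rw [eval₂_monomial, one_pow, mul_one]
    simp only [RingHom.coe_coe, aeval_monomial]
    rfl
  · intro z hz h0
    have h1 := hM.dvdx _ hz
    rw [h0, zero_dvd_iff, sub_eq_zero] at h1
    have h2 := hM.dA
    rw [h1, natDegree_C] at h2
    omega
  · intro z hz
    rw [one_pow, mul_one]
    exact hM.dvdx z hz
  · intro z hz
    rw [one_pow, mul_one]
    exact hM.dvdy z hz
  · intro z _
    exact isCoprime_one_right

end Pool.Agent.J4H37.WN
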