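import Pool.Agent.TH167.SH.Gen
import Pool.Agent.TH167.SH.Conv
import Pool.Agent.TH15.NagEmpGeneric

set_option autoImplicit false

/-!
# Emptiness at special points and at generic points
-/

namespace Pool.Agent.J4H37.WN

open MvPolynomial Pool.Agent.W609 Pool.Agent.W609.CR Pool.Agent.TH167 Pool.Agent.TH167.SH

theorem rank_inj {m n : Type} [Fintype m] [Fintype n] [DecidableEq n] {K : Type} [Field K]
    (A : Matrix m n K) (h : A.rank = Fintype.card n) (x : n → K) (hx : A.mulVec x = 0) :
    x = 0 := by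
  have h1 := LinearMap.finrank_range_add_finrank_ker A.mulVecLin
  rw [Module.finrank_fintype_fun_eq_card] at h1
  have h2 : Module.finrank K (LinearMap.ker A.mulVecLin) = 0 := by
    have : A.rank = Module.finrank K (LinearMap.range A.mulVecLin) := rfl
    omega
  rw [Submodule.finrank_eq_zero] at h2
  have h3 : x ∈ LinearMap.ker A.mulVecLin := hx
  rw [h2] at h3
  exact h3

theorem rank_spread' {m n : Type} [Fintype m] [Fintype n] [DecidableEq n] {R : Type}
    [CommRing R] {K2 K : Type} [Field K2] [Field K] (φ : R →+* K2) (ψ : R →+* K)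
    (hψ : Function.Injective ψ) (A : Matrix m n R) (h : (A.map φ).rank = Fintype.card n) :
    (A.map ψ).rank = Fintype.card n := by
  obtain ⟨a, ha⟩ := Pool.Agent.TH15.Nag.exists_rows (K := K2) (fun i j => φ (A i j))
    (fun c hc => rank_inj (A.map φ) h c (funext fun r => hc r))
  have h1 : (A.submatrix a id).det ≠ 0 := by
    intro h0
    refine ha ?_
    have h2 : (Matrix.of fun j m => φ (A (a j) m)) = (A.submatrix a id).map φ := rfl
    rw [h2, ← RingHom.mapMatrix_apply, ← RingHom.map_det, h0, map_zero]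
  have h2 : ((A.map ψ).submatrix a id).det ≠ 0 := by
    have h3 : (A.map ψ).submatrix a id = (A.submatrix a id).map ψ := rfl
    rw [h3, ← RingHom.mapMatrix_apply, ← RingHom.map_det]
    exact fun h0 => h1 (hψ (by rw [h0, map_zero]))
  have h3 : ((A.map ψ).submatrix a id).rank = Fintype.card n :=
    Matrix.rank_of_isUnit _ ((Matrix.isUnit_iff_isUnit_det _).2 (isUnit_iff_ne_zero.2 h2))
  have h4 := Matrix.rank_submatrix_le (A.map ψ) a id
  have h5 := Matrix.rank_le_card_width (A.map ψ)
  omega

theorem empty_spread {s : ℕ} {w : Fin s → ℕ} {d : ℕ} {K2 : Type} [Field K2] [CharZero K2]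
    {P : Fin s → Fin 2 → K2} (h : SHDefs.sys P d w = ⊥) {K : Type} [Field K] [CharZero K]
    {Q : Fin s → Fin 2 → K}
    (hQ : AlgebraicIndependent ℚ (fun ij : Fin s × Fin 2 => Q ij.1 ij.2)) :
    Module.finrank K ↥(SHDefs.sys Q d w) = 0 := by
  classical
  have h1 := vs_rank P w d
  rw [← sys_eq, h, finrank_bot, add_zero] at h1
  have hinj : Function.Injective
      (MvPolynomial.aeval (R := ℚ) (fun ij : Fin s × Fin 2 => Q ij.1 ij.2)).toRingHom :=
    fun a b hab => (show Function.Injective (MvPolynomial.aeval (R := ℚ)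
      (fun ij : Fin s × Fin 2 => Q ij.1 ij.2)) from hQ) hab
  have h2 := rank_spread' (MvPolynomial.aeval (fun ij : Fin s × Fin 2 => P ij.1 ij.2)).toRingHom
    (MvPolynomial.aeval (fun ij : Fin s × Fin 2 => Q ij.1 ij.2)).toRingHom hinj (cmat w d)
    (by rw [h1, Fintype.card_coe])
  have h3 := vs_rank Q w d
  rw [← sys_eq, h2, Fintype.card_coe] at h3
  omega

end Pool.Agent.J4H37.WN
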