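import Pool.Agent.J4H37.WN.Spec
import Pool.Agent.J4H37.WN.Deg2
import Pool.Agent.J4H37.WN.Semi

set_option autoImplicit false

/-!
# From the weighted planes to the plane
-/

namespace Pool.Agent.J4H37.WN

open Polynomial Pool.Agent.TH167

variable {k : Type} [Field k]

/-- `k[ε] → k[x, y][ε]`. -/
noncomputable def psi3 (k : Type) [Field k] : k[X] →+* (MvPolynomial (Fin 2) k)[X] :=
  mapRingHom (MvPolynomial.C : k →+* MvPolynomial (Fin 2) k)

noncomputable def ez (q p : ℕ) (ξ : k[X]) :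
    MvPolynomial (Fin 3) k[X] →+* (MvPolynomial (Fin 2) k)[X] :=
  MvPolynomial.eval₂Hom (psi3 k)
    ![C (MvPolynomial.X 0) * X ^ q, eval₂ ((psi3 k).comp C) (C (MvPolynomial.X 0) * X ^ q) ξ +
      C (MvPolynomial.X 1) * X ^ p, 1]

noncomputable def ez2 (q p : ℕ) : k[X][X][X] →+* (MvPolynomial (Fin 2) k)[X] :=
  eval₂RingHom (eval₂RingHom (psi3 k) (C (MvPolynomial.X 0) * X ^ q)) (C (MvPolynomial.X 1) * X ^ p)

theorem ez_eq (q p : ℕ) (ξ : k[X]) (f : MvPolynomial (Fin 3) k[X]) :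
    ez q p ξ f = ez2 q p (expand (ξ.map (C : k →+* k[X])) f) := by
  have h : ez q p ξ = (ez2 q p).comp (expand (ξ.map (C : k →+* k[X]))) := by
    apply MvPolynomial.ringHom_ext
    · intro r
      simp [ez, ez2, expand]
    · intro i
      fin_cases i <;> simp [ez, ez2, expand, eval₂_map]
  exact DFunLike.congr_fun h f

theorem ez_mem (q p : ℕ) (ξ : k[X]) (z : Datum k k) {m : ℕ} {F : MvPolynomial (Fin 3) k[X]}
    (hF : F ∈ (Ideal.span {MvPolynomial.X 0 - MvPolynomial.C (ptx q z) * MvPolynomial.X 2,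
      MvPolynomial.X 1 - MvPolynomial.C (pty q p ξ z) * MvPolynomial.X 2} :
        Ideal (MvPolynomial (Fin 3) k[X])) ^ m) (n : ℕ) :
    (ez q p ξ F).coeff n ∈ (Ideal.span {MvPolynomial.X 0 - MvPolynomial.C z.x,
      MvPolynomial.X 1 - MvPolynomial.C z.y} : Ideal (MvPolynomial (Fin 2) k)) ^ m := by
  obtain ⟨J, hJ⟩ : ∃ J : Ideal (MvPolynomial (Fin 2) k), J =
    Ideal.span {MvPolynomial.X 0 - MvPolynomial.C z.x,
      MvPolynomial.X 1 - MvPolynomial.C z.y} := ⟨_, rfl⟩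
  rw [← hJ]
  have h1 : Ideal.map (ez q p ξ) (Ideal.span
      {MvPolynomial.X 0 - MvPolynomial.C (ptx q z) * MvPolynomial.X 2,
      MvPolynomial.X 1 - MvPolynomial.C (pty q p ξ z) * MvPolynomial.X 2}) ≤
      Ideal.map (C : MvPolynomial (Fin 2) k →+* (MvPolynomial (Fin 2) k)[X]) J := by
    rw [Ideal.map_span, Ideal.span_le]
    have hxJ : (MvPolynomial.X 0 - MvPolynomial.C z.x : MvPolynomial (Fin 2) k) ∈ J := by
      rw [hJ]
      exact Ideal.subset_span (by simp)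
    have hyJ : (MvPolynomial.X 1 - MvPolynomial.C z.y : MvPolynomial (Fin 2) k) ∈ J := by
      rw [hJ]
      exact Ideal.subset_span (by simp)
    have hx : (C (MvPolynomial.X 0) * X ^ q - C (MvPolynomial.C z.x) * X ^ q :
        (MvPolynomial (Fin 2) k)[X]) ∈
        Ideal.map (C : MvPolynomial (Fin 2) k →+* (MvPolynomial (Fin 2) k)[X]) J := by
      rw [← sub_mul, ← C_sub]
      exact Ideal.mul_mem_right _ _ (Ideal.mem_map_of_mem _ hxJ)
    rintro _ ⟨g, hg, rfl⟩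
    rw [SetLike.mem_coe]
    rcases hg with rfl | rfl
    · have : ez q p ξ (MvPolynomial.X 0 - MvPolynomial.C (ptx q z) * MvPolynomial.X 2) =
          C (MvPolynomial.X 0) * X ^ q - C (MvPolynomial.C z.x) * X ^ q := by
        simp [ez, ptx, psi3]
      rw [this]
      exact hx
    · have h2 : ez q p ξ (MvPolynomial.X 1 - MvPolynomial.C (pty q p ξ z) *
          MvPolynomial.X 2) =
          (eval (C (MvPolynomial.X 0) * X ^ q) (ξ.map ((psi3 k).comp C)) -
            eval (C (MvPolynomial.C z.x) * X ^ q) (ξ.map ((psi3 k).comp C))) +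
          C (MvPolynomial.X 1 - MvPolynomial.C z.y) * X ^ p := by
        have h3 : psi3 k (ξ.comp (C z.x * X ^ q)) =
            eval (C (MvPolynomial.C z.x) * X ^ q) (ξ.map ((psi3 k).comp C)) := by
          rw [eval_map, comp, hom_eval₂]
          congr 1
          simp [psi3]
        simp only [ez, pty, map_sub, map_mul, map_add, MvPolynomial.coe_eval₂Hom,
          MvPolynomial.eval₂_X, MvPolynomial.eval₂_C]
        rw [h3, eval_map (f := (psi3 k).comp C) (x := C (MvPolynomial.X 0) * X ^ q)]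
        simp [psi3]
        ring
      rw [h2]
      refine Ideal.add_mem _ ?_ (Ideal.mul_mem_right _ _ (Ideal.mem_map_of_mem _ hyJ))
      obtain ⟨g, hg⟩ := sub_dvd_eval_sub (C (MvPolynomial.X 0) * X ^ q :
        (MvPolynomial (Fin 2) k)[X]) (C (MvPolynomial.C z.x) * X ^ q) (ξ.map ((psi3 k).comp C))
      rw [hg]
      exact Ideal.mul_mem_right _ _ hx
  have h2 := Ideal.mem_map_of_mem (ez q p ξ) hF
  rw [Ideal.map_pow] at h2
  have h3 := Ideal.pow_right_mono h1 m h2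
  rw [← Ideal.map_pow, Ideal.mem_map_C_iff] at h3
  exact h3 n

/-- The coefficient of `ε ^ V`. -/
theorem coeff_ez2 (q p : ℕ) (G : k[X][X][X]) (V : ℕ) :
    (ez2 q p G).coeff V = ∑ s ∈ expo q p V (bdeg G),
      MvPolynomial.C (((G.coeff s.2).coeff s.1).coeff (V - (q * s.1 + p * s.2))) *
        (MvPolynomial.X 0 ^ s.1 * MvPolynomial.X 1 ^ s.2) := by
  unfold ez2
  rw [coe_eval₂RingHom, eval₂_eq_sum_range' _ (n := bdeg G) (by unfold bdeg; omega),
    finsetSum_coeff]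
  unfold expo
  rw [Finset.sum_filter, Finset.sum_product_right]
  refine Finset.sum_congr rfl fun j _ => ?_
  rw [coe_eval₂RingHom, eval₂_eq_sum_range' _ (bdeg_coeff G j), Finset.sum_mul, finsetSum_coeff]
  refine Finset.sum_congr rfl fun i _ => ?_
  have h1 : psi3 k ((G.coeff j).coeff i) * (C (MvPolynomial.X 0) * X ^ q) ^ i *
      (C (MvPolynomial.X 1) * X ^ p) ^ j =
      psi3 k ((G.coeff j).coeff i) *
        C (MvPolynomial.X 0 ^ i * MvPolynomial.X 1 ^ j) * X ^ (q * i + p * j) := by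
    rw [mul_pow, mul_pow, ← pow_mul, ← pow_mul, pow_add, C_mul, C_pow, C_pow]
    ring
  rw [h1, coeff_mul_X_pow']
  split_ifs with h
  · rw [coeff_mul_C, psi3, coe_mapRingHom, coeff_map]
  · rfl

/-- The exponent. -/
noncomputable def ex2 (s : ℕ × ℕ) : Fin 2 →₀ ℕ := Finsupp.single 0 s.1 + Finsupp.single 1 s.2

theorem ex2_zero (s : ℕ × ℕ) : ex2 s 0 = s.1 := by
  simp [ex2]

theorem ex2_one (s : ℕ × ℕ) : ex2 s 1 = s.2 := by
  simp [ex2]

theorem mono_eq (c : k) (s : ℕ × ℕ) :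
    MvPolynomial.C c * (MvPolynomial.X 0 ^ s.1 * MvPolynomial.X 1 ^ s.2) =
      (MvPolynomial.monomial (ex2 s) c : MvPolynomial (Fin 2) k) := by
  unfold ex2
  rw [MvPolynomial.monomial_eq, Finsupp.prod_fintype _ _ (by simp)]
  simp [Fin.prod_univ_two]

/-- No polynomial with the weights `1, t` and weight at most `B` has the multiplicities `w` at the
points `Q`. -/
def NoPoly {n : ℕ} (t B : ℝ) (Q : Fin n → Fin 2 → k) (w : Fin n → ℕ) : Prop :=
  ∀ h : MvPolynomial (Fin 2) k, h ≠ 0 → (∀ s ∈ h.support, (s 0 : ℝ) + t * (s 1 : ℝ) ≤ B) →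
    ∃ i, h ∉ (Ideal.span {MvPolynomial.X 0 - MvPolynomial.C (Q i 0),
      MvPolynomial.X 1 - MvPolynomial.C (Q i 1)} : Ideal (MvPolynomial (Fin 2) k)) ^ w i

theorem lead_poly {q p : ℕ} (hq : 0 < q) (ξ : k[X]) {V : ℝ} {d : ℕ} {n : ℕ}
    (hV : ∀ f : MvPolynomial (Fin 3) k, f ≠ 0 → f.IsHomogeneous d → ∃ i j : ℕ,
      ((expand ξ f).coeff j).coeff i ≠ 0 ∧ ((q * i + p * j : ℕ) : ℝ) ≤ q * V)
    {F : MvPolynomial (Fin 3) k[X]} (hF0 : F ≠ 0) (hFh : F.IsHomogeneous d)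
    (Q : Fin n → Fin 2 → k) (w : Fin n → ℕ)
    (hF : ∀ l, F ∈ (Ideal.span {MvPolynomial.X 0 - MvPolynomial.C (ptx q (⟨0, Q l 0, Q l 1, 0⟩ :
        Datum k k)) * MvPolynomial.X 2,
      MvPolynomial.X 1 - MvPolynomial.C (pty q p ξ (⟨0, Q l 0, Q l 1, 0⟩ : Datum k k)) *
        MvPolynomial.X 2} : Ideal (MvPolynomial (Fin 3) k[X])) ^ (w l)) :
    ¬ NoPoly ((p : ℝ) / q) V Q w := by
  classical
  have hqR : (0 : ℝ) < q := by exact_mod_cast hq
  have hnu : ¬ IsUnit (MvPolynomial.C (X : k[X]) : MvPolynomial (Fin 3) k[X]) := by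
    intro hu
    have h1 := hu.map (MvPolynomial.map (constantCoeff : k[X] →+* k))
    simp at h1
  obtain ⟨f, hFf, hf⟩ := (FiniteMultiplicity.of_not_isUnit hnu hF0).exists_eq_pow_mul_and_not_dvd
  obtain ⟨N, hN⟩ : ∃ N, N = multiplicity (MvPolynomial.C (X : k[X])) F := ⟨_, rfl⟩
  rw [← hN, ← map_pow] at hFf
  have hfh : f.IsHomogeneous d := by
    intro s hs
    refine hFh ?_
    rw [hFf, MvPolynomial.coeff_C_mul]
    exact mul_ne_zero (pow_ne_zero _ X_ne_zero) hs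
  have hf0 : MvPolynomial.map (constantCoeff : k[X] →+* k) f ≠ 0 := by
    intro h0
    refine hf ?_
    rw [MvPolynomial.C_dvd_iff_dvd_coeff]
    intro s
    rw [X_dvd_iff]
    have h1 := congrArg (MvPolynomial.coeff s) h0
    rw [MvPolynomial.coeff_map, MvPolynomial.coeff_zero] at h1
    exact h1
  obtain ⟨i0, j0, hij, hVij⟩ := hV _ hf0 (hfh.map _)
  obtain ⟨G, hG⟩ : ∃ G, G = expand (ξ.map (C : k →+* k[X])) f := ⟨_, rfl⟩
  rw [← expand_red, ← hG] at hij
  obtain ⟨v, hv⟩ : ∃ v, v = q * i0 + p * j0 := ⟨_, rfl⟩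
  rw [← hv] at hVij
  intro hno
  obtain ⟨h, hh⟩ : ∃ h, h = (ez2 q p G).coeff v := ⟨_, rfl⟩
  have hh' : h = ∑ s ∈ expo q p v (bdeg G), MvPolynomial.monomial (ex2 s)
      (((G.coeff s.2).coeff s.1).coeff (v - (q * s.1 + p * s.2))) := by
    rw [hh, coeff_ez2]
    exact Finset.sum_congr rfl fun s _ => mono_eq _ _
  have hmem : (i0, j0) ∈ expo q p v (bdeg G) := by
    unfold expo
    rw [Finset.mem_filter, Finset.mem_product, Finset.mem_range, Finset.mem_range]
    refine ⟨⟨?_, ?_⟩, hv.ge⟩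
    · refine lt_of_le_of_lt (le_natDegree_of_ne_zero (n := i0) (p := G.coeff j0) ?_)
        (bdeg_coeff G j0)
      intro h0
      rw [h0] at hij
      simp at hij
    · refine lt_of_le_of_lt (le_natDegree_of_ne_zero (n := j0) (p := G) ?_)
        (by unfold bdeg; omega)
      intro h0
      rw [h0] at hij
      simp at hij
  have hh0 : h ≠ 0 := by
    intro h0
    have h1 := congrArg (MvPolynomial.coeff (ex2 (i0, j0))) h0
    rw [hh', MvPolynomial.coeff_sum, MvPolynomial.coeff_zero, Finset.sum_eq_single (i0, j0)] at h1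
    · rw [MvPolynomial.coeff_monomial, if_pos rfl] at h1
      simp only at h1
      rw [hv, Nat.sub_self] at h1
      exact hij h1
    · intro s _ hs
      rw [MvPolynomial.coeff_monomial, if_neg]
      intro h2
      refine hs (Prod.ext ?_ ?_)
      · have := DFunLike.congr_fun h2 0
        rwa [ex2_zero, ex2_zero] at this
      · have := DFunLike.congr_fun h2 1
        rwa [ex2_one, ex2_one] at this
    · intro h2
      exact absurd hmem h2
  obtain ⟨l, hl⟩ := hno h hh0 (by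
    intro s hs
    rw [hh'] at hs
    have h1 := MvPolynomial.support_sum hs
    rw [Finset.mem_biUnion] at h1
    obtain ⟨s', hs', h2⟩ := h1
    have h3 := MvPolynomial.support_monomial_subset h2
    rw [Finset.mem_singleton] at h3
    have h4 : q * s'.1 + p * s'.2 ≤ v := (Finset.mem_filter.1 hs').2
    rw [h3, ex2_zero, ex2_one]
    have h5 : ((q * s'.1 + p * s'.2 : ℕ) : ℝ) ≤ (v : ℝ) := by exact_mod_cast h4
    have h6 := h5.trans hVij
    push_cast at h6
    have h7 : (q : ℝ) * ((s'.1 : ℝ) + (p : ℝ) / q * s'.2) ≤ q * V := by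
      have : (q : ℝ) * ((s'.1 : ℝ) + (p : ℝ) / q * s'.2) = q * s'.1 + p * s'.2 := by
        field_simp
      rw [this]
      exact h6
    exact le_of_mul_le_mul_left h7 hqR)
  refine hl ?_
  have h1 := ez_mem q p ξ (⟨0, Q l 0, Q l 1, 0⟩ : Datum k k) (hF l) (v + N)
  have h3 : ez q p ξ F = X ^ N * ez2 q p G := by
    rw [hFf, map_mul, ez_eq, hG, ez_eq]
    congr 1
    have : expand (ξ.map (C : k →+* k[X])) (MvPolynomial.C (X ^ N)) = C (C (X ^ N)) := by
      simp [expand]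
    rw [this, ez2, coe_eval₂RingHom, eval₂_C, coe_eval₂RingHom, eval₂_C, map_pow, psi3,
      coe_mapRingHom, Polynomial.map_X]
  rw [h3, coeff_X_pow_mul, ← hh] at h1
  exact h1

theorem special_rat {q p : ℕ} (hq : 0 < q) (hqp : 9 * q ≤ p) {n d : ℕ} (w : Fin n → ℕ)
    (Q : Fin n → Fin 2 → ℂ) (h : NoPoly ((p : ℝ) / q) (d * Real.sqrt ((p : ℝ) / q)) Q w) :
    ∃ P : Fin n → Fin 2 → FractionRing (Polynomial ℂ), SHDefs.sys P d w = ⊥ := by
  classical
  obtain ⟨ξ, hξ⟩ := exists_germ hq hqp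
  have hqR : (0 : ℝ) < q := by exact_mod_cast hq
  have hsq : Real.sqrt (p * q) = q * Real.sqrt ((p : ℝ) / q) := by
    have h4 : (p : ℝ) * q = q ^ 2 * ((p : ℝ) / q) := by
      field_simp
    rw [h4, Real.sqrt_mul (by positivity), Real.sqrt_sq hqR.le]
  refine ⟨fun i => ![algebraMap _ _ (ptx q (⟨0, Q i 0, Q i 1, 0⟩ : Datum ℂ ℂ)),
    algebraMap _ _ (pty q p ξ (⟨0, Q i 0, Q i 1, 0⟩ : Datum ℂ ℂ))], ?_⟩
  rw [Submodule.eq_bot_iff]
  intro g hg
  by_contra hg0
  unfold SHDefs.sys at hg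
  rw [Submodule.mem_inf, Submodule.restrictScalars_mem, Ideal.mem_iInf] at hg
  obtain ⟨hgh, hgi⟩ := hg
  obtain ⟨F, hF0, hFh, hF⟩ := clear_den (R := Polynomial ℂ) hg0 hgh
    (fun l : Fin n => ptx q (⟨0, Q l 0, Q l 1, 0⟩ : Datum ℂ ℂ))
    (fun l => pty q p ξ (⟨0, Q l 0, Q l 1, 0⟩ : Datum ℂ ℂ)) w hgi
  refine lead_poly hq ξ (V := d * Real.sqrt ((p : ℝ) / q)) ?_ hF0 hFh Q w hF h
  intro f hf0 hf
  obtain ⟨i, j, h1, h2⟩ := hξ d f hf0 hf
  refine ⟨i, j, h1, h2.trans (le_of_eq ?_)⟩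
  rw [hsq]
  ring

/-- **From the weighted planes to the plane**, all real weights. -/
theorem special_real {t : ℝ} (ht : 9 ≤ t) {n d : ℕ} (w : Fin n → ℕ)
    (Q : Fin n → Fin 2 → ℂ) (h : NoPoly t (d * Real.sqrt t) Q w) :
    ∃ P : Fin n → Fin 2 → FractionRing (Polynomial ℂ), SHDefs.sys P d w = ⊥ := by
  obtain ⟨δ, hδ, hδ'⟩ := Pool.Agent.Y76.NQ.exists_gap (t := t) (by linarith) (d * √t)
  have hcont : ContinuousAt (fun x : ℝ => (d : ℝ) * √x) t := by fun_prop
  obtain ⟨η, hη, hη'⟩ := Metric.continuousAt_iff.1 hcont δ hδ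
  obtain ⟨a, ha1, ha2⟩ := exists_rat_btwn (show t < t + η by linarith)
  have ha0 : (0 : ℝ) < a := by linarith
  have ha0' : (0 : ℚ) < a := by exact_mod_cast ha0
  obtain ⟨p, hp⟩ : ∃ p : ℕ, p = a.num.toNat := ⟨_, rfl⟩
  have hpz : (p : ℤ) = a.num := by
    rw [hp]
    exact Int.toNat_of_nonneg (Rat.num_pos.2 ha0').le
  have hpa : (p : ℝ) / (a.den : ℝ) = a := by
    have h1 : ((a.num : ℤ) : ℝ) / (a.den : ℝ) = a := by exact_mod_cast a.num_div_den
    rw [← h1, ← hpz]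
    push_cast
    rfl
  have hden : (0 : ℝ) < a.den := by exact_mod_cast a.den_pos
  refine special_rat (q := a.den) (p := p) a.den_pos ?_ w Q ?_
  · have h1 : (9 : ℝ) * a.den ≤ p := by
      rw [← le_div_iff₀ hden, hpa]
      linarith
    exact_mod_cast h1
  · intro f hf0 hf
    refine h f hf0 fun s hs => ?_
    have h1 := hf s hs
    rw [hpa] at h1
    by_contra hcon
    have h2 := hδ' (s 0) (s 1) (not_le.1 hcon)
    have h3 := hη' (x := (a : ℝ)) (by
      rw [Real.dist_eq, abs_lt]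
      constructor <;> linarith)
    rw [Real.dist_eq, abs_lt] at h3
    have h4 : t * (s 1 : ℝ) ≤ a * (s 1 : ℝ) :=
      mul_le_mul_of_nonneg_right ha1.le (Nat.cast_nonneg _)
    linarith [h3.2]

end Pool.Agent.J4H37.WN
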