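import Pool.Agent.J4H37.WN.Eucl

set_option autoImplicit false

/-!
# Degeneration of points of the plane to a germ
-/

namespace Pool.Agent.J4H37.WN

open Polynomial

variable {k K : Type} [Field k] [Field K] [Algebra k K]

/-- Coordinates of the moving points. -/
noncomputable def ptx (q : ℕ) (z : Datum k K) : k[X] := C z.x * X ^ q

noncomputable def pty (q p : ℕ) (ξ : k[X]) (z : Datum k K) : k[X] :=
  ξ.comp (C z.x * X ^ q) + C z.y * X ^ p

/-- The expansion `f (x, ξ(x) + Y, 1)`. -/
noncomputable def expand {R : Type} [CommRing R] (ξ : R[X]) :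
    MvPolynomial (Fin 3) R →+* R[X][X] :=
  MvPolynomial.eval₂Hom ((C : R[X] →+* R[X][X]).comp (C : R →+* R[X]))
    ![C X, C ξ + X, 1]

/-- `k[ε] → K[s][ε]`. -/
noncomputable def phi (k K : Type) [Field k] [Field K] [Algebra k K] : k[X] →+* K[X][X] :=
  mapRingHom ((C : K →+* K[X]).comp (algebraMap k K))

noncomputable def ev (q p : ℕ) (A B : K[X]) (ξ : k[X]) :
    MvPolynomial (Fin 3) k[X] →+* K[X][X] :=
  MvPolynomial.eval₂Hom (phi k K)
    ![C A * X ^ q, eval₂ ((phi k K).comp C) (C A * X ^ q) ξ + C B * X ^ p, 1]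

noncomputable def ev2 (q p : ℕ) (A B : K[X]) : k[X][X][X] →+* K[X][X] :=
  eval₂RingHom (eval₂RingHom (phi k K) (C A * X ^ q)) (C B * X ^ p)

theorem ev_eq (q p : ℕ) (A B : K[X]) (ξ : k[X]) (f : MvPolynomial (Fin 3) k[X]) :
    ev q p A B ξ f = ev2 q p A B (expand (ξ.map (C : k →+* k[X])) f) := by
  have h : ev q p A B ξ = (ev2 q p A B).comp (expand (ξ.map (C : k →+* k[X]))) := by
    apply MvPolynomial.ringHom_ext
    · intro r
      simp [ev, ev2, expand]
    · intro i
      fin_cases i <;> simp [ev, ev2, expand, eval₂_map]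
  exact DFunLike.congr_fun h f

/-- Reduction modulo `ε`. -/
theorem expand_red (ξ : k[X]) (f : MvPolynomial (Fin 3) k[X]) (i j : ℕ) :
    (((expand (ξ.map (C : k →+* k[X])) f).coeff j).coeff i).coeff 0 =
      ((expand ξ (MvPolynomial.map (constantCoeff : k[X] →+* k) f)).coeff j).coeff i := by
  have h : (mapRingHom (mapRingHom (constantCoeff : k[X] →+* k))).comp
      (expand (ξ.map (C : k →+* k[X]))) =
      (expand ξ).comp (MvPolynomial.map (constantCoeff : k[X] →+* k)) := by
    apply MvPolynomial.ringHom_ext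
    · intro r
      simp [expand]
    · intro i
      fin_cases i
      · simp [expand]
      · simp only [expand, RingHom.comp_apply]
        simp only [MvPolynomial.coe_eval₂Hom, MvPolynomial.eval₂_X, MvPolynomial.map_X]
        simp [Polynomial.map_map]
        have : (constantCoeff : k[X] →+* k).comp C = RingHom.id k := by
          ext; simp
        rw [this, Polynomial.map_id]
      · simp [expand]
  have h1 := DFunLike.congr_fun h f
  rw [RingHom.comp_apply, RingHom.comp_apply] at h1
  rw [← h1]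
  simp [coeff_map]

theorem ev_dvd {q p : ℕ} {A B : K[X]} {M : List (Datum k K)} (hM : Sweep q p A B M) (ξ : k[X])
    {z : Datum k K} (hz : z ∈ M) {m : ℕ} {F : MvPolynomial (Fin 3) k[X]}
    (hF : F ∈ (Ideal.span {MvPolynomial.X 0 - MvPolynomial.C (ptx q z) * MvPolynomial.X 2,
      MvPolynomial.X 1 - MvPolynomial.C (pty q p ξ z) * MvPolynomial.X 2} :
        Ideal (MvPolynomial (Fin 3) k[X])) ^ m) :
    C (z.D ^ m) ∣ ev q p A B ξ F := by
  have h1 : Ideal.map (ev q p A B ξ) (Ideal.span
      {MvPolynomial.X 0 - MvPolynomial.C (ptx q z) * MvPolynomial.X 2,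
      MvPolynomial.X 1 - MvPolynomial.C (pty q p ξ z) * MvPolynomial.X 2}) ≤
      Ideal.span {C z.D} := by
    rw [Ideal.map_span, Ideal.span_le]
    have hx : C z.D ∣ (C A * X ^ q - C (C (algebraMap k K z.x)) * X ^ q : K[X][X]) := by
      rw [← sub_mul, ← C_sub]
      exact (map_dvd (C : K[X] →+* K[X][X]) (hM.dvdx z hz)).mul_right _
    rintro _ ⟨g, hg, rfl⟩
    rw [SetLike.mem_coe, Ideal.mem_span_singleton]
    rcases hg with rfl | rfl
    · have : ev q p A B ξ (MvPolynomial.X 0 - MvPolynomial.C (ptx q z) * MvPolynomial.X 2) =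
          C A * X ^ q - C (C (algebraMap k K z.x)) * X ^ q := by
        simp [ev, ptx, phi]
      rw [this]
      exact hx
    · have h2 : ev q p A B ξ (MvPolynomial.X 1 - MvPolynomial.C (pty q p ξ z) *
          MvPolynomial.X 2) =
          (eval (C A * X ^ q) (ξ.map ((phi k K).comp C)) -
            eval (C (C (algebraMap k K z.x)) * X ^ q) (ξ.map ((phi k K).comp C))) +
          C (B - C (algebraMap k K z.y)) * X ^ p := by
        have h3 : phi k K (ξ.comp (C z.x * X ^ q)) =
            eval (C (C (algebraMap k K z.x)) * X ^ q) (ξ.map ((phi k K).comp C)) := by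
          rw [eval_map, comp, hom_eval₂]
          congr 1
          simp [phi]
        simp only [ev, pty, map_sub, map_mul, map_add, MvPolynomial.coe_eval₂Hom,
          MvPolynomial.eval₂_X, MvPolynomial.eval₂_C]
        rw [h3, eval_map (f := (phi k K).comp C) (x := C A * X ^ q)]
        simp [phi]
        ring
      rw [h2]
      refine dvd_add (hx.trans (sub_dvd_eval_sub _ _ _)) ?_
      exact (map_dvd (C : K[X] →+* K[X][X]) (hM.dvdy z hz)).mul_right _
  have h2 := Ideal.mem_map_of_mem (ev q p A B ξ) hF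
  rw [Ideal.map_pow] at h2
  have h3 := Ideal.pow_right_mono h1 m h2
  rw [Ideal.span_singleton_pow, Ideal.mem_span_singleton, ← C_pow] at h3
  exact h3

/-- The coefficient of `ε ^ e`. -/
theorem coeff_ev2 (q p : ℕ) (A B : K[X]) (G : k[X][X][X]) (e : ℕ) :
    (ev2 q p A B G).coeff e = ∑ j ∈ G.support, ∑ i ∈ (G.coeff j).support,
      if q * i + p * j ≤ e then
        C (algebraMap k K (((G.coeff j).coeff i).coeff (e - (q * i + p * j)))) * A ^ i * B ^ j
      else 0 := by
  unfold ev2
  rw [coe_eval₂RingHom, eval₂_eq_sum, Polynomial.sum, finsetSum_coeff]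
  refine Finset.sum_congr rfl fun j _ => ?_
  rw [coe_eval₂RingHom, eval₂_eq_sum, Polynomial.sum, Finset.sum_mul, finsetSum_coeff]
  refine Finset.sum_congr rfl fun i _ => ?_
  have h1 : phi k K ((G.coeff j).coeff i) * (C A * X ^ q) ^ i * (C B * X ^ p) ^ j =
      phi k K ((G.coeff j).coeff i) * C (A ^ i * B ^ j) * X ^ (q * i + p * j) := by
    rw [mul_pow, mul_pow, ← pow_mul, ← pow_mul, pow_add, C_mul, C_pow, C_pow]
    ring
  rw [h1, coeff_mul_X_pow']
  split_ifs with h
  · rw [coeff_mul_C, phi, coe_mapRingHom, coeff_map]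
    simp only [RingHom.comp_apply]
    ring
  · rfl

/-- The leading form. -/
noncomputable def lead (q p e : ℕ) (G : k[X][X][X]) : k[X][X] :=
  ∑ j ∈ G.support, ∑ i ∈ (G.coeff j).support,
    monomial j (monomial i (if q * i + p * j ≤ e then
      ((G.coeff j).coeff i).coeff (e - (q * i + p * j)) else 0))

theorem eval_lead (q p : ℕ) (A B : K[X]) (G : k[X][X][X]) (e : ℕ) :
    eval₂ ((aeval A : k[X] →ₐ[k] K[X]) : k[X] →+* K[X]) B (lead q p e G) =
      (ev2 q p A B G).coeff e := by
  rw [coeff_ev2]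
  unfold lead
  rw [eval₂_finsetSum]
  refine Finset.sum_congr rfl fun j _ => ?_
  rw [eval₂_finsetSum]
  refine Finset.sum_congr rfl fun i _ => ?_
  rw [eval₂_monomial]
  split_ifs with h
  · simp only [RingHom.coe_coe, aeval_monomial]
    rfl
  · simp

theorem lead_ne {q p i0 j0 : ℕ} {G : k[X][X][X]}
    (h : ((G.coeff j0).coeff i0).coeff 0 ≠ 0) : lead q p (q * i0 + p * j0) G ≠ 0 := by
  intro h0
  have h1 := congrArg (fun f => (f.coeff j0).coeff i0) h0
  simp only [lead, finsetSum_coeff, coeff_zero] at h1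
  have hj : j0 ∈ G.support := by
    rw [mem_support_iff]
    rintro h2
    rw [h2] at h
    simp at h
  have hi : i0 ∈ (G.coeff j0).support := by
    rw [mem_support_iff]
    rintro h2
    rw [h2] at h
    simp at h
  rw [Finset.sum_eq_single j0, Finset.sum_eq_single i0] at h1
  · rw [coeff_monomial, if_pos rfl, coeff_monomial, if_pos rfl, if_pos le_rfl, Nat.sub_self] at h1
    exact h h1
  · intro i _ hi
    rw [coeff_monomial, if_pos rfl, coeff_monomial, if_neg hi]
  · intro hi'
    exact absurd hi hi'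
  · intro j _ hj
    refine Finset.sum_eq_zero fun i _ => ?_
    rw [coeff_monomial, if_neg hj, coeff_zero]
  · intro hj'
    exact absurd hj hj'

theorem natDegree_ev2 {q p : ℕ} {A B : K[X]} (hA : A.natDegree = q) (hB : B.natDegree = p)
    (G : k[X][X][X]) (e : ℕ) : ((ev2 q p A B G).coeff e).natDegree ≤ e := by
  rw [coeff_ev2]
  refine natDegree_sum_le_of_forall_le _ _ fun j _ => ?_
  refine natDegree_sum_le_of_forall_le _ _ fun i _ => ?_
  split_ifs with h
  · have h1 := natDegree_mul_le (p := C (algebraMap k K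
        (((G.coeff j).coeff i).coeff (e - (q * i + p * j)))) * A ^ i) (q := B ^ j)
    have h2 := natDegree_mul_le (p := C (algebraMap k K
        (((G.coeff j).coeff i).coeff (e - (q * i + p * j))))) (q := A ^ i)
    have h3 := natDegree_pow A i
    have h4 := natDegree_pow B j
    rw [natDegree_C] at h2
    rw [hA] at h3
    rw [hB] at h4
    have h5 : i * q = q * i := mul_comm _ _
    have h6 : j * p = p * j := mul_comm _ _
    omega
  · simp

/-- The bound for the multiplicities at the moving points. -/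
theorem deg_bound {q p : ℕ} (hq : 0 < q) {A B : K[X]} {M : List (Datum k K)}
    (hM : Sweep q p A B M) (ξ : k[X]) {V : ℝ} {d : ℕ}
    (hV : ∀ f : MvPolynomial (Fin 3) k, f ≠ 0 → f.IsHomogeneous d → ∃ i j : ℕ,
      ((expand ξ f).coeff j).coeff i ≠ 0 ∧ ((q * i + p * j : ℕ) : ℝ) ≤ V)
    {F : MvPolynomial (Fin 3) k[X]} (hF0 : F ≠ 0) (hFh : F.IsHomogeneous d)
    (m : Fin M.length → ℕ)
    (hF : ∀ l, F ∈ (Ideal.span {MvPolynomial.X 0 - MvPolynomial.C (ptx q (M.get l)) *
        MvPolynomial.X 2,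
      MvPolynomial.X 1 - MvPolynomial.C (pty q p ξ (M.get l)) * MvPolynomial.X 2} :
        Ideal (MvPolynomial (Fin 3) k[X])) ^ (m l)) :
    ((∑ l, (M.get l).wt * m l : ℕ) : ℝ) ≤ V := by
  classical
  -- divide by the power of `ε`
  have hnu : ¬ IsUnit (MvPolynomial.C (X : k[X]) : MvPolynomial (Fin 3) k[X]) := by
    intro hu
    have h1 := hu.map (MvPolynomial.map (constantCoeff : k[X] →+* k))
    simp at h1
  obtain ⟨f, hFf, hf⟩ := (FiniteMultiplicity.of_not_isUnit hnu hF0).exists_eq_pow_mul_and_not_dvd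
  obtain ⟨N, hN⟩ : ∃ N, N = multiplicity (MvPolynomial.C (X : k[X])) F := ⟨_, rfl⟩
  rw [← hN, ← map_pow] at hFf
  have hfh : f.IsHomogeneous d := by
    intro s hs
    refine hFh ?_
    rw [hFf, MvPolynomial.coeff_C_mul]
    exact mul_ne_zero (pow_ne_zero _ X_ne_zero) hs
  have hf0 : MvPolynomial.map (constantCoeff : k[X] →+* k) f ≠ 0 := by
    intro h0
    refine hf ?_
    rw [MvPolynomial.C_dvd_iff_dvd_coeff]
    intro s
    rw [X_dvd_iff]
    have h1 := congrArg (MvPolynomial.coeff s) h0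
    rw [MvPolynomial.coeff_map, MvPolynomial.coeff_zero] at h1
    exact h1
  obtain ⟨i0, j0, hij, hVij⟩ := hV _ hf0 (hfh.map _)
  obtain ⟨G, hG⟩ : ∃ G, G = expand (ξ.map (C : k →+* k[X])) f := ⟨_, rfl⟩
  rw [← expand_red, ← hG] at hij
  obtain ⟨e, he⟩ : ∃ e, e = q * i0 + p * j0 := ⟨_, rfl⟩
  have hR0 : (ev2 q p A B G).coeff e ≠ 0 := by
    rw [← eval_lead, he]
    exact hM.nz _ (lead_ne hij)
  have hdvd : ∀ l, (M.get l).D ^ m l ∣ (ev2 q p A B G).coeff e := by
    intro l
    have h1 := ev_dvd hM ξ (List.get_mem M l) (hF l)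
    rw [C_dvd_iff_dvd_coeff] at h1
    have h2 := h1 (e + N)
    have h3 : ev q p A B ξ F = X ^ N * ev2 q p A B G := by
      rw [hFf, map_mul, ev_eq, hG, ev_eq]
      congr 1
      have : expand (ξ.map (C : k →+* k[X])) (MvPolynomial.C (X ^ N)) = C (C (X ^ N)) := by
        simp [expand]
      rw [this, ev2, coe_eval₂RingHom, eval₂_C, coe_eval₂RingHom, eval₂_C, map_pow, phi,
        coe_mapRingHom, Polynomial.map_X]
    rw [h3, coeff_X_pow_mul] at h2
    exact h2
  have hD0 : ∀ l, (M.get l).D ≠ 0 := by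
    intro l h0
    have h1 := hM.dvdx _ (List.get_mem M l)
    rw [h0, zero_dvd_iff, sub_eq_zero] at h1
    have h2 := hM.dA
    rw [h1, natDegree_C] at h2
    omega
  have hprod : ∏ l, (M.get l).D ^ m l ∣ (ev2 q p A B G).coeff e := by
    refine Finset.prod_dvd_of_coprime ?_ fun l _ => hdvd l
    intro i _ j _ hij
    refine IsCoprime.pow ?_
    have h1 := List.pairwise_iff_get.1 hM.cop
    rcases lt_or_gt_of_ne hij with h | h
    · exact h1 i j h
    · exact (h1 j i h).symm
  have h1 := natDegree_le_of_dvd hprod hR0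
  rw [natDegree_prod _ _ fun l _ => pow_ne_zero _ (hD0 l)] at h1
  have h2 := natDegree_ev2 hM.dA hM.dB G e
  have h3 : ∑ l, (M.get l).wt * m l ≤ e := by
    refine le_trans (le_of_eq ?_) (h1.trans h2)
    refine Finset.sum_congr rfl fun l _ => ?_
    rw [natDegree_pow, hM.deg _ (List.get_mem M l), mul_comm]
  rw [← he] at hVij
  exact le_trans (by exact_mod_cast h3) hVij

end Pool.Agent.J4H37.WN
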