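import Mathlib

set_option autoImplicit false

/-!
# Rational curves sweeping a weighted plane, and the multiplicities of Euclid's algorithm
-/

namespace Pool.Agent.J4H37.WN

open Polynomial

/-- The multiplicities in Euclid's algorithm for `(q, p)`: `⌊p / q⌋` times `q`, then those of
`(p mod q, q)`. -/
def euclid (q p : ℕ) : List ℕ :=
  if _h : q = 0 then [] else List.replicate (p / q) q ++ euclid (p % q) q
termination_by q
decreasing_by exact Nat.mod_lt _ (Nat.pos_of_ne_zero _h)

theorem euclid_zero (p : ℕ) : euclid 0 p = [] := by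
  rw [euclid]
  simp

theorem euclid_pos {q : ℕ} (h : q ≠ 0) (p : ℕ) :
    euclid q p = List.replicate (p / q) q ++ euclid (p % q) q := by
  rw [euclid]
  simp [h]

theorem sq_euclid (q : ℕ) : ∀ p : ℕ, ((euclid q p).map fun x => x ^ 2).sum = q * p := by
  induction q using Nat.strong_induction_on with
  | _ q ih =>
    intro p
    rcases Nat.eq_zero_or_pos q with rfl | hq
    · simp [euclid_zero]
    · rw [euclid_pos hq.ne', List.map_append, List.sum_append, ih (p % q) (Nat.mod_lt _ hq) q,
        List.map_replicate, List.sum_replicate, smul_eq_mul]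
      have h := Nat.div_add_mod p q
      calc p / q * q ^ 2 + p % q * q = q * (q * (p / q) + p % q) := by ring
        _ = q * p := by rw [h]

theorem euclid_mul {g : ℕ} (hg : 0 < g) (q : ℕ) : ∀ p : ℕ,
    euclid (g * q) (g * p) = (euclid q p).map (g * ·) := by
  induction q using Nat.strong_induction_on with
  | _ q ih =>
    intro p
    rcases Nat.eq_zero_or_pos q with rfl | hq
    · simp [euclid_zero]
    · rw [euclid_pos hq.ne', euclid_pos (Nat.mul_pos hg hq).ne', List.map_append,
        List.map_replicate, Nat.mul_div_mul_left _ _ hg, Nat.mul_mod_mul_left,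
        ih (p % q) (Nat.mod_lt _ hq) q]

/-- A sum over the positions of a list. -/
theorem sum_getD {n : ℕ} (L : List ℕ) {τ : Fin n → ℕ} (hτ : Function.Injective τ)
    (hall : ∀ l < L.length, ∃ i, τ i = l) (f : ℕ → ℕ) (hf : f 0 = 0) :
    ∑ i, f (L.getD (τ i) 0) = (L.map f).sum := by
  classical
  have h1 : ∑ i, f (L.getD (τ i) 0) = ∑ l ∈ Finset.range L.length, f (L.getD l 0) := by
    have h2 : ∑ i, f (L.getD (τ i) 0) = ∑ l ∈ Finset.univ.image τ, f (L.getD l 0) := by
      rw [Finset.sum_image (fun a _ b _ h => hτ h)]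
    rw [h2]
    symm
    refine Finset.sum_subset ?_ ?_
    · intro l hl
      obtain ⟨i, hi⟩ := hall l (Finset.mem_range.1 hl)
      exact Finset.mem_image.2 ⟨i, Finset.mem_univ _, hi⟩
    · intro l _ hl
      rw [List.getD_eq_default _ _ (by simpa using hl), hf]
  rw [h1]
  clear h1 hall
  induction L with
  | nil => simp
  | cons a L ih =>
    rw [List.length_cons, Finset.sum_range_succ', List.map_cons, List.sum_cons, ← ih]
    simp [add_comm]

variable {k K : Type} [Field k] [Field K] [Algebra k K]

/-- `h(A, B) ≠ 0` for all nonzero polynomials `h` over `k` in two variables. -/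
def NZ (k : Type) {K : Type} [Field k] [Field K] [Algebra k K] (A B : K[X]) : Prop :=
  ∀ h : k[X][X], h ≠ 0 → eval₂ ((aeval A : k[X] →ₐ[k] K[X]) : k[X] →+* K[X]) B h ≠ 0

theorem eval₂_eq_aevalAeval (A B : K[X]) (h : k[X][X]) :
    eval₂ ((aeval A : k[X] →ₐ[k] K[X]) : k[X] →+* K[X]) B h = aevalAeval A B h := by
  have h1 : eval₂RingHom ((aeval A : k[X] →ₐ[k] K[X]) : k[X] →+* K[X]) B =
      (aevalAeval A B : k[X][X] →ₐ[k] K[X]).toRingHom := by
    apply Polynomial.ringHom_ext'
    · apply Polynomial.ringHom_ext'
      · ext r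
        simp
      · simp
    · simp
  exact DFunLike.congr_fun h1 h

theorem nz_swap {A B : K[X]} (h : NZ k A B) : NZ k B A := by
  intro f hf
  rw [eval₂_eq_aevalAeval, ← Bivariate.aevalAeval_swap, ← eval₂_eq_aevalAeval]
  refine h _ fun h0 => hf ?_
  exact (map_eq_zero_iff _ (Bivariate.swap (R := k)).injective).1 h0

theorem nz_step {A B : K[X]} (h : NZ k A B) {g : k[X]} (hg : g ≠ 0) :
    NZ k B (A * aeval B g) := by
  intro f hf
  have h1 : eval₂ ((aeval B : k[X] →ₐ[k] K[X]) : k[X] →+* K[X]) (A * aeval B g) f =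
      eval₂ ((aeval B : k[X] →ₐ[k] K[X]) : k[X] →+* K[X]) A (f.comp (C g * X)) := by
    rw [eval₂_comp]
    congr 1
    rw [eval₂_mul, eval₂_C, eval₂_X, mul_comm]
    rfl
  rw [h1]
  refine nz_swap h _ fun h0 => hf ?_
  ext1 n
  have h2 := congrArg (fun f => f.coeff n) h0
  simp only [coeff_zero, comp_C_mul_X_coeff] at h2
  rcases mul_eq_zero.1 h2 with h3 | h3
  · rw [h3, coeff_zero]
  · exact absurd h3 (pow_ne_zero n hg)

theorem nz_base {θ : K} (hθ : Transcendental k θ) : NZ k (C θ) X := by
  intro f hf
  have h1 : ((aeval (C θ) : k[X] →ₐ[k] K[X]) : k[X] →+* K[X]) =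
      (C : K →+* K[X]).comp ((aeval θ : k[X] →ₐ[k] K) : k[X] →+* K) := by
    apply Polynomial.ringHom_ext'
    · ext1 r
      simp
    · simp
  rw [h1]
  have h2 : eval₂ ((C : K →+* K[X]).comp ((aeval θ : k[X] →ₐ[k] K) : k[X] →+* K)) X f =
      f.map ((aeval θ : k[X] →ₐ[k] K) : k[X] →+* K) := rfl
  rw [h2]
  intro h0
  exact hf ((Polynomial.map_eq_zero_iff (transcendental_iff_injective.1 hθ)).1 h0)

/-- A multiplicity, a point `(x, y)` and a polynomial. -/
structure Datum (k K : Type) [Field k] [Field K] where
  wt : ℕ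
  x : k
  y : k
  D : K[X]

/-- The curve `(A, B)` over `K` meets the points. -/
structure Sweep (q p : ℕ) (A B : K[X]) (M : List (Datum k K)) : Prop where
  hA : A ≠ 0
  hB : B ≠ 0
  dA : A.natDegree = q
  dB : B.natDegree = p
  nz : NZ k A B
  wt : M.map Datum.wt = euclid q p
  deg : ∀ z ∈ M, z.D.natDegree = z.wt
  dvdx : ∀ z ∈ M, z.D ∣ A - C (algebraMap k K z.x)
  dvdy : ∀ z ∈ M, z.D ∣ B - C (algebraMap k K z.y)
  cop : M.Pairwise fun z z' => IsCoprime z.D z'.D

theorem exists_avoid [Infinite k] (S : List k) (n : ℕ) : ∃ α : Fin n → k, Function.Injective α ∧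
    ∀ i, α i ∉ S := by
  classical
  have h : {x : k | x ∉ S.toFinset}.Infinite := by
    have := (Finset.finite_toSet S.toFinset).infinite_compl (α := k)
    exact this
  haveI := h.to_subtype
  have e : ℕ ↪ {x : k | x ∉ S.toFinset} := Infinite.natEmbedding _
  refine ⟨fun i => (e i : k), fun i j hij => ?_, fun i hi => ?_⟩
  · exact Fin.ext (e.injective (Subtype.ext hij))
  · exact (e i).2 (List.mem_toFinset.2 hi)

theorem cop_C {a b : K} (h : a ≠ b) (B : K[X]) : IsCoprime (B - C a) (B - C b) := by
  refine ⟨C (b - a)⁻¹, -C (b - a)⁻¹, ?_⟩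
  have hba : b - a ≠ 0 := sub_ne_zero.2 h.symm
  calc C (b - a)⁻¹ * (B - C a) + -C (b - a)⁻¹ * (B - C b) = C (b - a)⁻¹ * (C b - C a) := by ring
    _ = 1 := by rw [← C_sub, ← C_mul, inv_mul_cancel₀ hba, C_1]

theorem exists_sweep [Infinite k] {θ : K} (hθ : Transcendental k θ) (q : ℕ) :
    ∀ p : ℕ, Nat.Coprime q p → ∃ (A B : K[X]) (M : List (Datum k K)), Sweep q p A B M := by
  classical
  induction q using Nat.strong_induction_on with
  | _ q ih =>
    intro p hqp
    rcases Nat.eq_zero_or_pos q with rfl | hq
    · have hp : p = 1 := by simpa using hqp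
      subst hp
      have hθ0 : θ ≠ 0 := by
        rintro rfl
        exact hθ isAlgebraic_zero
      exact ⟨C θ, X, [], ⟨by simpa using hθ0, X_ne_zero, natDegree_C _, natDegree_X,
        nz_base hθ, by simp [euclid_zero], by simp, by simp, by simp, List.Pairwise.nil⟩⟩
    · obtain ⟨A, B, M, hM⟩ := ih (p % q) (Nat.mod_lt _ hq) q (by
        rw [Nat.Coprime, ← Nat.gcd_rec]
        exact hqp)
      obtain ⟨α, hα, hαM⟩ := exists_avoid (M.map Datum.y) (p / q)
      obtain ⟨g, hg⟩ : ∃ g : k[X], g = ∏ i, (X - C (α i)) := ⟨_, rfl⟩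
      have hgm : g.Monic := by
        rw [hg]
        exact monic_prod_of_monic _ _ fun i _ => monic_X_sub_C _
      have hgd : g.natDegree = p / q := by
        rw [hg, natDegree_prod_of_monic _ _ fun i _ => monic_X_sub_C _]
        simp
      have hgB : aeval B g = ∏ i, (B - C (algebraMap k K (α i))) := by
        rw [hg, map_prod]
        refine Finset.prod_congr rfl fun i _ => ?_
        rw [map_sub, aeval_X, aeval_C]
        rfl
      have hfac : ∀ a : K, B - C a ≠ 0 := by
        intro a h0
        have h1 : B.natDegree = 0 := by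
          rw [sub_eq_zero.1 h0, natDegree_C]
        rw [hM.dB] at h1
        omega
      have hgB0 : aeval B g ≠ 0 := by
        rw [hgB]
        exact Finset.prod_ne_zero_iff.2 fun i _ => hfac _
      have hgBd : (aeval B g).natDegree = p / q * q := by
        rw [hgB, natDegree_prod _ _ fun i _ => hfac _]
        simp [natDegree_sub_C, hM.dB]
      refine ⟨B, A * aeval B g,
        (List.ofFn fun i : Fin (p / q) => (⟨q, α i, 0, B - C (algebraMap k K (α i))⟩ : Datum k K)) ++
          M.map (fun z => ⟨z.wt, z.y, z.x * eval z.y g, z.D⟩), ?_⟩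
      refine ⟨hM.hB, mul_ne_zero hM.hA hgB0, hM.dB, ?_, nz_step hM.nz hgm.ne_zero, ?_, ?_, ?_, ?_,
        ?_⟩
      · rw [natDegree_mul hM.hA hgB0, hM.dA, hgBd]
        have := Nat.div_add_mod p q
        rw [mul_comm] at this
        omega
      · rw [euclid_pos hq.ne', List.map_append, List.map_map, List.map_ofFn, ← hM.wt]
        congr 1
        · exact List.ofFn_const _ _
      · intro z hz
        rcases List.mem_append.1 hz with h | h
        · obtain ⟨i, rfl⟩ := (List.mem_ofFn' _ _).1 h
          simp [natDegree_sub_C, hM.dB]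
        · obtain ⟨z', hz', rfl⟩ := List.mem_map.1 h
          exact hM.deg z' hz'
      · intro z hz
        rcases List.mem_append.1 hz with h | h
        · obtain ⟨i, rfl⟩ := (List.mem_ofFn' _ _).1 h
          exact dvd_rfl
        · obtain ⟨z', hz', rfl⟩ := List.mem_map.1 h
          exact hM.dvdy z' hz'
      · intro z hz
        rcases List.mem_append.1 hz with h | h
        · obtain ⟨i, rfl⟩ := (List.mem_ofFn' _ _).1 h
          simp only [map_zero, sub_zero]
          rw [hgB]
          exact (Finset.dvd_prod_of_mem _ (Finset.mem_univ i)).mul_left _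
        · obtain ⟨z', hz', rfl⟩ := List.mem_map.1 h
          simp only
          have h1 : z'.D ∣ aeval B g - C (algebraMap k K (eval z'.y g)) := by
            have h2 : C (algebraMap k K (eval z'.y g)) =
                aeval (C (algebraMap k K z'.y) : K[X]) g := by
              have h3 : (C (algebraMap k K z'.y) : K[X]) = algebraMap k K[X] z'.y := rfl
              rw [h3, aeval_algebraMap_apply]
              rfl
            rw [h2]
            have h4 := (hM.dvdy z' hz').trans (sub_dvd_eval_sub B (C (algebraMap k K z'.y))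
              (g.map (algebraMap k K[X])))
            rwa [eval_map_algebraMap, eval_map_algebraMap] at h4
          have h5 : A * aeval B g - C (algebraMap k K (z'.x * eval z'.y g)) =
              (A - C (algebraMap k K z'.x)) * aeval B g +
                C (algebraMap k K z'.x) * (aeval B g - C (algebraMap k K (eval z'.y g))) := by
            rw [map_mul, C_mul]
            ring
          rw [h5]
          exact dvd_add ((hM.dvdx z' hz').mul_right _) (h1.mul_left _)
      · rw [List.pairwise_append]
        refine ⟨?_, ?_, ?_⟩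
        · rw [List.pairwise_ofFn]
          intro i j hij
          exact cop_C (fun h => hij.ne (hα ((algebraMap k K).injective h))) B
        · rw [List.pairwise_map]
          exact hM.cop
        · intro z hz z' hz'
          obtain ⟨i, rfl⟩ := (List.mem_ofFn' _ _).1 hz
          obtain ⟨z0, hz0, rfl⟩ := List.mem_map.1 hz'
          simp only
          have h1 : algebraMap k K (α i) ≠ algebraMap k K z0.y := by
            intro h
            refine hαM i ?_
            rw [(algebraMap k K).injective h]
            exact List.mem_map.2 ⟨z0, hz0, rfl⟩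
          exact (cop_C h1 B).of_isCoprime_of_dvd_right (hM.dvdy z0 hz0)

end Pool.Agent.J4H37.WN
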