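import Pool.Agent.J4H37.WN.Deg2

set_option autoImplicit false

/-!
# A family of rational curves in a weighted plane
-/

namespace Pool.Agent.J4H37.WN

open Polynomial

/-- `P` has degree at most `a`, and the coefficient of degree `a` is `c`. -/
def Top {R : Type} [CommRing R] (P : R[X]) (a : ℕ) (c : R) : Prop :=
  P.natDegree ≤ a ∧ P.coeff a = c

section top

variable {R : Type} [CommRing R]

theorem Top.mul {P Q : R[X]} {a b : ℕ} {c d : R} (h : Top P a c) (h' : Top Q b d) :
    Top (P * Q) (a + b) (c * d) :=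
  ⟨natDegree_mul_le_of_le h.1 h'.1, by rw [coeff_mul_add_eq_of_natDegree_le h.1 h'.1, h.2, h'.2]⟩

theorem Top.pow {P : R[X]} {a : ℕ} {c : R} (h : Top P a c) (n : ℕ) :
    Top (P ^ n) (n * a) (c ^ n) :=
  ⟨natDegree_pow_le_of_le n h.1, by rw [coeff_pow_of_natDegree_le h.1, h.2]⟩

theorem Top.add {P Q : R[X]} {a : ℕ} {c d : R} (h : Top P a c) (h' : Top Q a d) :
    Top (P + Q) a (c + d) :=
  ⟨natDegree_add_le_of_degree_le h.1 h'.1, by rw [coeff_add, h.2, h'.2]⟩

theorem Top.sub {P Q : R[X]} {a : ℕ} {c d : R} (h : Top P a c) (h' : Top Q a d) :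
    Top (P - Q) a (c - d) :=
  ⟨natDegree_sub_le_of_le h.1 h'.1 |>.trans (by simp), by rw [coeff_sub, h.2, h'.2]⟩

theorem Top.c (c : R) : Top (C c) 0 c := ⟨by simp, by simp⟩

theorem Top.low {P : R[X]} {a b : ℕ} (h : P.natDegree ≤ a) (hab : a < b) : Top P b 0 :=
  ⟨h.trans hab.le, coeff_eq_zero_of_natDegree_lt (lt_of_le_of_lt h hab)⟩

theorem Top.prod {n : ℕ} {P : Fin n → R[X]} {a : ℕ} {c : Fin n → R}
    (h : ∀ i, Top (P i) a (c i)) : Top (∏ i, P i) (n * a) (∏ i, c i) := by
  induction n with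
  | zero => simpa using Top.c (1 : R)
  | succ n ih =>
    rw [Fin.prod_univ_succ, Fin.prod_univ_succ]
    have := (h 0).mul (ih fun i => h i.succ)
    convert this using 1
    ring

end top

variable {k K : Type} [Field k] [Field K] [Algebra k K]

theorem tr_ne {θ : K} (hθ : Transcendental k θ) {α β : k} (hβ : β ≠ 0) :
    algebraMap k K α + θ * algebraMap k K β ≠ 0 := by
  intro h0
  have hβ' : algebraMap k K β ≠ 0 := (_root_.map_ne_zero _).2 hβ
  have h1 : θ = algebraMap k K (-α / β) := by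
    rw [map_div₀, map_neg, eq_div_iff hβ']
    linear_combination h0
  exact hθ (h1 ▸ isAlgebraic_algebraMap _)

theorem cop_lin {f : K[X]} {b : K} (h : f.eval b ≠ 0) : IsCoprime f (X - C b) := by
  obtain ⟨g, hg⟩ := X_sub_C_dvd_sub_C_eval (p := f) (a := b)
  refine ⟨C (f.eval b)⁻¹, -(C (f.eval b)⁻¹ * g), ?_⟩
  have h1 : C (f.eval b)⁻¹ * C (f.eval b) = (1 : K[X]) := by
    rw [← C_mul, inv_mul_cancel₀ h, C_1]
  linear_combination C (f.eval b)⁻¹ * hg + h1

theorem cop_x {A E : K[X]} (h : IsCoprime A E) {x x' : K} (hx : x ≠ x') {D D' : K[X]}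
    (hD : D ∣ A - C x * E) (hD' : D' ∣ A - C x' * E) : IsCoprime D D' := by
  refine IsCoprime.of_isCoprime_of_dvd_left (IsCoprime.of_isCoprime_of_dvd_right ?_ hD') hD
  obtain ⟨a, b, hab⟩ := h
  have hd : x' - x ≠ 0 := sub_ne_zero.2 hx.symm
  have h1 : C (x' - x)⁻¹ * (C x' - C x) = (1 : K[X]) := by
    rw [← C_sub, ← C_mul, inv_mul_cancel₀ hd, C_1]
  refine ⟨C (x' - x)⁻¹ * (a * C x' + b), -(C (x' - x)⁻¹ * (a * C x + b)), ?_⟩
  linear_combination C (x' - x)⁻¹ * (C x' - C x) * hab + h1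

theorem cop_e {A E : K[X]} (h : IsCoprime A E) {x : K} {D : K[X]} (hD : D ∣ A - C x * E) :
    IsCoprime D E := by
  refine IsCoprime.of_isCoprime_of_dvd_left ?_ hD
  obtain ⟨a, b, hab⟩ := h
  exact ⟨a, a * C x + b, by linear_combination hab⟩

/-- The data: distinct nonzero numbers `a1 i`, `a2 i`, distinct numbers `u l`. -/
structure Par (k : Type) [Field k] (r j : ℕ) where
  a1 : Fin r → k
  a2 : Fin (j + 1) → k
  u : Fin j → k
  inj1 : Function.Injective a1
  inj2 : Function.Injective a2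
  inju : Function.Injective u
  ne12 : ∀ i i', a1 i ≠ a2 i'
  ne1 : ∀ i, a1 i ≠ 0
  ne2 : ∀ i, a2 i ≠ 0
  neu : ∀ l, u l ≠ 0
  nee : ∀ l, (∏ i, (u l - a2 i)) + 1 ≠ 0
  neu1 : ∀ l i, u l ≠ a1 i * ((∏ i, (u l - a2 i)) + 1)
  neu2 : ∀ l i, u l ≠ a2 i * ((∏ i, (u l - a2 i)) + 1)

variable {r j : ℕ} (T : Par k r j) (θ : K)

/-- The polynomials over a `k`-algebra `S` with the two elements `s`, `t`. -/
noncomputable def pi2 {S : Type} [CommRing S] [Algebra k S] (s : S) : S :=
  ∏ i, (s - algebraMap k S (T.a2 i))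

noncomputable def lam {S : Type} [CommRing S] [Algebra k S] (s : S) : S :=
  ∏ l, (s - algebraMap k S (T.u l))

noncomputable def ff {S : Type} [CommRing S] [Algebra k S] (s t : S) : S := 1 + t * lam T s

noncomputable def EE {S : Type} [CommRing S] [Algebra k S] (s t : S) : S := pi2 T s + ff T s t

noncomputable def AA {S : Type} [CommRing S] [Algebra k S] (s t : S) : S := s * ff T s t

noncomputable def DD {S : Type} [CommRing S] [Algebra k S] (s t : S) (a : k) : S :=
  AA T s t - algebraMap k S a * EE T s t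

noncomputable def DE {S : Type} [CommRing S] [Algebra k S] (s t : S) (i : Fin (j + 1)) : S :=
  ff T s t - algebraMap k S (T.a2 i) * ∏ i' ∈ Finset.univ.erase i, (s - algebraMap k S (T.a2 i'))

noncomputable def NN {S : Type} [CommRing S] [Algebra k S] (s t : S) : S :=
  ff T s t * (∏ i, DD T s t (T.a1 i)) * (∏ i, DE T s t i) + AA T s t ^ (r + j + 1)

section hom

variable {S S' : Type} [CommRing S] [Algebra k S] [CommRing S'] [Algebra k S'] (φ : S →ₐ[k] S')
  (s t : S)

theorem map_pi2 : φ (pi2 T s) = pi2 T (φ s) := by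
  simp [pi2, map_prod]

theorem map_lam : φ (lam T s) = lam T (φ s) := by
  simp [lam, map_prod]

theorem map_ff : φ (ff T s t) = ff T (φ s) (φ t) := by
  simp [ff, map_lam]

theorem map_EE : φ (EE T s t) = EE T (φ s) (φ t) := by
  simp [EE, map_pi2, map_ff]

theorem map_AA : φ (AA T s t) = AA T (φ s) (φ t) := by
  simp [AA, map_ff]

theorem map_DD (a : k) : φ (DD T s t a) = DD T (φ s) (φ t) a := by
  simp [DD, map_AA, map_EE]

theorem map_DE (i : Fin (j + 1)) : φ (DE T s t i) = DE T (φ s) (φ t) i := by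
  simp [DE, map_ff, map_prod]

theorem map_NN : φ (NN T s t) = NN T (φ s) (φ t) := by
  simp [NN, map_ff, map_DD, map_DE, map_AA, map_prod]

theorem DE_mul (i : Fin (j + 1)) :
    (s - algebraMap k S (T.a2 i)) * DE T s t i = DD T s t (T.a2 i) := by
  have h1 : (s - algebraMap k S (T.a2 i)) *
      ∏ i' ∈ Finset.univ.erase i, (s - algebraMap k S (T.a2 i')) = pi2 T s :=
    Finset.mul_prod_erase Finset.univ (fun i' => s - algebraMap k S (T.a2 i'))
      (Finset.mem_univ i)
  unfold DE DD AA EE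
  linear_combination (-algebraMap k S (T.a2 i)) * h1

end hom

end Pool.Agent.J4H37.WN
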