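import Pool.Agent.J4H37.WN.Fam

set_option autoImplicit false

/-!
# A family of rational curves in a weighted plane: degrees and coprimality
-/

namespace Pool.Agent.J4H37.WN

open Polynomial

variable {k K : Type} [Field k] [Field K] [Algebra k K] {r j : ℕ} (T : Par k r j)

theorem alg_C (a : k) : algebraMap k K[X] a = C (algebraMap k K a) := rfl

section deg

variable {θ : K} (hθ : Transcendental k θ)

theorem top_lin (a : K) : Top (X - C a : K[X]) 1 1 := by
  refine ⟨natDegree_X_sub_C_le a, ?_⟩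
  rw [coeff_sub, coeff_X_one, coeff_C_of_ne_zero one_ne_zero, sub_zero]

theorem top_pi2 : Top (pi2 T (X : K[X])) (j + 1) 1 := by
  have h := Top.prod (n := j + 1) (fun i => top_lin (algebraMap k K (T.a2 i)))
  rw [mul_one, Finset.prod_const_one] at h
  exact h

theorem top_lam : Top (lam T (X : K[X])) j 1 := by
  have h := Top.prod (n := j) (fun i => top_lin (algebraMap k K (T.u i)))
  rw [mul_one, Finset.prod_const_one] at h
  exact h

/-- The leading coefficient. -/
noncomputable def t0 (j : ℕ) (θ : K) : K := (if j = 0 then 1 else 0) + θ * 1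

theorem t0_eq (j : ℕ) (θ : K) : t0 j θ = algebraMap k K (if j = 0 then 1 else 0) +
    θ * algebraMap k K 1 := by
  unfold t0
  split_ifs <;> simp

include hθ in
theorem t0_ne (j : ℕ) (x : k) : t0 j θ - algebraMap k K x ≠ 0 := by
  rw [t0_eq (k := k)]
  have h := tr_ne hθ (α := (if j = 0 then 1 else 0) - x) (β := 1) one_ne_zero
  rw [map_sub] at h
  intro h0
  exact h (by linear_combination h0)

theorem top_ff : Top (ff T (X : K[X]) (C θ)) j (t0 j θ) := by
  unfold ff t0
  refine Top.add ⟨by simp, ?_⟩ ?_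
  · rw [coeff_one]
  · have := (Top.c θ).mul (top_lam (K := K) T)
    rw [zero_add] at this
    exact this

theorem top_EE : Top (EE T (X : K[X]) (C θ)) (j + 1) 1 := by
  unfold EE
  have := (top_pi2 (K := K) T).add ((top_ff (θ := θ) T).1.trans_lt (Nat.lt_succ_self j) |> fun h =>
    (⟨h.le, coeff_eq_zero_of_natDegree_lt h⟩ : Top (ff T (X : K[X]) (C θ)) (j + 1) 0))
  rwa [add_zero] at this

theorem top_AA : Top (AA T (X : K[X]) (C θ)) (j + 1) (t0 j θ) := by
  unfold AA
  have := Top.mul (⟨natDegree_X_le, coeff_X_one⟩ : Top (X : K[X]) 1 1) (top_ff (θ := θ) T)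
  rwa [one_mul, add_comm] at this

theorem top_DD (a : k) : Top (DD T (X : K[X]) (C θ) a) (j + 1) (t0 j θ - algebraMap k K a) := by
  unfold DD
  have := (Top.c (algebraMap k K a)).mul (top_EE (θ := θ) T)
  rw [zero_add, mul_one] at this
  exact (top_AA T).sub this

include hθ in
theorem deg_DD (a : k) : (DD T (X : K[X]) (C θ) a).natDegree = j + 1 := by
  refine le_antisymm (top_DD T a).1 (le_natDegree_of_ne_zero ?_)
  rw [(top_DD T a).2]
  exact t0_ne hθ j a

include hθ in
theorem DD_ne (a : k) : DD T (X : K[X]) (C θ) a ≠ 0 := by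
  intro h
  have := deg_DD T hθ a
  rw [h, natDegree_zero] at this
  omega

include hθ in
theorem deg_ff : (ff T (X : K[X]) (C θ)).natDegree = j := by
  refine le_antisymm (top_ff T).1 (le_natDegree_of_ne_zero ?_)
  rw [(top_ff T).2]
  have := t0_ne (k := k) hθ j 0
  rwa [map_zero, sub_zero] at this

theorem eval_lam (b : k) : (lam T (X : K[X])).eval (algebraMap k K b) =
    algebraMap k K (∏ l, (b - T.u l)) := by
  simp [lam, eval_prod, alg_C]

theorem eval_pi2 (b : k) : (pi2 T (X : K[X])).eval (algebraMap k K b) =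
    algebraMap k K (∏ l, (b - T.a2 l)) := by
  simp [pi2, eval_prod, alg_C]

theorem eval_ff (b : k) : (ff T (X : K[X]) (C θ)).eval (algebraMap k K b) =
    1 + θ * algebraMap k K (∏ l, (b - T.u l)) := by
  simp only [ff, eval_add, eval_one, eval_mul, eval_C, eval_lam]

include hθ in
theorem eval_ff_ne (b : k) : (ff T (X : K[X]) (C θ)).eval (algebraMap k K b) ≠ 0 := by
  rw [eval_ff]
  by_cases h : ∏ l, (b - T.u l) = 0
  · rw [h]
    simp
  · have := tr_ne hθ (α := 1) h
    rwa [map_one] at this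

include hθ in
theorem ff_ne : ff T (X : K[X]) (C θ) ≠ 0 := by
  intro h
  have := eval_ff_ne T hθ 0
  rw [h, eval_zero] at this
  exact this rfl

include hθ in
theorem cop_ff_pi2 : IsCoprime (ff T (X : K[X]) (C θ)) (pi2 T (X : K[X])) := by
  unfold pi2
  exact IsCoprime.prod_right fun i _ => cop_lin (eval_ff_ne T hθ _)

include hθ in
theorem cop_ff_EE : IsCoprime (ff T (X : K[X]) (C θ)) (EE T (X : K[X]) (C θ)) := by
  have := (cop_ff_pi2 T hθ).add_mul_left_right 1
  rwa [mul_one] at this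

include hθ in
theorem cop_EE_pi2 : IsCoprime (EE T (X : K[X]) (C θ)) (pi2 T (X : K[X])) := by
  have := (cop_ff_pi2 T hθ).add_mul_left_left 1
  rw [mul_one, add_comm] at this
  exact this

include hθ in
theorem cop_AA_EE : IsCoprime (AA T (X : K[X]) (C θ)) (EE T (X : K[X]) (C θ)) := by
  unfold AA
  refine IsCoprime.mul_left ?_ (cop_ff_EE T hθ)
  have h1 : (EE T (X : K[X]) (C θ)).eval (algebraMap k K 0) ≠ 0 := by
    unfold EE
    rw [eval_add, eval_pi2, eval_ff]
    have hu : ∏ l, (0 - T.u l) ≠ 0 := Finset.prod_ne_zero_iff.2 fun l _ => by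
      rw [zero_sub]
      exact neg_ne_zero.2 (T.neu l)
    have := tr_ne hθ (α := (∏ l, (0 - T.a2 l)) + 1) hu
    rw [map_add, map_one] at this
    intro h0
    exact this (by linear_combination h0)
  have h2 := cop_lin h1
  rw [map_zero, C_0, sub_zero] at h2
  exact h2.symm

theorem DE_dvd (i : Fin (j + 1)) : DE T (X : K[X]) (C θ) i ∣ DD T (X : K[X]) (C θ) (T.a2 i) :=
  ⟨X - C (algebraMap k K (T.a2 i)), by
    rw [← DE_mul T (X : K[X]) (C θ) i, mul_comm]
    rfl⟩

include hθ in
theorem DE_ne (i : Fin (j + 1)) : DE T (X : K[X]) (C θ) i ≠ 0 := by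
  intro h
  have h1 := DE_mul T (X : K[X]) (C θ) i
  rw [h, mul_zero] at h1
  exact DD_ne T hθ (T.a2 i) h1.symm

include hθ in
theorem deg_DE (i : Fin (j + 1)) : (DE T (X : K[X]) (C θ) i).natDegree = j := by
  have h1 := DE_mul T (X : K[X]) (C θ) i
  have h2 := congrArg natDegree h1
  rw [deg_DD T hθ, alg_C, natDegree_mul (X_sub_C_ne_zero _) (DE_ne T hθ i),
    natDegree_X_sub_C] at h2
  omega

include hθ in
theorem EE_dvd : EE T (X : K[X]) (C θ) ∣ NN T (X : K[X]) (C θ) := by
  refine (cop_EE_pi2 T hθ).dvd_of_dvd_mul_left ?_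
  have h1 : pi2 T (X : K[X]) * NN T (X : K[X]) (C θ) =
      ff T (X : K[X]) (C θ) * (∏ i, DD T (X : K[X]) (C θ) (T.a1 i)) *
        (∏ i, DD T (X : K[X]) (C θ) (T.a2 i)) +
      pi2 T (X : K[X]) * AA T (X : K[X]) (C θ) ^ (r + j + 1) := by
    have h2 : ∏ i, DD T (X : K[X]) (C θ) (T.a2 i) =
        pi2 T (X : K[X]) * ∏ i, DE T (X : K[X]) (C θ) i := by
      unfold pi2
      rw [← Finset.prod_mul_distrib]
      exact Finset.prod_congr rfl fun i _ => (DE_mul T (X : K[X]) (C θ) i).symm
    rw [h2]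
    unfold NN
    ring
  rw [h1, ← Ideal.mem_span_singleton, ← Ideal.Quotient.eq_zero_iff_mem]
  obtain ⟨φ, hφ⟩ : ∃ φ, φ = Ideal.Quotient.mk (Ideal.span {EE T (X : K[X]) (C θ)}) := ⟨_, rfl⟩
  rw [← hφ]
  have hE : φ (EE T (X : K[X]) (C θ)) = 0 := by
    rw [hφ, Ideal.Quotient.eq_zero_iff_mem]
    exact Ideal.mem_span_singleton_self _
  have hD : ∀ a, φ (DD T (X : K[X]) (C θ) a) = φ (AA T (X : K[X]) (C θ)) := by
    intro a
    unfold DD
    rw [map_sub, map_mul, hE, mul_zero, sub_zero]
  rw [map_add, map_mul, map_mul, map_prod, map_prod, map_mul, map_pow]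
  simp only [hD, Finset.prod_const, Finset.card_univ, Fintype.card_fin]
  have h3 : φ (pi2 T (X : K[X])) + φ (ff T (X : K[X]) (C θ)) = 0 := by
    rw [← map_add]
    exact hE
  have h4 : r + j + 1 = r + (j + 1) := by ring
  rw [h4, pow_add]
  linear_combination (φ (AA T (X : K[X]) (C θ)) ^ r * φ (AA T (X : K[X]) (C θ)) ^ (j + 1)) * h3

theorem deg_NN : (NN T (X : K[X]) (C θ)).natDegree ≤ (j + 1) * (r + j + 1) := by
  unfold NN
  refine natDegree_add_le_of_degree_le ?_ ?_
  · have hDE : ∀ i, (DE T (X : K[X]) (C θ) i).natDegree ≤ j := by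
      intro i
      unfold DE
      have h1 : (∏ i' ∈ Finset.univ.erase i, ((X : K[X]) - algebraMap k K[X] (T.a2 i'))).natDegree
          ≤ j := by
        refine (natDegree_prod_le _ _).trans ?_
        refine (Finset.sum_le_card_nsmul _ _ 1 fun i' _ => natDegree_X_sub_C_le _).trans ?_
        rw [Finset.card_erase_of_mem (Finset.mem_univ i), Finset.card_univ, Fintype.card_fin]
        simp
      have h3 : (algebraMap k K[X] (T.a2 i) *
          ∏ i' ∈ Finset.univ.erase i, ((X : K[X]) - algebraMap k K[X] (T.a2 i'))).natDegree ≤ j := by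
        rw [alg_C]
        exact (natDegree_C_mul_le _ _).trans h1
      exact (natDegree_sub_le_of_le (top_ff (θ := θ) T).1 h3).trans (by simp)
    have h1 := (Top.prod (n := r) (fun i => top_DD (θ := θ) T (T.a1 i))).1
    have h2 := (Top.prod (n := j + 1) (fun i => (⟨hDE i, rfl⟩ : Top (DE T (X : K[X]) (C θ) i) j
      ((DE T (X : K[X]) (C θ) i).coeff j)))).1
    refine (natDegree_mul_le_of_le (natDegree_mul_le_of_le (top_ff (θ := θ) T).1 h1) h2).trans ?_
    nlinarith
  · have h1 := ((top_AA (θ := θ) T).pow (r + j + 1)).1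
    rw [mul_comm (j + 1)]
    exact h1

end deg

end Pool.Agent.J4H37.WN
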