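import Pool.Agent.J4H37.WN.Fam2

set_option autoImplicit false

/-!
# A family of rational curves in a weighted plane: they sweep the plane
-/

namespace Pool.Agent.J4H37.WN

open Polynomial

variable {k K : Type} [Field k] [Field K] [Algebra k K] {r j : ℕ} (T : Par k r j)

/-- Leading coefficients in the parameter. -/
noncomputable def ln : k[X] :=
  lam T (X : k[X]) * (∏ i, (X - C (T.a1 i)) * lam T (X : k[X])) * (∏ _i : Fin (j + 1), lam T (X : k[X]))

theorem lam_ne : lam T (X : k[X]) ≠ 0 :=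
  Finset.prod_ne_zero_iff.2 fun l _ => X_sub_C_ne_zero _

theorem ln_ne : ln T ≠ 0 := by
  unfold ln
  refine mul_ne_zero (mul_ne_zero (lam_ne T) (Finset.prod_ne_zero_iff.2 fun i _ => ?_))
    (Finset.prod_ne_zero_iff.2 fun i _ => lam_ne T)
  exact mul_ne_zero (X_sub_C_ne_zero _) (lam_ne T)

theorem lam_CX : lam T (C X : k[X][X]) = C (lam T (X : k[X])) := by
  simp [lam, map_prod]

theorem tf : Top (ff T (C X : k[X][X]) X) 1 (lam T (X : k[X])) := by
  unfold ff
  have h1 := Top.mul (⟨natDegree_X_le, coeff_X_one⟩ : Top (X : k[X][X]) 1 1)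
    (Top.c (lam T (X : k[X])))
  rw [one_mul, add_zero, ← lam_CX] at h1
  have h2 : Top (1 : k[X][X]) 1 0 := Top.low (a := 0) (by simp) one_pos
  have := h2.add h1
  rwa [zero_add] at this

theorem tE : Top (EE T (C X : k[X][X]) X) 1 (lam T (X : k[X])) := by
  unfold EE
  have h1 : pi2 T (C X : k[X][X]) = C (pi2 T (X : k[X])) := by
    simp [pi2, map_prod]
  have h2 : Top (pi2 T (C X : k[X][X])) 1 0 := by
    rw [h1]
    exact Top.low (a := 0) (by simp) one_pos
  have := h2.add (tf T)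
  rwa [zero_add] at this

theorem tA : Top (AA T (C X : k[X][X]) X) 1 (X * lam T (X : k[X])) := by
  unfold AA
  have := (Top.c (X : k[X])).mul (tf T)
  rwa [zero_add] at this

theorem tD (a : k) : Top (DD T (C X : k[X][X]) X a) 1 ((X - C a) * lam T (X : k[X])) := by
  unfold DD
  have h1 : (algebraMap k k[X][X] a) = C (C a) := rfl
  have h2 := (Top.c (C a : k[X])).mul (tE T)
  rw [zero_add] at h2
  have := (tA T).sub h2
  rw [h1, sub_mul]
  exact this

theorem tDE (i : Fin (j + 1)) : Top (DE T (C X : k[X][X]) X i) 1 (lam T (X : k[X])) := by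
  unfold DE
  have h1 : algebraMap k k[X][X] (T.a2 i) *
      ∏ i' ∈ Finset.univ.erase i, ((C X : k[X][X]) - algebraMap k k[X][X] (T.a2 i')) =
      C (C (T.a2 i) * ∏ i' ∈ Finset.univ.erase i, ((X : k[X]) - C (T.a2 i'))) := by
    simp [map_prod]
  rw [h1]
  have h2 : Top (C (C (T.a2 i) * ∏ i' ∈ Finset.univ.erase i, ((X : k[X]) - C (T.a2 i'))) :
    k[X][X]) 1 0 := Top.low (a := 0) (natDegree_C _).le one_pos
  have := (tf T).sub h2
  rwa [sub_zero] at this

theorem tN : Top (NN T (C X : k[X][X]) X) (r + j + 2) (ln T) := by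
  unfold NN ln
  have h1 := Top.prod (n := r) (fun i => tD T (T.a1 i))
  have h2 := Top.prod (n := j + 1) (fun i => tDE T i)
  have h3 := ((tf T).mul h1).mul h2
  have h4 := ((tA T).pow (r + j + 1)).1
  have h5 : Top (AA T (C X : k[X][X]) X ^ (r + j + 1)) (r + j + 2) 0 :=
    Top.low h4 (by omega)
  have h6 : 1 + r * 1 + (j + 1) * 1 = r + j + 2 := by ring
  rw [h6] at h3
  have := h3.add h5
  rwa [add_zero] at this

theorem nz_fam {θ : K} (hθ : Transcendental k θ) {B : K[X]}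
    (hB : NN T (X : K[X]) (C θ) = EE T (X : K[X]) (C θ) * B) (V : ℕ) (c : ℕ → ℕ → k)
    (S : Finset (ℕ × ℕ)) (hS : ∀ s ∈ S, 1 * s.1 + (r + j) * s.2 ≤ V)
    (hc : ∃ s ∈ S, c s.1 s.2 ≠ 0) :
    ∑ s ∈ S, C (algebraMap k K (c s.1 s.2)) * EE T (X : K[X]) (C θ) ^
      (V - (1 * s.1 + (r + j) * s.2)) * AA T (X : K[X]) (C θ) ^ s.1 * B ^ s.2 ≠ 0 := by
  classical
  intro h0
  obtain ⟨J', hJ'⟩ : ∃ J', ∀ s ∈ S, s.2 ≤ J' := ⟨S.sup Prod.snd, fun s hs => Finset.le_sup hs⟩
  obtain ⟨s0, hs0, hmax⟩ := Finset.exists_max_image (S.filter fun s => c s.1 s.2 ≠ 0) Prod.snd (by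
    obtain ⟨s, hs, h⟩ := hc
    exact ⟨s, Finset.mem_filter.2 ⟨hs, h⟩⟩)
  rw [Finset.mem_filter] at hs0
  obtain ⟨Ψ, hΨ⟩ : ∃ Ψ : k[X][X] →ₐ[k] K[X], Ψ = aevalAeval X (C θ) := ⟨_, rfl⟩
  have hΨX : Ψ (C X) = X := by
    rw [hΨ]
    simp
  have hΨY : Ψ X = C θ := by
    rw [hΨ]
    simp
  obtain ⟨T0, hT0⟩ : ∃ T0 : k[X][X], T0 = ∑ s ∈ S, C (C (c s.1 s.2)) *
      EE T (C X : k[X][X]) X ^ ((V - (1 * s.1 + (r + j) * s.2)) + (J' - s.2)) *
      AA T (C X : k[X][X]) X ^ s.1 * NN T (C X : k[X][X]) X ^ s.2 := ⟨_, rfl⟩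
  have h1 : Ψ T0 = 0 := by
    have h2 : Ψ T0 = EE T (X : K[X]) (C θ) ^ J' * ∑ s ∈ S, C (algebraMap k K (c s.1 s.2)) *
        EE T (X : K[X]) (C θ) ^ (V - (1 * s.1 + (r + j) * s.2)) *
        AA T (X : K[X]) (C θ) ^ s.1 * B ^ s.2 := by
      rw [hT0, map_sum, Finset.mul_sum]
      refine Finset.sum_congr rfl fun s hs => ?_
      have h3 : Ψ (C (C (c s.1 s.2))) = C (algebraMap k K (c s.1 s.2)) := by
        have : (C (C (c s.1 s.2)) : k[X][X]) = algebraMap k k[X][X] (c s.1 s.2) := rfl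
        rw [this, AlgHom.commutes]
        rfl
      have h4 : EE T (X : K[X]) (C θ) ^ J' = EE T (X : K[X]) (C θ) ^ (J' - s.2) *
          EE T (X : K[X]) (C θ) ^ s.2 := by
        rw [← pow_add, Nat.sub_add_cancel (hJ' s hs)]
      rw [map_mul, map_mul, map_mul, map_pow, map_pow, map_pow, map_EE, map_AA, map_NN, hΨX, hΨY,
        h3, hB, h4, pow_add, mul_pow]
      ring
    rw [h2, h0, mul_zero]
  have h2 : T0 = 0 := by
    by_contra hne
    refine nz_swap (nz_base hθ) T0 hne ?_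
    rw [eval₂_eq_aevalAeval, ← hΨ]
    exact h1
  obtain ⟨W, hW⟩ : ∃ W, W = V + J' + s0.2 := ⟨_, rfl⟩
  have h3 := congrArg (fun f => f.coeff W) h2
  simp only [hT0, finsetSum_coeff, coeff_zero] at h3
  have h4 : ∀ s ∈ S, (C (C (c s.1 s.2)) *
      EE T (C X : k[X][X]) X ^ ((V - (1 * s.1 + (r + j) * s.2)) + (J' - s.2)) *
      AA T (C X : k[X][X]) X ^ s.1 * NN T (C X : k[X][X]) X ^ s.2).coeff W =
      lam T (X : k[X]) ^ (V + J' - (r + j + 1) * s0.2) * ln T ^ s0.2 *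
        (if s.2 = s0.2 then C (c s.1 s0.2) * X ^ s.1 else 0) := by
    intro s hs
    have hsV := hS s hs
    have hsJ := hJ' s hs
    obtain ⟨n, hn⟩ : ∃ n, n = (V - (1 * s.1 + (r + j) * s.2)) + (J' - s.2) := ⟨_, rfl⟩
    rw [← hn]
    have h5 := (((Top.c (C (c s.1 s.2) : k[X])).mul ((tE T).pow n)).mul ((tA T).pow s.1)).mul
      ((tN T).pow s.2)
    have h6 : 0 + n * 1 + s.1 * 1 + s.2 * (r + j + 2) = V + J' + s.2 := by
      have e1 : s.2 * (r + j + 2) = (r + j) * s.2 + 2 * s.2 := by ring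
      rw [e1]
      omega
    rw [h6] at h5
    rcases lt_trichotomy s.2 s0.2 with h | h | h
    · rw [if_neg h.ne, mul_zero]
      exact coeff_eq_zero_of_natDegree_lt (lt_of_le_of_lt h5.1 (by omega))
    · rw [if_pos h, hW, ← h, h5.2]
      have h7 : V + J' - (r + j + 1) * s.2 = n + s.1 := by
        have e1 : (r + j + 1) * s.2 = (r + j) * s.2 + s.2 := by ring
        rw [e1]
        omega
      rw [h7, pow_add, mul_pow]
      ring
    · have hc0 : c s.1 s.2 = 0 := by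
        by_contra hne
        have := hmax s (Finset.mem_filter.2 ⟨hs, hne⟩)
        omega
      rw [hc0, if_neg h.ne']
      simp
  rw [Finset.sum_congr rfl h4, ← Finset.mul_sum] at h3
  have h5 : ∑ s ∈ S, (if s.2 = s0.2 then C (c s.1 s0.2) * (X : k[X]) ^ s.1 else 0) ≠ 0 := by
    intro h
    have h6 := congrArg (fun f => f.coeff s0.1) h
    simp only [finsetSum_coeff, coeff_zero] at h6
    rw [Finset.sum_eq_single s0] at h6
    · rw [if_pos rfl, coeff_C_mul, coeff_X_pow, if_pos rfl, mul_one] at h6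
      exact hs0.2 h6
    · intro s _ hs
      split_ifs with h7
      · rw [coeff_C_mul, coeff_X_pow, if_neg, mul_zero]
        intro h8
        exact hs (Prod.ext h8.symm h7)
      · simp
    · intro h
      exact absurd hs0.1 h
  rcases mul_eq_zero.1 h3 with h6 | h6
  · rcases mul_eq_zero.1 h6 with h7 | h7
    · exact pow_ne_zero _ (lam_ne T) h7
    · exact pow_ne_zero _ (ln_ne T) h7
  · exact h5 h6

end Pool.Agent.J4H37.WN
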