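import Pool.Agent.J4H37.WN.Fam3

set_option autoImplicit false

/-!
# A family of rational curves in a weighted plane: the points
-/

namespace Pool.Agent.J4H37.WN

open Polynomial

theorem exists_par (k : Type) [Field k] [Infinite k] (r j : ℕ) : Nonempty (Par k r j) := by
  classical
  obtain ⟨α, hα, hα0⟩ := exists_avoid [(0 : k)] (r + (j + 1))
  have h0 : ∀ i, α i ≠ 0 := fun i h => hα0 i (by simp [h])
  obtain ⟨a1, ha1⟩ : ∃ a1 : Fin r → k, a1 = fun i => α (Fin.castAdd (j + 1) i) := ⟨_, rfl⟩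
  obtain ⟨a2, ha2⟩ : ∃ a2 : Fin (j + 1) → k, a2 = fun i => α (Fin.natAdd r i) := ⟨_, rfl⟩
  have inj1 : Function.Injective a1 := by
    rw [ha1]
    exact hα.comp (Fin.castAdd_injective _ _)
  have inj2 : Function.Injective a2 := by
    rw [ha2]
    exact hα.comp (Fin.natAdd_injective _ _)
  have ne12 : ∀ i i', a1 i ≠ a2 i' := by
    intro i i' h
    rw [ha1, ha2] at h
    have h1 := congrArg Fin.val (hα h)
    rw [Fin.val_castAdd, Fin.val_natAdd] at h1
    have := i.2
    omega
  have ne1 : ∀ i, a1 i ≠ 0 := fun i => by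
    rw [ha1]
    exact h0 _
  have ne2 : ∀ i, a2 i ≠ 0 := fun i => by
    rw [ha2]
    exact h0 _
  rcases Nat.eq_zero_or_pos j with rfl | hj
  · exact ⟨⟨a1, a2, Fin.elim0, inj1, inj2, fun i => i.elim0, ne12, ne1, ne2, fun l => l.elim0,
      fun l => l.elim0, fun l => l.elim0, fun l => l.elim0⟩⟩
  · obtain ⟨Q, hQ⟩ : ∃ Q : k[X], Q = (∏ i, (X - C (a2 i))) + 1 := ⟨_, rfl⟩
    have hQd : Top Q (j + 1) 1 := by
      have h1 := Top.prod (n := j + 1) (fun i => top_lin (a2 i))
      rw [mul_one, Finset.prod_const_one] at h1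
      have h2 : Top (1 : k[X]) (j + 1) 0 := Top.low (a := 0) (by simp) (by omega)
      have := h1.add h2
      rw [add_zero] at this
      rw [hQ]
      exact this
    have hQ0 : Q ≠ 0 := by
      intro h
      have := hQd.2
      rw [h, coeff_zero] at this
      exact one_ne_zero this.symm
    have hR0 : ∀ a : k, a ≠ 0 → X - C a * Q ≠ 0 := by
      intro a ha h
      have h1 := (Top.c a).mul hQd
      rw [zero_add, mul_one] at h1
      have h2 : Top (X : k[X]) (j + 1) 0 := Top.low (a := 1) natDegree_X_le (by omega)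
      have h3 := (h2.sub h1).2
      rw [h, coeff_zero, zero_sub] at h3
      exact ha (neg_eq_zero.1 h3.symm)
    obtain ⟨R, hR⟩ : ∃ R : k[X], R = X * Q * (∏ i, (X - C (a1 i) * Q)) *
      (∏ i, (X - C (a2 i) * Q)) := ⟨_, rfl⟩
    have hRne : R ≠ 0 := by
      rw [hR]
      exact mul_ne_zero (mul_ne_zero (mul_ne_zero X_ne_zero hQ0)
        (Finset.prod_ne_zero_iff.2 fun i _ => hR0 _ (ne1 i)))
        (Finset.prod_ne_zero_iff.2 fun i _ => hR0 _ (ne2 i))
    obtain ⟨u, hu, huR⟩ := exists_avoid R.roots.toList j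
    have hev : ∀ l, R.eval (u l) ≠ 0 := by
      intro l h
      refine huR l ?_
      rw [Multiset.mem_toList, mem_roots hRne]
      exact h
    have hQe : ∀ b : k, Q.eval b = (∏ i, (b - a2 i)) + 1 := by
      intro b
      simp [hQ, eval_prod]
    have hRe : ∀ b : k, R.eval b = b * Q.eval b * (∏ i, (b - a1 i * Q.eval b)) *
        (∏ i, (b - a2 i * Q.eval b)) := by
      intro b
      simp [hR, eval_prod]
    refine ⟨⟨a1, a2, u, inj1, inj2, hu, ne12, ne1, ne2, ?_, ?_, ?_, ?_⟩⟩
    · intro l h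
      have := hev l
      rw [hRe, h] at this
      simp at this
    · intro l h
      have := hev l
      rw [hRe, hQe, h] at this
      simp at this
    · intro l i h
      have := hev l
      rw [hRe] at this
      refine this ?_
      rw [Finset.prod_eq_zero (Finset.mem_univ i) (by rw [hQe, sub_eq_zero]; exact h)]
      simp
    · intro l i h
      have := hev l
      rw [hRe] at this
      refine this ?_
      rw [Finset.prod_eq_zero (f := fun i => u l - a2 i * Q.eval (u l)) (Finset.mem_univ i)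
        (by rw [hQe, sub_eq_zero]; exact h)]
      simp

variable {k K : Type} [Field k] [Field K] [Algebra k K] {r j : ℕ} (T : Par k r j)

theorem NN_of_lam {S : Type} [CommRing S] [Algebra k S] {s : S} (h : lam T s = 0) (t : S) :
    NN T s t = NN T s 0 := by
  have h1 : ff T s t = ff T s 0 := by
    unfold ff
    rw [h, mul_zero, mul_zero]
  unfold NN DD DE AA EE
  rw [h1]

theorem EE_of_lam {S : Type} [CommRing S] [Algebra k S] {s : S} (h : lam T s = 0) (t : S) :
    EE T s t = EE T s 0 := by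
  have h1 : ff T s t = ff T s 0 := by
    unfold ff
    rw [h, mul_zero, mul_zero]
  unfold EE
  rw [h1]

theorem lam_u (l : Fin j) : lam T (algebraMap k K (T.u l)) = 0 := by
  unfold lam
  exact Finset.prod_eq_zero (Finset.mem_univ l) (sub_self _)

theorem EE_k (l : Fin j) : EE T (T.u l) 0 = (∏ i, (T.u l - T.a2 i)) + 1 := by
  unfold EE ff pi2
  simp

theorem eval_EE_u {θ : K} (l : Fin j) : (EE T (X : K[X]) (C θ)).eval (algebraMap k K (T.u l)) =
    algebraMap k K (EE T (T.u l) 0) := by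
  have h1 := map_EE T ((aeval (algebraMap k K (T.u l)) : K[X] →ₐ[K] K).restrictScalars k)
    (X : K[X]) (C θ)
  have h2 := map_EE T (Algebra.ofId k K) (T.u l) 0
  simp only [AlgHom.restrictScalars_apply, aeval_X, aeval_C, Algebra.algebraMap_self,
    RingHom.id_apply, coe_aeval_eq_eval] at h1
  rw [h1, EE_of_lam T (lam_u T l)]
  rw [map_zero] at h2
  exact h2.symm

theorem eval_NN_u {θ : K} (l : Fin j) : (NN T (X : K[X]) (C θ)).eval (algebraMap k K (T.u l)) =
    algebraMap k K (NN T (T.u l) 0) := by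
  have h1 := map_NN T ((aeval (algebraMap k K (T.u l)) : K[X] →ₐ[K] K).restrictScalars k)
    (X : K[X]) (C θ)
  have h2 := map_NN T (Algebra.ofId k K) (T.u l) 0
  simp only [AlgHom.restrictScalars_apply, aeval_X, aeval_C, Algebra.algebraMap_self,
    RingHom.id_apply, coe_aeval_eq_eval] at h1
  rw [h1, NN_of_lam T (lam_u T l)]
  rw [map_zero] at h2
  exact h2.symm

theorem dvd_y {A E B N D : K[X]} {x : K} {n : ℕ} (hB : N = E * B) (hDE : IsCoprime D E)
    (hx : D ∣ A - C x * E) (hN : D ∣ N - A ^ (n + 1)) : D ∣ B - C (x ^ (n + 1)) * E ^ n := by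
  refine hDE.dvd_of_dvd_mul_left ?_
  have h1 : E * (B - C (x ^ (n + 1)) * E ^ n) =
      (N - A ^ (n + 1)) + (A ^ (n + 1) - (C x * E) ^ (n + 1)) := by
    rw [hB, C_pow]
    ring
  rw [h1]
  exact dvd_add hN (hx.trans (sub_dvd_pow_sub_pow _ _ _))

/-- The weights. -/
def wts (r j : ℕ) : List ℕ :=
  List.replicate r (j + 1) ++ (List.replicate (j + 2) j ++ List.replicate j 1)

theorem exists_fam [Infinite k] {θ : K} (hθ : Transcendental k θ) (r j : ℕ) :
    ∃ (E A B : K[X]) (M : List (Datum k K)), Sweep2 1 (r + j) (j + 1) E A B M ∧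
      M.map Datum.wt = wts r j := by
  classical
  obtain ⟨T⟩ := exists_par k r j
  obtain ⟨B, hB⟩ := EE_dvd T hθ
  obtain ⟨E, hE⟩ : ∃ E, E = EE T (X : K[X]) (C θ) := ⟨_, rfl⟩
  obtain ⟨A, hA⟩ : ∃ A, A = AA T (X : K[X]) (C θ) := ⟨_, rfl⟩
  obtain ⟨N, hN⟩ : ∃ N, N = NN T (X : K[X]) (C θ) := ⟨_, rfl⟩
  obtain ⟨f, hf⟩ : ∃ f, f = ff T (X : K[X]) (C θ) := ⟨_, rfl⟩
  have hAE : IsCoprime A E := by
    rw [hA, hE]
    exact cop_AA_EE T hθ
  rw [← hE, ← hN] at hB
  have hNA : N - A ^ (r + j + 1) =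
      f * (∏ i, DD T (X : K[X]) (C θ) (T.a1 i)) * (∏ i, DE T (X : K[X]) (C θ) i) := by
    rw [hN, hA, hf]
    unfold NN
    ring
  -- the four kinds of points
  have x1 : ∀ i, DD T (X : K[X]) (C θ) (T.a1 i) ∣ A - C (algebraMap k K (T.a1 i)) * E := by
    intro i
    rw [hA, hE]
    exact dvd_rfl
  have x2 : ∀ i, DE T (X : K[X]) (C θ) i ∣ A - C (algebraMap k K (T.a2 i)) * E := by
    intro i
    rw [hA, hE]
    exact DE_dvd T i
  have x3 : f ∣ A - C (algebraMap k K 0) * E := by
    rw [map_zero, C_0, zero_mul, sub_zero, hA, hf]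
    exact dvd_mul_left _ _
  have he0 : ∀ l, EE T (T.u l) 0 ≠ 0 := fun l => by
    rw [EE_k]
    exact T.nee l
  have hEu : ∀ l, E.eval (algebraMap k K (T.u l)) = algebraMap k K (EE T (T.u l) 0) := by
    intro l
    rw [hE]
    exact eval_EE_u T l
  have hNu : ∀ l, N.eval (algebraMap k K (T.u l)) = algebraMap k K (NN T (T.u l) 0) := by
    intro l
    rw [hN]
    exact eval_NN_u T l
  have hAu : ∀ l, A.eval (algebraMap k K (T.u l)) = algebraMap k K (T.u l) := by
    intro l
    rw [hA]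
    unfold AA
    rw [eval_mul, eval_X, eval_ff,
      Finset.prod_eq_zero (Finset.mem_univ l) (sub_self _), map_zero, mul_zero, add_zero, mul_one]
  obtain ⟨x, hx⟩ : ∃ x : Fin j → k, x = fun l => T.u l / EE T (T.u l) 0 := ⟨_, rfl⟩
  obtain ⟨y, hy⟩ : ∃ y : Fin j → k, y = fun l => NN T (T.u l) 0 / EE T (T.u l) 0 ^ (r + j + 1) :=
    ⟨_, rfl⟩
  have heK : ∀ l, algebraMap k K (EE T (T.u l) 0) ≠ 0 := fun l => (_root_.map_ne_zero _).2 (he0 l)
  have x4 : ∀ l, X - C (algebraMap k K (T.u l)) ∣ A - C (algebraMap k K (x l)) * E := by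
    intro l
    rw [dvd_iff_isRoot, IsRoot, eval_sub, eval_mul, eval_C, hAu, hEu, hx]
    simp only
    rw [map_div₀, div_mul_cancel₀ _ (heK l), sub_self]
  have y4 : ∀ l, X - C (algebraMap k K (T.u l)) ∣
      B - C (algebraMap k K (y l)) * E ^ (r + j) := by
    intro l
    have h1 : B.eval (algebraMap k K (T.u l)) =
        algebraMap k K (NN T (T.u l) 0) / algebraMap k K (EE T (T.u l) 0) := by
      rw [eq_div_iff (heK l), ← hEu, ← hNu, hB, eval_mul, mul_comm]
    rw [dvd_iff_isRoot, IsRoot, eval_sub, eval_mul, eval_C, eval_pow, h1, hEu, hy]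
    simp only
    rw [map_div₀, map_pow, pow_succ]
    have := heK l
    field_simp
    ring
  have xne1 : ∀ l i, x l ≠ T.a1 i := by
    intro l i h
    refine T.neu1 l i ?_
    rw [← EE_k, ← h, hx]
    simp only
    rw [div_mul_cancel₀ _ (he0 l)]
  have xne2 : ∀ l i, x l ≠ T.a2 i := by
    intro l i h
    refine T.neu2 l i ?_
    rw [← EE_k, ← h, hx]
    simp only
    rw [div_mul_cancel₀ _ (he0 l)]
  have xne0 : ∀ l, x l ≠ 0 := by
    intro l h
    rw [hx] at h
    exact div_ne_zero (T.neu l) (he0 l) h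
  have inj := (algebraMap k K).injective
  refine ⟨E, A, B,
    (List.ofFn fun i : Fin r => (⟨j + 1, T.a1 i, T.a1 i ^ (r + j + 1),
      DD T (X : K[X]) (C θ) (T.a1 i)⟩ : Datum k K)) ++
    ((List.ofFn fun i : Fin (j + 1) => (⟨j, T.a2 i, T.a2 i ^ (r + j + 1),
      DE T (X : K[X]) (C θ) i⟩ : Datum k K)) ++
    ((⟨j, 0, 0, f⟩ : Datum k K) :: List.ofFn fun l : Fin j =>
      (⟨1, x l, y l, X - C (algebraMap k K (T.u l))⟩ : Datum k K))), ?_, ?_⟩
  · -- the sweep
    have hmem : ∀ (Pr : Datum k K → Prop),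
        (∀ i : Fin r, Pr ⟨j + 1, T.a1 i, T.a1 i ^ (r + j + 1), DD T (X : K[X]) (C θ) (T.a1 i)⟩) →
        (∀ i : Fin (j + 1), Pr ⟨j, T.a2 i, T.a2 i ^ (r + j + 1), DE T (X : K[X]) (C θ) i⟩) →
        Pr ⟨j, 0, 0, f⟩ →
        (∀ l : Fin j, Pr ⟨1, x l, y l, X - C (algebraMap k K (T.u l))⟩) →
        ∀ z ∈ (List.ofFn fun i : Fin r => (⟨j + 1, T.a1 i, T.a1 i ^ (r + j + 1),
            DD T (X : K[X]) (C θ) (T.a1 i)⟩ : Datum k K)) ++
          ((List.ofFn fun i : Fin (j + 1) => (⟨j, T.a2 i, T.a2 i ^ (r + j + 1),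
            DE T (X : K[X]) (C θ) i⟩ : Datum k K)) ++
          ((⟨j, 0, 0, f⟩ : Datum k K) :: List.ofFn fun l : Fin j =>
            (⟨1, x l, y l, X - C (algebraMap k K (T.u l))⟩ : Datum k K))), Pr z := by
      intro Pr h1 h2 h3 h4 z hz
      rcases List.mem_append.1 hz with h | h
      · obtain ⟨i, rfl⟩ := (List.mem_ofFn' _ _).1 h
        exact h1 i
      · rcases List.mem_append.1 h with h | h
        · obtain ⟨i, rfl⟩ := (List.mem_ofFn' _ _).1 h
          exact h2 i
        · rcases List.mem_cons.1 h with h | h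
          · rw [h]
            exact h3
          · obtain ⟨i, rfl⟩ := (List.mem_ofFn' _ _).1 h
            exact h4 i
    have hc1 : ∀ i, IsCoprime (DD T (X : K[X]) (C θ) (T.a1 i)) E := fun i => cop_e hAE (x1 i)
    have hc2 : ∀ i, IsCoprime (DE T (X : K[X]) (C θ) i) E := fun i => cop_e hAE (x2 i)
    have hc3 : IsCoprime f E := cop_e hAE x3
    have hc4 : ∀ l, IsCoprime (X - C (algebraMap k K (T.u l))) E := fun l => cop_e hAE (x4 l)
    refine ⟨?_, ?_, ?_, ?_, ?_, ?_, ?_, ?_, ?_, ?_⟩
    · rw [hE]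
      exact (top_EE T).1
    · rw [hA, mul_one]
      exact (top_AA T).1
    · have hEd : E.natDegree = j + 1 := by
        rw [hE]
        refine le_antisymm (top_EE T).1 (le_natDegree_of_ne_zero ?_)
        rw [(top_EE T).2]
        exact one_ne_zero
      by_cases hB0 : B = 0
      · rw [hB0]
        simp
      · have hE0 : E ≠ 0 := by
          intro h
          rw [h, natDegree_zero] at hEd
          omega
        have h1 := deg_NN (θ := θ) T
        rw [← hN, hB, natDegree_mul hE0 hB0, hEd] at h1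
        have h2 : (j + 1) * (r + j + 1) = (j + 1) * (r + j) + (j + 1) := by ring
        omega
    · rw [hE, hA]
      rw [hN, hE] at hB
      exact nz_fam T hθ hB
    · refine hmem _ (fun i => DD_ne T hθ _) (fun i => DE_ne T hθ i) ?_
        (fun l => X_sub_C_ne_zero _)
      rw [hf]
      exact ff_ne T hθ
    · refine hmem _ (fun i => deg_DD T hθ _) (fun i => deg_DE T hθ i) ?_
        (fun l => natDegree_X_sub_C _)
      rw [hf]
      exact deg_ff T hθ
    · refine hmem _ (fun i => ?_) (fun i => ?_) ?_ (fun l => ?_)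
      · rw [pow_one]
        exact x1 i
      · rw [pow_one]
        exact x2 i
      · rw [pow_one]
        exact x3
      · rw [pow_one]
        exact x4 l
    · refine hmem _ (fun i => ?_) (fun i => ?_) ?_ (fun l => y4 l)
      · simp only
        rw [map_pow]
        refine dvd_y hB (hc1 i) (x1 i) ?_
        rw [hNA]
        exact ((Finset.dvd_prod_of_mem (fun i => DD T (X : K[X]) (C θ) (T.a1 i))
          (Finset.mem_univ i)).mul_left _).mul_right _
      · simp only
        rw [map_pow]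
        refine dvd_y hB (hc2 i) (x2 i) ?_
        rw [hNA]
        exact (Finset.dvd_prod_of_mem (fun i => DE T (X : K[X]) (C θ) i)
          (Finset.mem_univ i)).mul_left _
      · have h1 := dvd_y hB hc3 x3 (by
          rw [hNA]
          exact (dvd_mul_right _ _).mul_right _)
        rw [map_zero, zero_pow (Nat.succ_ne_zero _)] at h1
        simp only
        rw [map_zero]
        exact h1
    · exact hmem _ hc1 hc2 hc3 hc4
    · rw [List.pairwise_append, List.pairwise_append, List.pairwise_cons]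
      refine ⟨?_, ⟨?_, ⟨?_, ?_⟩, ?_⟩, ?_⟩
      · rw [List.pairwise_ofFn]
        intro i i' hii
        exact cop_x hAE (fun h => hii.ne (T.inj1 (inj h))) (x1 i) (x1 i')
      · rw [List.pairwise_ofFn]
        intro i i' hii
        exact cop_x hAE (fun h => hii.ne (T.inj2 (inj h))) (x2 i) (x2 i')
      · intro z hz
        obtain ⟨l, rfl⟩ := (List.mem_ofFn' _ _).1 hz
        exact cop_x hAE (fun h => xne0 l (inj h).symm) x3 (x4 l)
      · rw [List.pairwise_ofFn]
        intro l l' hll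
        exact cop_C (fun h => hll.ne (T.inju (inj h))) X
      · intro z hz z' hz'
        obtain ⟨i, rfl⟩ := (List.mem_ofFn' _ _).1 hz
        rcases List.mem_cons.1 hz' with h | h
        · rw [h]
          exact cop_x hAE (fun h => T.ne2 i (inj h)) (x2 i) x3
        · obtain ⟨l, rfl⟩ := (List.mem_ofFn' _ _).1 h
          exact cop_x hAE (fun h => xne2 l i (inj h).symm) (x2 i) (x4 l)
      · intro z hz z' hz'
        obtain ⟨i, rfl⟩ := (List.mem_ofFn' _ _).1 hz
        rcases List.mem_append.1 hz' with h | h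
        · obtain ⟨i', rfl⟩ := (List.mem_ofFn' _ _).1 h
          exact cop_x hAE (fun h => T.ne12 i i' (inj h)) (x1 i) (x2 i')
        · rcases List.mem_cons.1 h with h | h
          · rw [h]
            exact cop_x hAE (fun h => T.ne1 i (inj h)) (x1 i) x3
          · obtain ⟨l, rfl⟩ := (List.mem_ofFn' _ _).1 h
            exact cop_x hAE (fun h => xne1 l i (inj h).symm) (x1 i) (x4 l)
  · unfold wts
    simp only [List.map_append, List.map_ofFn, List.map_cons]
    have e1 : (List.ofFn fun _ : Fin r => j + 1) = List.replicate r (j + 1) := List.ofFn_const _ _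
    have e2 : (List.ofFn fun _ : Fin (j + 1) => j) = List.replicate (j + 1) j :=
      List.ofFn_const _ _
    have e3 : (List.ofFn fun _ : Fin j => 1) = List.replicate j 1 := List.ofFn_const _ _
    have e4 : List.replicate (j + 2) j = List.replicate (j + 1) j ++ [j] :=
      List.replicate_succ'
    have f1 : (Datum.wt ∘ fun i : Fin r => (⟨j + 1, T.a1 i, T.a1 i ^ (r + j + 1),
      DD T (X : K[X]) (C θ) (T.a1 i)⟩ : Datum k K)) = fun _ => j + 1 := rfl
    have f2 : (Datum.wt ∘ fun i : Fin (j + 1) => (⟨j, T.a2 i, T.a2 i ^ (r + j + 1),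
      DE T (X : K[X]) (C θ) i⟩ : Datum k K)) = fun _ => j := rfl
    have f3 : (Datum.wt ∘ fun l : Fin j =>
      (⟨1, x l, y l, X - C (algebraMap k K (T.u l))⟩ : Datum k K)) = fun _ => 1 := rfl
    rw [f1, f2, f3, e1, e2, e3, e4]
    simp

end Pool.Agent.J4H37.WN
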