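import Pool.Agent.Y76.NQ.Main
import Pool.Agent.J4H37.WN.Deg

set_option autoImplicit false

/-!
# A polynomial germ with minimal valuations
-/

namespace Pool.Agent.J4H37.WN

open Polynomial

theorem coe_expand {k : Type} [Field k] (ξ : k[X]) (c : ℕ → k)
    (hc : (ξ : PowerSeries k) = PowerSeries.X * PowerSeries.mk c) (f : MvPolynomial (Fin 3) k) (i j : ℕ) :
    PowerSeries.coeff i ((MvPolynomial.aeval
        (![Polynomial.C PowerSeries.X,
           Polynomial.C (PowerSeries.X * PowerSeries.mk c) + Polynomial.X,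
           1] : Fin 3 → Polynomial (PowerSeries k)) f).coeff j) =
      ((expand ξ f).coeff j).coeff i := by
  have h : (mapRingHom (Polynomial.coeToPowerSeries.ringHom (R := k))).comp (expand ξ) =
      (MvPolynomial.aeval
        (![Polynomial.C PowerSeries.X,
           Polynomial.C (PowerSeries.X * PowerSeries.mk c) + Polynomial.X,
           1] : Fin 3 → Polynomial (PowerSeries k))).toRingHom := by
    apply MvPolynomial.ringHom_ext
    · intro r
      simp [expand]
    · intro l
      fin_cases l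
      · simp [expand]
      · simp [expand, ← hc]
      · simp [expand]
  have h1 := DFunLike.congr_fun h f
  have h2 : (MvPolynomial.aeval
        (![Polynomial.C PowerSeries.X,
           Polynomial.C (PowerSeries.X * PowerSeries.mk c) + Polynomial.X,
           1] : Fin 3 → Polynomial (PowerSeries k)) f) =
      mapRingHom (Polynomial.coeToPowerSeries.ringHom (R := k)) (expand ξ f) := h1.symm
  rw [h2, coe_mapRingHom, coeff_map]
  simp

theorem exists_germ {q p : ℕ} (hq : 0 < q) (hqp : 9 * q ≤ p) : ∃ ξ : ℂ[X], ∀ (d : ℕ)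
    (f : MvPolynomial (Fin 3) ℂ), f ≠ 0 → f.IsHomogeneous d → ∃ i j : ℕ,
      ((expand ξ f).coeff j).coeff i ≠ 0 ∧ ((q * i + p * j : ℕ) : ℝ) ≤ d * Real.sqrt (p * q) := by
  classical
  obtain ⟨c, hc⟩ : ∃ c : ℕ → ℂ, AlgebraicIndependent ℚ c := by
    obtain ⟨s, hs⟩ := exists_isTranscendenceBasis ℚ ℂ
    have h1 := IsAlgClosed.cardinal_eq_cardinal_transcendence_basis_of_aleph0_lt
      (R := ℚ) (K := ℂ) (fun x : s => (x : ℂ)) hs
      (by simp) (by rw [Cardinal.mk_complex]; exact Cardinal.aleph0_lt_continuum)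
    have h2 : Infinite s := by
      rw [Cardinal.infinite_iff]
      have : Cardinal.mk s = Cardinal.mk ℂ := by simpa using h1.symm
      rw [this, Cardinal.mk_complex]; exact Cardinal.aleph0_le_continuum
    exact ⟨fun i => (Infinite.natEmbedding s i : ℂ),
      hs.1.comp _ (Infinite.natEmbedding s).injective⟩
  obtain ⟨c', hc'⟩ : ∃ c' : ℕ → ℂ, c' = fun k => if k < p then c k else 0 := ⟨_, rfl⟩
  obtain ⟨ξ, hξ⟩ : ∃ ξ : ℂ[X], ξ = X * ∑ k ∈ Finset.range p, monomial k (c k) := ⟨_, rfl⟩
  have hqR : (0 : ℝ) < q := by exact_mod_cast hq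
  obtain ⟨t, ht⟩ : ∃ t : ℝ, t = p / q := ⟨_, rfl⟩
  have ht9 : 9 ≤ t := by
    rw [ht, le_div_iff₀ hqR]
    exact_mod_cast hqp
  have htp : t ≤ p := by
    rw [ht, div_le_iff₀ hqR]
    have h1 : (1 : ℝ) ≤ q := by exact_mod_cast hq
    nlinarith [Nat.cast_nonneg (α := ℝ) p]
  have hcoe : (ξ : PowerSeries ℂ) = PowerSeries.X * PowerSeries.mk c' := by
    rw [hξ, Polynomial.coe_mul, Polynomial.coe_X]
    congr 1
    ext n
    rw [Polynomial.coeff_coe, PowerSeries.coeff_mk, finsetSum_coeff, hc']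
    simp only [coeff_monomial]
    rw [Finset.sum_ite_eq' (Finset.range p) n]
    simp
  have hind : AlgebraicIndependent ℚ (fun k : {k : ℕ // (k : ℝ) + 1 < t} => c' k) := by
    have h1 : (fun k : {k : ℕ // (k : ℝ) + 1 < t} => c' k) =
        c ∘ (fun k : {k : ℕ // (k : ℝ) + 1 < t} => (k : ℕ)) := by
      funext k
      rw [hc']
      simp only [Function.comp_apply]
      rw [if_pos]
      have h2 := k.2
      have h3 : ((k : ℕ) : ℝ) < p := by linarith
      exact_mod_cast h3
    rw [h1]
    exact hc.comp _ Subtype.val_injective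
  refine ⟨ξ, fun d f hf0 hf => ?_⟩
  obtain ⟨i, j, h1, h2⟩ := Pool.Agent.Y76.NQ.le_of_indep c' hind ht9 le_rfl hf hf0
  refine ⟨i, j, ?_, ?_⟩
  · rw [← coe_expand ξ c' hcoe]
    exact h1
  · have h3 : Real.sqrt (p * q) = q * Real.sqrt t := by
      have h4 : (p : ℝ) * q = q ^ 2 * t := by
        rw [ht]
        field_simp
      rw [h4, Real.sqrt_mul (by positivity), Real.sqrt_sq hqR.le]
    rw [h3]
    push_cast
    have h5 : (p : ℝ) = q * t := by
      rw [ht]
      field_simp
    rw [h5]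
    nlinarith

end Pool.Agent.J4H37.WN
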