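import Pool.Agent.J4H37.WN.Spec2
import Pool.Agent.J4H37.WN.Semi
import Pool.Agent.R355.ConeAct
import Pool.Agent.TH167.TT.Move

set_option autoImplicit false

/-!
# The rays of Euclid's algorithm are nef
-/

namespace Pool.Agent.J4H37.WN

open MvPolynomial Pool.Agent.W609 Pool.Agent.W609.CR Pool.Agent.TH167 Pool.Agent.TH167.SH
open Pool.Agent.R355.ConeAct (curveClasses curvCone dot kap refl nef_of_gen Carries)

/-- The class `(c; L (τ 0), L (τ 1), …)`. -/
noncomputable def ray {n : ℕ} (c : ℝ) (L : List ℕ) (τ : Fin n → ℕ) : ℝ × (Fin n → ℝ) :=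
  (c, fun i => (L.getD (τ i) 0 : ℝ))

/-- The multiplicities of a form at generic points. -/
theorem weighted_le {q p e : ℕ} (hq : 0 < q) (hqp : 9 * q ≤ p) {L : List ℕ}
    (hL : HasSweep q p e L) {s : ℕ}
    {K : Type} [Field K] [CharZero K] {P : Fin s → Fin 2 → K}
    (hP : AlgebraicIndependent ℚ (fun ij : Fin s × Fin 2 => P ij.1 ij.2))
    {τ : Fin s → ℕ} (hτ : Function.Injective τ) {d : ℕ} {w : Fin s → ℕ}
    {G : MvPolynomial (Fin 3) K} (hG : G ≠ 0) (hGs : G ∈ SHDefs.sys P d w) :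
    ∑ i, (L.getD (τ i) 0 : ℝ) * w i ≤ e * (d * Real.sqrt (p * q)) := by
  by_contra hcon
  rw [not_le] at hcon
  obtain ⟨P0, hP0⟩ := special_empty2 hq hqp hL w τ hτ hcon
  have hch : CharZero (FractionRing (Polynomial ℂ)) :=
    charZero_of_injective_algebraMap
      (IsFractionRing.injective (Polynomial ℂ) (FractionRing (Polynomial ℂ)))
  have h1 := empty_spread hP0 hP
  have hfin := vs_fin (fun j => aff (P j)) w d
  rw [sys_eq] at h1 hGs
  rw [Submodule.finrank_eq_zero] at h1
  rw [h1] at hGs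
  exact hG hGs

theorem ray_nef {q p e : ℕ} (hq : 0 < q) (hqp : 9 * q ≤ p) {L : List ℕ}
    (hL : HasSweep q p e L) {n : ℕ} {P : Fin n → Fin 2 → ℂ}
    (hP : AlgebraicIndependent ℚ (fun ij : Fin n × Fin 2 => P ij.1 ij.2))
    {τ : Fin n → ℕ} (hτ : Function.Injective τ) :
    ∀ x ∈ curvCone P, 0 ≤ dot (ray (e * Real.sqrt (p * q)) L τ) x := by
  classical
  refine nef_of_gen ?_
  rintro x (⟨G, d, w, hG, rfl⟩ | ⟨j, rfl⟩)
  · have h1 := weighted_le hq hqp hL hP hτ hG.irreducible.ne_zero (d := d) (w := w) (by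
      unfold SHDefs.sys
      rw [Submodule.mem_inf, Submodule.restrictScalars_mem, Ideal.mem_iInf]
      exact ⟨hG.homogeneous, fun i => (hG.mult i).1⟩)
    unfold dot ray
    simp only
    nlinarith
  · unfold dot
    simp only [mul_zero, zero_sub]
    rw [Finset.sum_eq_single j]
    · rw [Pi.single_eq_same]
      have : 0 ≤ (ray (e * Real.sqrt (p * q)) L τ).2 j := by
        unfold ray
        positivity
      linarith
    · intro l _ hl
      rw [Pi.single_eq_of_ne hl, mul_zero]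
    · intro h
      exact absurd (Finset.mem_univ j) h

theorem dot_ray_scale {n : ℕ} {g : ℕ} (c : ℝ) (L : List ℕ) (τ : Fin n → ℕ)
    (x : ℝ × (Fin n → ℝ)) : dot (ray (g * c) (L.map (g * ·)) τ) x = g * dot (ray c L τ) x := by
  have h2 : ∀ k : ℕ, (((L.map (g * ·)).getD k 0 : ℕ) : ℝ) = g * (L.getD k 0 : ℝ) := by
    intro k
    have h3 : (L.map (g * ·)).getD k 0 = g * L.getD k 0 := by
      rw [← List.getD_map (f := (g * ·))]
      simp
    rw [h3]
    push_cast
    ring
  unfold dot ray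
  simp only
  rw [mul_sub, Finset.mul_sum]
  congr 1
  · ring
  · refine Finset.sum_congr rfl fun i _ => ?_
    rw [h2]
    ring

/-- The classes of Euclid's algorithm are nef (also if `q` and `p` are not coprime). -/
theorem euclid_nef {q p : ℕ} (hq : 0 < q) (hqp : 9 * q ≤ p) {n : ℕ} {P : Fin n → Fin 2 → ℂ}
    (hP : AlgebraicIndependent ℚ (fun ij : Fin n × Fin 2 => P ij.1 ij.2))
    {τ : Fin n → ℕ} (hτ : Function.Injective τ) :
    ∀ x ∈ curvCone P, 0 ≤ dot (ray (Real.sqrt (p * q)) (euclid q p) τ) x := by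
  obtain ⟨g, hg⟩ : ∃ g, g = Nat.gcd q p := ⟨_, rfl⟩
  have hg0 : 0 < g := by
    rw [hg]
    exact Nat.gcd_pos_of_pos_left _ hq
  obtain ⟨q', hq'⟩ : g ∣ q := by
    rw [hg]
    exact Nat.gcd_dvd_left _ _
  obtain ⟨p', hp'⟩ : g ∣ p := by
    rw [hg]
    exact Nat.gcd_dvd_right _ _
  have hco : Nat.Coprime q' p' := by
    have h1 : g * Nat.gcd q' p' = g * 1 := by
      rw [← Nat.gcd_mul_left, ← hq', ← hp', ← hg, mul_one]
    exact Nat.eq_of_mul_eq_mul_left hg0 h1
  have hq0 : 0 < q' := by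
    rcases Nat.eq_zero_or_pos q' with h | h
    · rw [h, mul_zero] at hq'
      omega
    · exact h
  have hqp' : 9 * q' ≤ p' := by
    rw [hq', hp'] at hqp
    have h1 : g * (9 * q') ≤ g * p' := by
      calc g * (9 * q') = 9 * (g * q') := by ring
        _ ≤ g * p' := hqp
    exact Nat.le_of_mul_le_mul_left h1 hg0
  have hgR : (0 : ℝ) < g := by exact_mod_cast hg0
  have h1 : Real.sqrt (((g * p' : ℕ) : ℝ) * ((g * q' : ℕ) : ℝ)) = g * Real.sqrt (p' * q') := by
    have : (((g * p' : ℕ) : ℝ) * ((g * q' : ℕ) : ℝ)) = (g : ℝ) ^ 2 * (p' * q') := by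
      push_cast
      ring
    rw [this, Real.sqrt_mul (by positivity), Real.sqrt_sq hgR.le]
  intro x hx
  rw [hq', hp', h1, euclid_mul hg0, dot_ray_scale]
  have h2 := ray_nef hq0 hqp' (hasSweep_euclid hq0 hco) hP hτ x hx
  rw [Nat.cast_one, one_mul] at h2
  exact mul_nonneg (Nat.cast_nonneg _) h2

/-- The second family. -/
theorem fam_nef {r j : ℕ} (h9 : 9 ≤ r + j) {n : ℕ} {P : Fin n → Fin 2 → ℂ}
    (hP : AlgebraicIndependent ℚ (fun ij : Fin n × Fin 2 => P ij.1 ij.2))
    {τ : Fin n → ℕ} (hτ : Function.Injective τ) :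
    ∀ x ∈ curvCone P, 0 ≤ dot (ray ((j + 1) * Real.sqrt (r + j)) (wts r j) τ) x := by
  have h1 := ray_nef one_pos (by omega) (hasSweep_fam r j) hP hτ
  push_cast at h1
  rw [mul_one] at h1
  exact h1

/-- Generic complex points (as in the starting library). -/
theorem exists_points (n : ℕ) : ∃ P : Fin n → Fin 2 → ℂ,
    AlgebraicIndependent ℚ (fun ij : Fin n × Fin 2 => P ij.1 ij.2) := by
  obtain ⟨s, hs⟩ := exists_isTranscendenceBasis ℚ ℂ
  have h1 := IsAlgClosed.cardinal_eq_cardinal_transcendence_basis_of_aleph0_lt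
    (R := ℚ) (K := ℂ) (fun x : s => (x : ℂ)) hs
    (by simp) (by rw [Cardinal.mk_complex]; exact Cardinal.aleph0_lt_continuum)
  have h2 : Infinite s := by
    rw [Cardinal.infinite_iff]
    have : Cardinal.mk s = Cardinal.mk ℂ := by simpa using h1.symm
    rw [this, Cardinal.mk_complex]; exact Cardinal.aleph0_le_continuum
  obtain ⟨m, ⟨e⟩⟩ := Finite.exists_equiv_fin (Fin n × Fin 2)
  have e2 : Fin m ↪ s := (Fin.valEmbedding.trans (Infinite.natEmbedding s))
  exact ⟨fun i j => (e2 (e (i, j)) : ℂ),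
    hs.1.comp (fun ij : Fin n × Fin 2 => e2 (e ij)) (e2.injective.comp e.injective)⟩

/-- From the irreducible curves to the effective classes (as in the starting library). -/
theorem eff_nonneg {s : ℕ} {P : Fin s → Fin 2 → ℂ} {x : ℝ} {y : Fin s → ℝ} (hy : ∀ i, 0 ≤ y i)
    (h : ∀ (G : MvPolynomial (Fin 3) ℂ) (d : ℕ) (w : Fin s → ℕ), Irreducible G →
      G.IsHomogeneous d → (∀ j, Ord (aff (P j)) (w j) G) → 0 ≤ x * d - ∑ l, y l * (w l : ℝ)) :
    ∀ (d : ℕ) (w : Fin s → ℕ) (F : MvPolynomial (Fin 3) ℂ), F ≠ 0 → F.IsHomogeneous d →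
      (∀ j, Van (aff (P j)) (w j) F) → 0 ≤ x * d - ∑ l, y l * (w l : ℝ) := by
  intro d
  induction d using Nat.strong_induction_on with
  | _ d ih =>
    intro w F hF0 hF hv
    rcases Nat.eq_zero_or_pos d with rfl | hd
    · have h0 : ∀ j, w j = 0 := fun j => Nat.le_zero.1 (van_le hF0 hF (hv j))
      simp [h0]
    · have hFu : ¬ IsUnit F := by
        intro hu
        have h1 := (isUnit_iff_totalDegree_of_isReduced.1 hu).2
        rw [hF.totalDegree hF0] at h1
        omega
      obtain ⟨G, hG, H, hH⟩ := WfDvdMonoid.exists_irreducible_factor hFu hF0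
      have hH0 : H ≠ 0 := by
        rintro rfl
        exact hF0 (by rw [hH, mul_zero])
      have hGh := Pool.Agent.Chud.homog_of_dvd hF hF0 ⟨H, hH⟩
      have hHh := Pool.Agent.Chud.homog_of_dvd hF hF0 ⟨G, by rw [hH, mul_comm]⟩
      obtain ⟨e, he⟩ : ∃ e, e = G.totalDegree := ⟨_, rfl⟩
      obtain ⟨e', he'⟩ : ∃ e', e' = H.totalDegree := ⟨_, rfl⟩
      rw [← he] at hGh
      rw [← he'] at hHh
      have hde : d = e + e' := by
        rw [he, he', ← MvPolynomial.totalDegree_mul_of_isDomain hG.ne_zero hH0, ← hH,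
          hF.totalDegree hF0]
      have he0 : e ≠ 0 := by
        intro h0
        rw [h0] at he
        refine hG.not_isUnit ?_
        rw [(MvPolynomial.totalDegree_eq_zero_iff_eq_C).1 he.symm]
        refine (isUnit_iff_ne_zero.2 fun hc => hG.ne_zero ?_).map (C : ℂ →+* _)
        rw [(MvPolynomial.totalDegree_eq_zero_iff_eq_C).1 he.symm, hc, map_zero]
      choose u hu using fun j => TT.exists_ord (p := P j) hG.ne_zero hGh
      have h1 := h G e u hG hGh hu
      have h2 := ih e' (by omega) (fun j => w j - u j) H hH0 hHh (fun j => by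
        rcases Nat.lt_or_ge (w j) (u j) with h3 | h3
        · have : w j - u j = 0 := by omega
          rw [this]
          exact van_zero _ _
        · refine van_of_mul (hu j) ?_
          have h4 : u j + (w j - u j) = w j := by omega
          rw [h4, ← hH]
          exact hv j)
      have h3 : ∑ l, y l * (w l : ℝ) ≤ ∑ l, y l * (u l : ℝ) + ∑ l, y l * ((w l - u l : ℕ) : ℝ) := by
        rw [← Finset.sum_add_distrib]
        refine Finset.sum_le_sum fun l _ => ?_
        rw [← mul_add]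
        refine mul_le_mul_of_nonneg_left ?_ (hy l)
        have : w l ≤ u l + (w l - u l) := by omega
        exact_mod_cast this
      rw [hde]
      push_cast
      have h4 : x * ((e : ℝ) + e') = x * e + x * e' := by ring
      rw [h4]
      linarith

theorem nef_empty {n : ℕ} {P : Fin n → Fin 2 → ℂ} {N : ℝ × (Fin n → ℝ)}
    (hN : ∀ x ∈ curvCone P, 0 ≤ dot N x) {d : ℕ} {w : Fin n → ℕ}
    (h : dot N ((d : ℝ), fun i => (w i : ℝ)) < 0) : SHDefs.sys P d w = ⊥ := by
  classical
  have hy : ∀ i, 0 ≤ N.2 i := by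
    intro i
    have h1 := hN _ (subset_closure (Submodule.subset_span (Or.inr ⟨i, rfl⟩)))
    unfold dot at h1
    simpa [Pi.single_apply] using h1
  rw [Submodule.eq_bot_iff]
  intro F hF
  by_contra hF0
  have hF' : F ∈ VS (fun j => aff (P j)) w d := by
    rw [← sys_eq]
    exact hF
  rw [mem_VS] at hF'
  have h1 := eff_nonneg (x := N.1) hy (fun G e u hG hGe hGo => by
    exact hN _ (subset_closure (Submodule.subset_span
      (Or.inl ⟨G, e, u, curve_iff.2 ⟨hG, hGe, hGo⟩, rfl⟩)))) d w F hF0 hF'.1 hF'.2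
  exact absurd h (not_lt.2 h1)

end Pool.Agent.J4H37.WN
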