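import Pool.Agent.J4H37.WN.Germ
import Pool.Agent.TH167.SH.Defs

set_option autoImplicit false

/-!
# Emptiness at special points
-/

namespace Pool.Agent.J4H37.WN

open MvPolynomial Pool.Agent.TH167

attribute [local instance] MvPolynomial.algebraMvPolynomial in
theorem clear_den {ι : Type} [Fintype ι] {R K2 : Type} [CommRing R] [IsDomain R] [Field K2]
    [Algebra R K2] [IsFractionRing R K2] {d : ℕ} {g : MvPolynomial (Fin 3) K2} (hg : g ≠ 0)
    (hgh : g.IsHomogeneous d) (x y : ι → R) (m : ι → ℕ)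
    (h : ∀ l, g ∈ SHDefs.pt ![algebraMap R K2 (x l), algebraMap R K2 (y l)] ^ m l) :
    ∃ F : MvPolynomial (Fin 3) R, F ≠ 0 ∧ F.IsHomogeneous d ∧
      ∀ l, F ∈ (Ideal.span {X 0 - C (x l) * X 2, X 1 - C (y l) * X 2} :
        Ideal (MvPolynomial (Fin 3) R)) ^ m l := by
  classical
  obtain ⟨Mo, hMo⟩ : ∃ Mo : Submonoid (MvPolynomial (Fin 3) R),
    Mo = (nonZeroDivisors R).map (C : R →+* MvPolynomial (Fin 3) R) := ⟨_, rfl⟩
  have hloc : IsLocalization Mo (MvPolynomial (Fin 3) K2) := by
    rw [hMo]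
    exact MvPolynomial.isLocalization (nonZeroDivisors R) K2
  obtain ⟨φ, hφ⟩ : ∃ φ : MvPolynomial (Fin 3) R →+* MvPolynomial (Fin 3) K2,
    φ = algebraMap (MvPolynomial (Fin 3) R) (MvPolynomial (Fin 3) K2) := ⟨_, rfl⟩
  have hφm : φ = MvPolynomial.map (algebraMap R K2) := hφ
  have hinj : Function.Injective φ := by
    rw [hφm]
    exact MvPolynomial.map_injective _ (IsFractionRing.injective R K2)
  have h1 : ∀ l, ∃ a ∈ (Ideal.span {X 0 - C (x l) * X 2, X 1 - C (y l) * X 2} :
      Ideal (MvPolynomial (Fin 3) R)) ^ m l, ∃ s ∈ Mo, g * φ s = φ a := by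
    intro l
    have h2 : SHDefs.pt ![algebraMap R K2 (x l), algebraMap R K2 (y l)] ^ m l =
        Ideal.map (algebraMap (MvPolynomial (Fin 3) R) (MvPolynomial (Fin 3) K2))
          ((Ideal.span {X 0 - C (x l) * X 2, X 1 - C (y l) * X 2} :
            Ideal (MvPolynomial (Fin 3) R)) ^ m l) := by
      rw [Ideal.map_pow]
      congr 1
      unfold SHDefs.pt
      rw [Ideal.map_span, ← hφ, hφm]
      congr 1
      rw [Set.image_pair]
      simp
    have h3 := h l
    rw [h2, IsLocalization.mem_map_algebraMap_iff Mo] at h3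
    obtain ⟨⟨⟨a, ha⟩, ⟨s, hs⟩⟩, h4⟩ := h3
    exact ⟨a, ha, s, hs, by rw [hφ]; exact h4⟩
  choose a ha s hs has using h1
  obtain ⟨⟨F0, ⟨s0, hs0⟩⟩, h2⟩ := IsLocalization.surj Mo g
  have h2' : g * φ s0 = φ F0 := by
    rw [hφ]
    exact h2
  have hC : ∀ r ∈ Mo, ∃ c : R, c ≠ 0 ∧ r = C c := by
    intro r hr
    rw [hMo, Submonoid.mem_map] at hr
    obtain ⟨c, hc, rfl⟩ := hr
    exact ⟨c, nonZeroDivisors.ne_zero hc, rfl⟩
  have hprodM : s0 * ∏ l, s l ∈ Mo := mul_mem hs0 (prod_mem fun l _ => hs l)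
  obtain ⟨c, hc0, hc⟩ := hC _ hprodM
  have hF : φ (F0 * ∏ l, s l) = C (algebraMap R K2 c) * g := by
    have h3 : φ (C c) = C (algebraMap R K2 c) := by
      rw [hφm, map_C]
    rw [map_mul, ← h2', ← h3, ← hc, map_mul]
    ring
  have hcK : algebraMap R K2 c ≠ 0 := fun h0 => hc0 (IsFractionRing.injective R K2 (by
    rw [h0, map_zero]))
  refine ⟨F0 * ∏ l, s l, ?_, ?_, ?_⟩
  · intro h0
    rw [h0, map_zero] at hF
    rcases mul_eq_zero.1 hF.symm with h3 | h3
    · exact hcK (C_eq_zero.1 h3)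
    · exact hg h3
  · intro b hb
    refine hgh ?_
    intro h0
    refine hb ?_
    apply IsFractionRing.injective R K2
    have h3 := congrArg (coeff b) hF
    rw [hφm, coeff_map, coeff_C_mul, h0, mul_zero] at h3
    rw [h3, map_zero]
  · intro l
    have h3 : F0 * ∏ l, s l = a l * (s0 * ∏ j ∈ Finset.univ.erase l, s j) := by
      apply hinj
      rw [map_mul, map_mul, ← h2', ← has l, map_mul,
        ← Finset.mul_prod_erase Finset.univ s (Finset.mem_univ l), map_mul]
      ring
    rw [h3]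
    exact Ideal.mul_mem_right _ _ (ha l)

theorem special_empty {q p : ℕ} (hq : 0 < q) (hqp : 9 * q ≤ p) (hc : Nat.Coprime q p) {s d : ℕ}
    (w : Fin s → ℕ) (τ : Fin s → ℕ) (hτ : Function.Injective τ)
    (h : (d : ℝ) * Real.sqrt (p * q) < ∑ i, ((euclid q p).getD (τ i) 0 : ℝ) * w i) :
    ∃ P : Fin s → Fin 2 → FractionRing (Polynomial ℂ), SHDefs.sys P d w = ⊥ := by
  classical
  have hθ : Transcendental ℂ (algebraMap (Polynomial ℂ) (FractionRing (Polynomial ℂ))
      Polynomial.X) := by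
    rw [transcendental_algebraMap_iff
      (IsFractionRing.injective (Polynomial ℂ) (FractionRing (Polynomial ℂ)))]
    exact Polynomial.transcendental_X ℂ
  obtain ⟨A, B, M, hM⟩ := exists_sweep (k := ℂ) hθ q p hc
  obtain ⟨ξ, hξ⟩ := exists_germ hq hqp
  obtain ⟨m, hm⟩ : ∃ m : Fin M.length → ℕ, m = fun l : Fin M.length =>
      ∑ i, if τ i = (l : ℕ) then w i else 0 :=
    ⟨_, rfl⟩
  obtain ⟨P, hP⟩ : ∃ P : Fin s → Fin 2 → FractionRing (Polynomial ℂ), P = fun i =>
      if h : τ i < M.length then ![algebraMap _ _ (ptx q (M.get ⟨τ i, h⟩)),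
        algebraMap _ _ (pty q p ξ (M.get ⟨τ i, h⟩))] else 0 := ⟨_, rfl⟩
  refine ⟨P, ?_⟩
  rw [Submodule.eq_bot_iff]
  intro g hg
  by_contra hg0
  unfold SHDefs.sys at hg
  rw [Submodule.mem_inf, Submodule.restrictScalars_mem, Ideal.mem_iInf] at hg
  obtain ⟨hgh, hgi⟩ := hg
  obtain ⟨F, hF0, hFh, hF⟩ := clear_den (R := Polynomial ℂ) hg0 hgh
    (fun l : Fin M.length => ptx q (M.get l)) (fun l => pty q p ξ (M.get l)) m (fun l => by
      by_cases hl : ∃ i, τ i = (l : ℕ)
      · obtain ⟨i, hi⟩ := hl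
        have h1 : m l = w i := by
          rw [hm]
          simp only
          rw [Finset.sum_eq_single i]
          · rw [if_pos hi]
          · intro j _ hj
            rw [if_neg (fun h => hj (hτ (h.trans hi.symm)))]
          · intro h
            exact absurd (Finset.mem_univ _) h
        have h2 : P i = ![algebraMap _ _ (ptx q (M.get l)), algebraMap _ _ (pty q p ξ (M.get l))] := by
          have h3 : τ i < M.length := by
            rw [hi]
            exact l.2
          have h4 : (⟨τ i, h3⟩ : Fin M.length) = l := Fin.ext hi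
          rw [hP]
          simp only
          rw [dif_pos h3, h4]
        rw [h1, ← h2]
        exact hgi i
      · have h1 : m l = 0 := by
          rw [hm]
          simp only
          push Not at hl
          exact Finset.sum_eq_zero fun i _ => if_neg (hl i)
        rw [h1, pow_zero, Ideal.one_eq_top]
        exact Submodule.mem_top)
  have h1 := deg_bound hq hM ξ (hξ d) hF0 hFh m hF
  refine absurd h (not_lt.2 (le_trans (le_of_eq ?_) h1))
  rw [hm]
  push_cast
  simp only [Finset.mul_sum]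
  rw [Finset.sum_comm]
  refine Finset.sum_congr rfl fun i _ => ?_
  by_cases hi : τ i < M.length
  · rw [Finset.sum_eq_single (⟨τ i, hi⟩ : Fin M.length)]
    · rw [if_pos rfl]
      congr 1
      rw [← hM.wt, List.getD_eq_getElem _ _ (by rw [List.length_map]; exact hi), List.getElem_map]
      rfl
    · intro l _ hl
      rw [if_neg (fun h => hl (Fin.ext h.symm)), mul_zero]
    · intro h
      exact absurd (Finset.mem_univ _) h
  · rw [Finset.sum_eq_zero]
    · rw [← hM.wt, List.getD_eq_default _ _ (by rw [List.length_map]; omega)]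
      simp
    · intro l _
      rw [if_neg, mul_zero]
      intro h
      exact hi (h ▸ l.2)

end Pool.Agent.J4H37.WN
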