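import Pool.Agent.J4H37.WN.Spec
import Pool.Agent.J4H37.WN.Fam4

set_option autoImplicit false

/-!
# Emptiness at special points
-/

namespace Pool.Agent.J4H37.WN

open MvPolynomial Pool.Agent.TH167

/-- The weights `L` occur on a moving curve of degree `e` in the plane with weights `1, q, p`. -/
def HasSweep (q p e : ℕ) (L : List ℕ) : Prop :=
  ∃ (E A B : Polynomial (FractionRing (Polynomial ℂ)))
    (M : List (Datum ℂ (FractionRing (Polynomial ℂ)))), Sweep2 q p e E A B M ∧ M.map Datum.wt = L

theorem tr_frac : Transcendental ℂ (algebraMap (Polynomial ℂ) (FractionRing (Polynomial ℂ))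
    Polynomial.X) := by
  rw [transcendental_algebraMap_iff
    (IsFractionRing.injective (Polynomial ℂ) (FractionRing (Polynomial ℂ)))]
  exact Polynomial.transcendental_X ℂ

theorem hasSweep_euclid {q p : ℕ} (hq : 0 < q) (hc : Nat.Coprime q p) :
    HasSweep q p 1 (euclid q p) := by
  obtain ⟨A, B, M, hM⟩ := exists_sweep (k := ℂ) tr_frac q p hc
  exact ⟨1, A, B, M, hM.two hq, hM.wt⟩

theorem hasSweep_fam (r j : ℕ) : HasSweep 1 (r + j) (j + 1) (wts r j) :=
  exists_fam tr_frac r j

theorem special_empty2 {q p e : ℕ} (hq : 0 < q) (hqp : 9 * q ≤ p) {L : List ℕ}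
    (hL : HasSweep q p e L) {s d : ℕ} (w : Fin s → ℕ) (τ : Fin s → ℕ)
    (hτ : Function.Injective τ)
    (h : (e : ℝ) * (d * Real.sqrt (p * q)) < ∑ i, (L.getD (τ i) 0 : ℝ) * w i) :
    ∃ P : Fin s → Fin 2 → FractionRing (Polynomial ℂ), SHDefs.sys P d w = ⊥ := by
  classical
  obtain ⟨E, A, B, M, hM, hwt⟩ := hL
  obtain ⟨ξ, hξ⟩ := exists_germ hq hqp
  obtain ⟨m, hm⟩ : ∃ m : Fin M.length → ℕ, m = fun l : Fin M.length =>
      ∑ i, if τ i = (l : ℕ) then w i else 0 :=
    ⟨_, rfl⟩
  obtain ⟨P, hP⟩ : ∃ P : Fin s → Fin 2 → FractionRing (Polynomial ℂ), P = fun i =>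
      if h : τ i < M.length then ![algebraMap _ _ (ptx q (M.get ⟨τ i, h⟩)),
        algebraMap _ _ (pty q p ξ (M.get ⟨τ i, h⟩))] else 0 := ⟨_, rfl⟩
  refine ⟨P, ?_⟩
  rw [Submodule.eq_bot_iff]
  intro g hg
  by_contra hg0
  unfold SHDefs.sys at hg
  rw [Submodule.mem_inf, Submodule.restrictScalars_mem, Ideal.mem_iInf] at hg
  obtain ⟨hgh, hgi⟩ := hg
  obtain ⟨F, hF0, hFh, hF⟩ := clear_den (R := Polynomial ℂ) hg0 hgh
    (fun l : Fin M.length => ptx q (M.get l)) (fun l => pty q p ξ (M.get l)) m (fun l => by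
      by_cases hl : ∃ i, τ i = (l : ℕ)
      · obtain ⟨i, hi⟩ := hl
        have h1 : m l = w i := by
          rw [hm]
          simp only
          rw [Finset.sum_eq_single i]
          · rw [if_pos hi]
          · intro j _ hj
            rw [if_neg (fun h => hj (hτ (h.trans hi.symm)))]
          · intro h
            exact absurd (Finset.mem_univ _) h
        have h2 : P i = ![algebraMap _ _ (ptx q (M.get l)), algebraMap _ _ (pty q p ξ (M.get l))] := by
          have h3 : τ i < M.length := by
            rw [hi]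
            exact l.2
          have h4 : (⟨τ i, h3⟩ : Fin M.length) = l := Fin.ext hi
          rw [hP]
          simp only
          rw [dif_pos h3, h4]
        rw [h1, ← h2]
        exact hgi i
      · have h1 : m l = 0 := by
          rw [hm]
          simp only
          push Not at hl
          exact Finset.sum_eq_zero fun i _ => if_neg (hl i)
        rw [h1, pow_zero, Ideal.one_eq_top]
        exact Submodule.mem_top)
  have h1 := deg_bound2 hM ξ (hξ d) hF0 hFh m hF
  refine absurd h (not_lt.2 (le_trans (le_of_eq ?_) h1))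
  rw [hm]
  push_cast
  simp only [Finset.mul_sum]
  rw [Finset.sum_comm]
  refine Finset.sum_congr rfl fun i _ => ?_
  by_cases hi : τ i < M.length
  · rw [Finset.sum_eq_single (⟨τ i, hi⟩ : Fin M.length)]
    · rw [if_pos rfl]
      congr 1
      rw [← hwt, List.getD_eq_getElem _ _ (by rw [List.length_map]; exact hi), List.getElem_map]
      rfl
    · intro l _ hl
      rw [if_neg (fun h => hl (Fin.ext h.symm)), mul_zero]
    · intro h
      exact absurd (Finset.mem_univ _) h
  · rw [Finset.sum_eq_zero]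
    · rw [← hwt, List.getD_eq_default _ _ (by rw [List.length_map]; omega)]
      simp
    · intro l _
      rw [if_neg, mul_zero]
      intro h
      exact hi (h ▸ l.2)

end Pool.Agent.J4H37.WN
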