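import Mathlib

set_option autoImplicit false

/-!
# The reflections of the weighted planes `(1, p)`: algebra
-/

namespace Pool.Agent.J4H37.WN

open Polynomial

variable {K : Type} [Field K]

/-- `h (x + X T, y + Y T)`. -/
noncomputable def th (x y : K) : MvPolynomial (Fin 2) K →+* (MvPolynomial (Fin 2) K)[X] :=
  MvPolynomial.eval₂Hom ((C : MvPolynomial (Fin 2) K →+* (MvPolynomial (Fin 2) K)[X]).comp
    MvPolynomial.C)
    ![C (MvPolynomial.C x) + C (MvPolynomial.X 0) * X,
      C (MvPolynomial.C y) + C (MvPolynomial.X 1) * X]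

/-- `h (X T, Y T ^ p)`. -/
noncomputable def om (p : ℕ) : MvPolynomial (Fin 2) K →+* (MvPolynomial (Fin 2) K)[X] :=
  MvPolynomial.eval₂Hom ((C : MvPolynomial (Fin 2) K →+* (MvPolynomial (Fin 2) K)[X]).comp
    MvPolynomial.C)
    ![C (MvPolynomial.X 0) * X, C (MvPolynomial.X 1) * X ^ p]

theorem om_monomial (p : ℕ) (t : Fin 2 →₀ ℕ) (c : K) :
    om p (MvPolynomial.monomial t c) = C (MvPolynomial.monomial t c) * X ^ (t 0 + p * t 1) := by
  have h1 : (MvPolynomial.monomial t c : MvPolynomial (Fin 2) K) =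
      MvPolynomial.C c * (MvPolynomial.X 0 ^ t 0 * MvPolynomial.X 1 ^ t 1) := by
    rw [MvPolynomial.monomial_eq, Finsupp.prod_fintype _ _ (by simp), Fin.prod_univ_two]
  rw [h1]
  simp only [om, map_mul, map_pow, MvPolynomial.coe_eval₂Hom, MvPolynomial.eval₂_C,
    MvPolynomial.eval₂_X, RingHom.comp_apply, Matrix.cons_val_zero, Matrix.cons_val_one]
  rw [mul_pow, mul_pow, ← pow_mul, pow_add]
  ring

theorem om_coeff (p : ℕ) (h : MvPolynomial (Fin 2) K) (n : ℕ) (s : Fin 2 →₀ ℕ) :
    MvPolynomial.coeff s ((om p h).coeff n) =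
      if s 0 + p * s 1 = n then MvPolynomial.coeff s h else 0 := by
  classical
  induction h using MvPolynomial.induction_on' with
  | monomial t c =>
    rw [om_monomial, coeff_C_mul_X_pow]
    split_ifs with h1 h2 h2
    · rfl
    · rw [MvPolynomial.coeff_monomial, if_neg]
      rintro rfl
      exact h2 h1.symm
    · rw [MvPolynomial.coeff_monomial, if_neg, MvPolynomial.coeff_zero]
      rintro rfl
      exact h1 h2.symm
    · rfl
  | add f g hf hg =>
    rw [map_add, coeff_add, MvPolynomial.coeff_add, hf, hg, MvPolynomial.coeff_add]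
    split_ifs
    · rfl
    · simp

theorem om_le_iff (p : ℕ) (h : MvPolynomial (Fin 2) K) (B : ℕ) :
    (om p h).natDegree ≤ B ↔ ∀ s ∈ h.support, s 0 + p * s 1 ≤ B := by
  constructor
  · intro h1 s hs
    refine le_trans (le_natDegree_of_ne_zero fun h0 => ?_) h1
    have h2 := om_coeff p h (s 0 + p * s 1) s
    rw [h0, if_pos rfl, MvPolynomial.coeff_zero] at h2
    exact MvPolynomial.mem_support_iff.1 hs h2.symm
  · intro h1
    rw [natDegree_le_iff_coeff_eq_zero]
    intro n hn
    ext s
    rw [om_coeff, MvPolynomial.coeff_zero]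
    split_ifs with h2
    · by_contra h3
      have := h1 s (MvPolynomial.mem_support_iff.2 h3)
      omega
    · rfl

theorem om_inj (p : ℕ) : Function.Injective (om (K := K) p) := by
  rw [injective_iff_map_eq_zero]
  intro h h0
  ext s
  have h2 := om_coeff p h (s 0 + p * s 1) s
  rw [h0, if_pos rfl] at h2
  simpa using h2.symm

/-- The weight is additive. -/
theorem om_mul (p : ℕ) {g h : MvPolynomial (Fin 2) K} (hg : g ≠ 0) (hh : h ≠ 0) :
    (om p (g * h)).natDegree = (om p g).natDegree + (om p h).natDegree := by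
  rw [map_mul, natDegree_mul]
  · exact (map_ne_zero_iff _ (om_inj p)).2 hg
  · exact (map_ne_zero_iff _ (om_inj p)).2 hh

/-- Polynomials in the first variable. -/
noncomputable def pe : K[X] →+* MvPolynomial (Fin 2) K :=
  eval₂RingHom MvPolynomial.C (MvPolynomial.X 0)

theorem pe_C (c : K) : pe (C c) = (MvPolynomial.C c : MvPolynomial (Fin 2) K) := by
  simp [pe]

theorem pe_X : pe (X : K[X]) = (MvPolynomial.X 0 : MvPolynomial (Fin 2) K) := by
  simp [pe]

theorem om_pe (p : ℕ) (f : K[X]) : om p (pe f) =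
    eval₂ (C.comp MvPolynomial.C) (C (MvPolynomial.X 0) * X) f := by
  have h : (om p).comp pe = eval₂RingHom ((C : MvPolynomial (Fin 2) K →+*
      (MvPolynomial (Fin 2) K)[X]).comp MvPolynomial.C) (C (MvPolynomial.X 0) * X) := by
    apply Polynomial.ringHom_ext
    · intro c
      simp [om, pe]
    · simp [om, pe]
  exact DFunLike.congr_fun h f

theorem om_pe_le (p : ℕ) (f : K[X]) : (om p (pe f)).natDegree ≤ f.natDegree := by
  rw [om_pe, eval₂_eq_sum_range]
  refine natDegree_sum_le_of_forall_le _ _ fun i hi => ?_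
  rw [Finset.mem_range] at hi
  rw [RingHom.comp_apply, mul_pow, ← C_pow, ← mul_assoc, ← C_mul]
  refine (natDegree_C_mul_X_pow_le _ _).trans (by omega)

/-- Evaluation at `T = π` undoes the substitution `Y = f + T`. -/
noncomputable def tc (f : K[X]) : MvPolynomial (Fin 2) K →+* (MvPolynomial (Fin 2) K)[X] :=
  MvPolynomial.eval₂Hom ((C : MvPolynomial (Fin 2) K →+* (MvPolynomial (Fin 2) K)[X]).comp
    MvPolynomial.C) ![C (MvPolynomial.X 0), C (pe f) + X]

theorem tc_eval (f : K[X]) (h : MvPolynomial (Fin 2) K) :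
    eval (MvPolynomial.X 1 - pe f) (tc f h) = h := by
  have h1 : (evalRingHom (MvPolynomial.X 1 - pe f)).comp (tc f) = RingHom.id _ := by
    apply MvPolynomial.ringHom_ext
    · intro c
      simp [tc]
    · intro i
      fin_cases i <;> simp [tc]
  exact DFunLike.congr_fun h1 h

theorem tc_dvd (f : K[X]) (h : MvPolynomial (Fin 2) K) (w : ℕ) (hw : X ^ w ∣ tc f h) :
    (MvPolynomial.X 1 - pe f) ^ w ∣ h := by
  have h1 := map_dvd (evalRingHom (MvPolynomial.X 1 - pe f)) hw
  rw [coe_evalRingHom, tc_eval] at h1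
  simpa using h1

/-- A homomorphism with `X ↦ x + A T`, `Y ↦ y + B T`. -/
theorem th_dvd {R : Type} [CommRing R] (φ : MvPolynomial (Fin 2) K →+* R) {x y : K} {A B T : R}
    (hx : φ (MvPolynomial.X 0) = φ (MvPolynomial.C x) + A * T)
    (hy : φ (MvPolynomial.X 1) = φ (MvPolynomial.C y) + B * T)
    {h : MvPolynomial (Fin 2) K} {w : ℕ} (hw : X ^ w ∣ th x y h) : T ^ w ∣ φ h := by
  obtain ⟨ev, hev⟩ : ∃ ev : (MvPolynomial (Fin 2) K)[X] →+* R, ev =
    eval₂RingHom (MvPolynomial.eval₂Hom (φ.comp MvPolynomial.C) ![A, B]) T := ⟨_, rfl⟩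
  have h1 : ev.comp (th x y) = φ := by
    apply MvPolynomial.ringHom_ext
    · intro c
      simp [th, hev]
    · intro i
      fin_cases i
      · simpa [th, hev] using hx.symm
      · simpa [th, hev] using hy.symm
  have h2 := map_dvd ev hw
  rw [← RingHom.comp_apply, h1, map_pow] at h2
  have h3 : ev X = T := by simp [hev]
  rwa [h3] at h2

end Pool.Agent.J4H37.WN
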