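import Pool.Agent.J4H37.WN.WpA
import Pool.Agent.W816.CR.Trd

set_option autoImplicit false

/-!
# The reflections of the weighted planes `(1, p)`: the transformation
-/

namespace Pool.Agent.J4H37.WN

open Polynomial

variable {K : Type} [Field K] {p : ℕ}

noncomputable def gg (x : Fin (p + 2) → K) : K[X] := ∏ k, (X - C (x k))

noncomputable def gk (x : Fin (p + 2) → K) (k : Fin (p + 2)) : K[X] :=
  ∏ j ∈ Finset.univ.erase k, (X - C (x j))

noncomputable def uu (f : K[X]) : MvPolynomial (Fin 2) K := MvPolynomial.X 1 - pe f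

noncomputable def vv (x : Fin (p + 2) → K) (f : K[X]) : MvPolynomial (Fin 2) K :=
  MvPolynomial.X 0 * uu f + MvPolynomial.C (f.coeff (p + 1)) * pe (gg x)

noncomputable def fk (x : Fin (p + 2) → K) (f : K[X]) (k : Fin (p + 2)) : K[X] :=
  f - C (f.coeff (p + 1)) * gk x k

noncomputable def pk (x : Fin (p + 2) → K) (f : K[X]) (k : Fin (p + 2)) :
    MvPolynomial (Fin 2) K := MvPolynomial.X 1 - pe (fk x f k)

/-- The homogenization of `f`. -/
noncomputable def fh (x : Fin (p + 2) → K) (f : K[X]) : MvPolynomial (Fin 2) K :=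
  ∑ j ∈ Finset.range (p + 2), MvPolynomial.C (f.coeff j) * (vv x f ^ j * uu f ^ (p + 1 - j))

theorem gg_eq (x : Fin (p + 2) → K) (k : Fin (p + 2)) : (X - C (x k)) * gk x k = gg x :=
  Finset.mul_prod_erase _ (fun j => X - C (x j)) (Finset.mem_univ k)

theorem gg_ne (x : Fin (p + 2) → K) : gg x ≠ 0 :=
  Finset.prod_ne_zero_iff.2 fun _ _ => X_sub_C_ne_zero _

theorem prod_gk (x : Fin (p + 2) → K) : ∏ k, gk x k = gg x ^ (p + 1) := by
  have h1 : gg x * ∏ k, gk x k = gg x * gg x ^ (p + 1) := by
    conv_lhs => rw [gg, ← Finset.prod_mul_distrib]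
    rw [Finset.prod_congr rfl fun k _ => gg_eq x k, Finset.prod_const, Finset.card_univ,
      Fintype.card_fin, pow_succ' (gg x) (p + 1)]
  exact mul_left_cancel₀ (gg_ne x) h1

theorem gg_monic (x : Fin (p + 2) → K) : (gg x).Monic := monic_prod_of_monic _ _ fun _ _ =>
  monic_X_sub_C _

theorem gk_monic (x : Fin (p + 2) → K) (k : Fin (p + 2)) : (gk x k).Monic :=
  monic_prod_of_monic _ _ fun _ _ => monic_X_sub_C _

theorem gg_deg (x : Fin (p + 2) → K) : (gg x).natDegree = p + 2 := by
  rw [gg, natDegree_prod_of_monic _ _ fun k _ => monic_X_sub_C _]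
  simp

theorem gk_deg (x : Fin (p + 2) → K) (k : Fin (p + 2)) : (gk x k).natDegree = p + 1 := by
  rw [gk, natDegree_prod_of_monic _ _ fun k _ => monic_X_sub_C _]
  simp

theorem fk_deg (x : Fin (p + 2) → K) {f : K[X]} (hf : f.natDegree ≤ p + 1) (k : Fin (p + 2)) :
    (fk x f k).natDegree ≤ p := by
  rw [natDegree_le_iff_coeff_eq_zero]
  intro n hn
  rw [fk, coeff_sub, coeff_C_mul]
  rcases Nat.lt_or_ge (p + 1) n with h1 | h1
  · rw [coeff_eq_zero_of_natDegree_lt (lt_of_le_of_lt hf h1),
      coeff_eq_zero_of_natDegree_lt (p := gk x k) (by rw [gk_deg]; exact h1)]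
    ring
  · have h2 : n = p + 1 := by omega
    have h3 : (gk x k).coeff (p + 1) = 1 := by
      have := (gk_monic x k).coeff_natDegree
      rwa [gk_deg] at this
    rw [h2, h3]
    ring

theorem pk_eq (x : Fin (p + 2) → K) (f : K[X]) (k : Fin (p + 2)) :
    pk x f k = uu f + MvPolynomial.C (f.coeff (p + 1)) * pe (gk x k) := by
  unfold pk uu fk
  rw [map_sub, map_mul, pe_C]
  ring

theorem vv_sub (x : Fin (p + 2) → K) (f : K[X]) (k : Fin (p + 2)) :
    vv x f = MvPolynomial.C (x k) * uu f +
      (MvPolynomial.X 0 - MvPolynomial.C (x k)) * pk x f k := by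
  rw [pk_eq, vv, ← gg_eq x k, map_mul, map_sub, pe_C, pe_X]
  ring

/-! ### The polynomial `N` -/

theorem tc0_X0 (f : K[X]) : eval 0 (tc f (MvPolynomial.X 0)) = MvPolynomial.X 0 := by
  simp [tc]

theorem tc0_X1 (f : K[X]) : eval 0 (tc f (MvPolynomial.X 1)) = pe f := by
  simp [tc]

theorem tc_C (f : K[X]) (c : K) : tc f (MvPolynomial.C c) = C (MvPolynomial.C c) := by
  simp [tc]

theorem tc_pe (f q : K[X]) : tc f (pe q) = C (pe q) := by
  have h : (tc f).comp pe = (C : MvPolynomial (Fin 2) K →+* (MvPolynomial (Fin 2) K)[X]).comp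
      pe := by
    apply Polynomial.ringHom_ext
    · intro c
      simp [tc, pe]
    · simp [tc, pe]
  exact DFunLike.congr_fun h q

theorem tc0_uu (f : K[X]) : eval 0 (tc f (uu f)) = 0 := by
  unfold uu
  rw [map_sub, eval_sub, tc0_X1, tc_pe, eval_C, sub_self]

theorem uu_dvd (f : K[X]) (h : MvPolynomial (Fin 2) K) (h0 : eval 0 (tc f h) = 0) :
    uu f ∣ h := by
  have h1 := sub_dvd_eval_sub (uu f) 0 (tc f h)
  rw [h0, sub_zero, sub_zero] at h1
  have h2 : eval (uu f) (tc f h) = h := tc_eval f h
  rwa [h2] at h1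

theorem exists_N (x : Fin (p + 2) → K) (f : K[X]) : ∃ N : MvPolynomial (Fin 2) K,
    uu f * N = fh x f - ∏ k, pk x f k := by
  have h1 : uu f ∣ fh x f - ∏ k, pk x f k := by
    apply uu_dvd
    obtain ⟨e, he⟩ : ∃ e : MvPolynomial (Fin 2) K →+* MvPolynomial (Fin 2) K,
      e = (evalRingHom 0).comp (tc f) := ⟨_, rfl⟩
    have he' : ∀ h, eval 0 (tc f h) = e h := fun h => by rw [he]; rfl
    have hu : e (uu f) = 0 := by rw [← he', tc0_uu]
    have hC : ∀ c, e (MvPolynomial.C c) = MvPolynomial.C c := fun c => by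
      rw [← he', tc_C, eval_C]
    have hp : ∀ q, e (pe q) = pe q := fun q => by rw [← he', tc_pe, eval_C]
    rw [he', map_sub, fh, map_sum, Finset.sum_eq_single (p + 1)]
    · rw [map_prod]
      have h2 : ∀ k, e (pk x f k) = MvPolynomial.C (f.coeff (p + 1)) * pe (gk x k) := by
        intro k
        rw [pk_eq, map_add, hu, map_mul, hC, hp, zero_add]
      rw [Finset.prod_congr rfl fun k _ => h2 k, Finset.prod_mul_distrib, Finset.prod_const,
        Finset.card_univ, Fintype.card_fin, ← map_prod, prod_gk]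
      rw [map_mul, hC, map_mul, map_pow, map_pow, vv, map_add, map_mul, hu, map_mul, hC, hp,
        Nat.sub_self, pow_zero, mul_one, mul_zero, zero_add, mul_pow, map_pow]
      ring
    · intro j hj hj'
      rw [Finset.mem_range] at hj
      rw [map_mul, map_mul, map_pow, map_pow, hu, zero_pow (by omega), mul_zero, mul_zero]
    · intro h
      exact absurd (Finset.mem_range.2 (by omega)) h
  obtain ⟨N, hN⟩ := h1
  exact ⟨N, hN.symm⟩

/-! ### Weights -/

theorem pe_coeff (f : K[X]) (n : ℕ) :
    MvPolynomial.coeff (Finsupp.single 0 n) (pe f : MvPolynomial (Fin 2) K) = f.coeff n := by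
  induction f using Polynomial.induction_on' with
  | add f g hf hg => rw [map_add, MvPolynomial.coeff_add, hf, hg, coeff_add]
  | monomial m c =>
    have h1 : (pe (monomial m c) : MvPolynomial (Fin 2) K) =
        MvPolynomial.monomial (Finsupp.single 0 m) c := by
      rw [pe, coe_eval₂RingHom, eval₂_monomial, MvPolynomial.X_pow_eq_monomial,
        MvPolynomial.C_mul_monomial, mul_one]
    rw [h1, MvPolynomial.coeff_monomial, coeff_monomial]
    by_cases h : m = n
    · rw [if_pos h, if_pos (by rw [h])]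
    · rw [if_neg h, if_neg]
      intro h2
      exact h (Finsupp.single_injective _ h2)

theorem pe_coeff_one (f : K[X]) :
    MvPolynomial.coeff (Finsupp.single 1 1) (pe f : MvPolynomial (Fin 2) K) = 0 := by
  induction f using Polynomial.induction_on' with
  | add f g hf hg => rw [map_add, MvPolynomial.coeff_add, hf, hg, add_zero]
  | monomial m c =>
    have h1 : (pe (monomial m c) : MvPolynomial (Fin 2) K) =
        MvPolynomial.monomial (Finsupp.single 0 m) c := by
      rw [pe, coe_eval₂RingHom, eval₂_monomial, MvPolynomial.X_pow_eq_monomial,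
        MvPolynomial.C_mul_monomial, mul_one]
    rw [h1, MvPolynomial.coeff_monomial, if_neg]
    intro h2
    have := DFunLike.congr_fun h2 1
    simp at this

theorem om_X0 : (om (K := K) p (MvPolynomial.X 0)).natDegree ≤ 1 := by
  simp only [om, MvPolynomial.coe_eval₂Hom, MvPolynomial.eval₂_X, Matrix.cons_val_zero]
  exact (natDegree_mul_le.trans (by simp : _ ≤ 1))

theorem om_X1 : (om (K := K) p (MvPolynomial.X 1)).natDegree ≤ p := by
  simp only [om, MvPolynomial.coe_eval₂Hom, MvPolynomial.eval₂_X, Matrix.cons_val_one]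
  exact natDegree_C_mul_X_pow_le _ _

theorem om_uu_le {f : K[X]} (hf : f.natDegree ≤ p + 1) : (om p (uu f)).natDegree ≤ p + 1 := by
  unfold uu
  rw [map_sub]
  exact (natDegree_sub_le _ _).trans (max_le (om_X1.trans (by omega))
    ((om_pe_le p f).trans hf))

theorem om_uu_ge {f : K[X]} (ha : f.coeff (p + 1) ≠ 0) : p + 1 ≤ (om p (uu f)).natDegree := by
  refine le_natDegree_of_ne_zero fun h0 => ?_
  have h2 := om_coeff p (uu f) (p + 1) (Finsupp.single 0 (p + 1))
  rw [h0, MvPolynomial.coeff_zero, if_pos (by simp), uu, MvPolynomial.coeff_sub, pe_coeff,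
    MvPolynomial.coeff_X, if_neg] at h2
  · exact ha (by simpa using h2.symm)
  · intro h3
    have := DFunLike.congr_fun h3 1
    simp at this

theorem om_pk_le (x : Fin (p + 2) → K) {f : K[X]} (hf : f.natDegree ≤ p + 1) (k : Fin (p + 2)) :
    (om p (pk x f k)).natDegree ≤ p := by
  unfold pk
  rw [map_sub]
  exact (natDegree_sub_le _ _).trans (max_le om_X1 ((om_pe_le p _).trans (fk_deg x hf k)))

theorem om_pk_ge (x : Fin (p + 2) → K) (f : K[X]) (k : Fin (p + 2)) :
    p ≤ (om p (pk x f k)).natDegree := by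
  refine le_natDegree_of_ne_zero fun h0 => ?_
  have h2 := om_coeff p (pk x f k) p (Finsupp.single 1 1)
  rw [h0, MvPolynomial.coeff_zero, if_pos (by simp), pk, MvPolynomial.coeff_sub, pe_coeff_one,
    MvPolynomial.coeff_X, if_pos rfl] at h2
  simp at h2

theorem om_vv_le (x : Fin (p + 2) → K) {f : K[X]} (hf : f.natDegree ≤ p + 1) :
    (om p (vv x f)).natDegree ≤ p + 1 := by
  have h1 := vv_sub x f 0
  rw [h1, map_add, map_mul, map_mul]
  refine (natDegree_add_le _ _).trans (max_le ?_ ?_)
  · refine natDegree_mul_le.trans ?_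
    have : (om p (MvPolynomial.C (x 0))).natDegree = 0 := by simp [om]
    rw [this, zero_add]
    exact om_uu_le hf
  · refine natDegree_mul_le.trans ?_
    have h2 : (om p (MvPolynomial.X 0 - MvPolynomial.C (x 0))).natDegree ≤ 1 := by
      rw [map_sub]
      refine (natDegree_sub_le _ _).trans (max_le om_X0 ?_)
      have : (om p (MvPolynomial.C (x 0))).natDegree = 0 := by simp [om]
      omega
    have := om_pk_le x hf 0
    omega

theorem om_C (c : K) : (om (K := K) p (MvPolynomial.C c)).natDegree = 0 := by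
  simp [om]

theorem om_N {x : Fin (p + 2) → K} {f : K[X]} (hf : f.natDegree ≤ p + 1)
    (ha : f.coeff (p + 1) ≠ 0) {N : MvPolynomial (Fin 2) K}
    (hN : uu f * N = fh x f - ∏ k, pk x f k) : (om p N).natDegree ≤ p * (p + 1) := by
  by_cases hN0 : N = 0
  · rw [hN0, map_zero, natDegree_zero]
    exact Nat.zero_le _
  have hu0 : uu f ≠ 0 := by
    intro h0
    have := om_uu_ge ha
    rw [h0, map_zero, natDegree_zero] at this
    omega
  have h1 := om_mul p hu0 hN0
  have h2 : (om p (uu f * N)).natDegree ≤ (p + 1) * (p + 1) := by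
    rw [hN, map_sub]
    refine (natDegree_sub_le _ _).trans (max_le ?_ ?_)
    · rw [fh, map_sum]
      refine natDegree_sum_le_of_forall_le _ _ fun j hj => ?_
      rw [Finset.mem_range] at hj
      rw [map_mul, map_mul, map_pow, map_pow]
      refine natDegree_mul_le.trans ?_
      rw [om_C, zero_add]
      refine natDegree_mul_le.trans ?_
      have h3 := natDegree_pow_le (p := om p (vv x f)) (n := j)
      have h4 := natDegree_pow_le (p := om p (uu f)) (n := p + 1 - j)
      have h5 : j * (om p (vv x f)).natDegree ≤ j * (p + 1) := Nat.mul_le_mul_left _ (om_vv_le x hf)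
      have h6 : (p + 1 - j) * (om p (uu f)).natDegree ≤ (p + 1 - j) * (p + 1) :=
        Nat.mul_le_mul_left _ (om_uu_le hf)
      have h7 : j * (p + 1) + (p + 1 - j) * (p + 1) = (p + 1) * (p + 1) := by
        rw [← add_mul]
        congr 1
        omega
      omega
    · rw [map_prod]
      refine (natDegree_prod_le _ _).trans ?_
      refine (Finset.sum_le_sum fun k _ => om_pk_le x hf k).trans ?_
      rw [Finset.sum_const, Finset.card_univ, Fintype.card_fin, smul_eq_mul]
      nlinarith
  have h3 := om_uu_ge ha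
  have h4 : (p + 1) * (p + 1) = p * (p + 1) + (p + 1) := by ring
  omega

end Pool.Agent.J4H37.WN
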