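import Pool.Agent.J4H37.WN.WpB

set_option autoImplicit false

/-!
# The reflections of the weighted planes `(1, p)`: orders
-/

namespace Pool.Agent.J4H37.WN

open Polynomial

variable {K : Type} [Field K] {p : ℕ}

theorem th_coeff_zero (x y : K) (h : MvPolynomial (Fin 2) K) :
    (th x y h).coeff 0 = MvPolynomial.C (MvPolynomial.eval ![x, y] h) := by
  have h1 : (constantCoeff : (MvPolynomial (Fin 2) K)[X] →+* _).comp (th x y) =
      MvPolynomial.C.comp (MvPolynomial.eval ![x, y]) := by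
    apply MvPolynomial.ringHom_ext
    · intro c
      simp [th]
    · intro i
      fin_cases i <;> simp [th]
  exact DFunLike.congr_fun h1 h

theorem X_dvd_th {x y : K} {h : MvPolynomial (Fin 2) K} :
    X ∣ th x y h ↔ MvPolynomial.eval ![x, y] h = 0 := by
  rw [X_dvd_iff, th_coeff_zero, MvPolynomial.C_eq_zero]

theorem eval_pe (x y : K) (f : K[X]) : MvPolynomial.eval ![x, y] (pe f) = f.eval x := by
  have h1 : (MvPolynomial.eval ![x, y]).comp pe = evalRingHom x := by
    apply Polynomial.ringHom_ext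
    · intro c
      simp [pe]
    · simp [pe]
  exact DFunLike.congr_fun h1 f

theorem th_line {q : K[X]} {x y : K} (h : y = q.eval x) :
    X ∣ th x y (MvPolynomial.X 1 - pe q) ∧ ¬ X ^ 2 ∣ th x y (MvPolynomial.X 1 - pe q) := by
  constructor
  · rw [X_dvd_th, map_sub, eval_pe, MvPolynomial.eval_X]
    simp [h]
  · intro h2
    obtain ⟨ε, hε⟩ : ∃ ε : (MvPolynomial (Fin 2) K)[X] →+* K[X], ε =
      eval₂RingHom (MvPolynomial.eval₂Hom C ![0, 1]) X := ⟨_, rfl⟩
    have h3 : (ε.comp (th x y)).comp pe = (C : K →+* K[X]).comp (evalRingHom x) := by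
      apply Polynomial.ringHom_ext
      · intro c
        simp [pe, th, hε]
      · simp [pe, th, hε]
    have h4 : ε (th x y (pe q)) = C y := by
      have := DFunLike.congr_fun h3 q
      rw [RingHom.comp_apply, RingHom.comp_apply, RingHom.comp_apply, coe_evalRingHom, ← h] at this
      exact this
    have h5 := map_dvd ε h2
    rw [map_sub, map_sub, h4, map_pow] at h5
    have h6 : ε (th x y (MvPolynomial.X 1)) = C y + X := by simp [th, hε]
    have h7 : ε X = X := by simp [hε]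
    rw [h6, h7, add_sub_cancel_left] at h5
    have h8 := natDegree_le_of_dvd h5 X_ne_zero
    rw [natDegree_X_pow, natDegree_X] at h8
    omega

/-! ### Removing factors -/

section strip

variable {R : Type} [CommRing R] [IsDomain R] {π : R}

theorem strip1 (hπ : Prime π) {a b : R} (ha : ¬ π ^ 2 ∣ a) {m : ℕ} (h : π ^ m ∣ a * b) :
    π ^ (m - 1) ∣ b := by
  by_cases h1 : π ∣ a
  · obtain ⟨a', rfl⟩ := h1
    have h2 : ¬ π ∣ a' := by
      rintro ⟨c, rfl⟩
      exact ha ⟨c, by ring⟩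
    rcases m with _ | m
    · simp
    · rw [pow_succ', mul_assoc] at h
      have h3 := (mul_dvd_mul_iff_left hπ.ne_zero).1 h
      rw [Nat.add_sub_cancel]
      exact hπ.pow_dvd_of_dvd_mul_left _ h2 h3
  · exact (pow_dvd_pow _ (Nat.sub_le _ _)).trans (hπ.pow_dvd_of_dvd_mul_left _ h1 h)

theorem strip (hπ : Prime π) {a b : R} (ha : ¬ π ^ 2 ∣ a) (w : ℕ) :
    ∀ {m : ℕ}, π ^ m ∣ a ^ w * b → π ^ (m - w) ∣ b := by
  induction w with
  | zero =>
    intro m h
    simpa using h
  | succ w ih =>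
    intro m h
    rw [pow_succ', mul_assoc] at h
    have h1 := ih (strip1 hπ ha h)
    rwa [Nat.sub_sub, add_comm] at h1

theorem strip_prod (hπ : Prime π) {ι : Type} (s : Finset ι) (a : ι → R) (w : ι → ℕ)
    (ha : ∀ i ∈ s, ¬ π ^ 2 ∣ a i) : ∀ {b : R} {m : ℕ}, π ^ m ∣ (∏ i ∈ s, a i ^ w i) * b →
      π ^ (m - ∑ i ∈ s, w i) ∣ b := by
  classical
  induction s using Finset.induction_on with
  | empty =>
    intro b m h
    simpa using h
  | insert i s hi ih =>
    intro b m h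
    rw [Finset.prod_insert hi, mul_assoc] at h
    have h1 := ih (fun j hj => ha j (Finset.mem_insert_of_mem hj))
      (strip hπ (ha i (Finset.mem_insert_self _ _)) _ h)
    rwa [Finset.sum_insert hi, ← Nat.sub_sub]

theorem strip_prod0 (hπ : Prime π) {ι : Type} (s : Finset ι) (a : ι → R) (w : ι → ℕ)
    (ha : ∀ i ∈ s, ¬ π ∣ a i) {b : R} {m : ℕ} (h : π ^ m ∣ (∏ i ∈ s, a i ^ w i) * b) :
      π ^ m ∣ b := by
  refine hπ.pow_dvd_of_dvd_mul_left _ ?_ h
  intro h1
  obtain ⟨i, hi, h2⟩ := (Prime.dvd_finsetProd_iff hπ _).1 h1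
  exact ha i hi (hπ.dvd_of_dvd_pow h2)

end strip

/-! ### The curves at the points -/

theorem gk_eval_ne {x : Fin (p + 2) → K} (hx : Function.Injective x) (k : Fin (p + 2)) :
    (gk x k).eval (x k) ≠ 0 := by
  rw [gk, eval_prod, Finset.prod_ne_zero_iff]
  intro j hj
  rw [eval_sub, eval_X, eval_C, sub_ne_zero]
  exact fun h => (Finset.mem_erase.1 hj).1 (hx h).symm

theorem gk_eval {x : Fin (p + 2) → K} {j k : Fin (p + 2)} (h : j ≠ k) :
    (gk x k).eval (x j) = 0 := by
  rw [gk, eval_prod, Finset.prod_eq_zero (i := j) (Finset.mem_erase.2 ⟨h, Finset.mem_univ _⟩)]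
  simp

theorem fk_eval {x : Fin (p + 2) → K} {f : K[X]} {j k : Fin (p + 2)} (h : j ≠ k) :
    (fk x f k).eval (x j) = f.eval (x j) := by
  rw [fk, eval_sub, eval_mul, gk_eval h, mul_zero, sub_zero]

theorem fk_eval_ne {x : Fin (p + 2) → K} (hx : Function.Injective x) {f : K[X]}
    (ha : f.coeff (p + 1) ≠ 0) (k : Fin (p + 2)) : f.eval (x k) ≠ (fk x f k).eval (x k) := by
  rw [fk, eval_sub, eval_mul, eval_C]
  intro h
  have : f.coeff (p + 1) * (gk x k).eval (x k) = 0 := by linear_combination h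
  exact mul_ne_zero ha (gk_eval_ne hx k) this

theorem th_pk_self {x : Fin (p + 2) → K} (hx : Function.Injective x) {f : K[X]}
    (ha : f.coeff (p + 1) ≠ 0) (k : Fin (p + 2)) : ¬ X ∣ th (x k) (f.eval (x k)) (pk x f k) := by
  rw [X_dvd_th, pk, map_sub, eval_pe, MvPolynomial.eval_X]
  have := fk_eval_ne hx ha k
  simpa [sub_eq_zero] using this

theorem th_pk {x : Fin (p + 2) → K} {f : K[X]} {j k : Fin (p + 2)} (h : j ≠ k) :
    X ∣ th (x j) (f.eval (x j)) (pk x f k) ∧ ¬ X ^ 2 ∣ th (x j) (f.eval (x j)) (pk x f k) :=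
  th_line (fk_eval h).symm

theorem th_uu {f : K[X]} {x : K} :
    X ∣ th x (f.eval x) (uu f) ∧ ¬ X ^ 2 ∣ th x (f.eval x) (uu f) := th_line rfl

theorem th_vv {x : Fin (p + 2) → K} {f : K[X]} (k : Fin (p + 2)) :
    X ∣ th (x k) (f.eval (x k)) (vv x f) := by
  rw [vv_sub x f k, map_add, map_mul, map_mul]
  refine dvd_add (Dvd.dvd.mul_left th_uu.1 _) (Dvd.dvd.mul_right ?_ _)
  rw [X_dvd_th]
  simp

theorem th_N {x : Fin (p + 2) → K} {f : K[X]} {N : MvPolynomial (Fin 2) K}
    (hN : uu f * N = fh x f - ∏ k, pk x f k) (k : Fin (p + 2)) :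
    X ^ p ∣ th (x k) (f.eval (x k)) N := by
  have h1 : X ^ (p + 1) ∣ th (x k) (f.eval (x k)) (uu f) * th (x k) (f.eval (x k)) N := by
    rw [← map_mul, hN, map_sub]
    refine dvd_sub ?_ ?_
    · rw [fh, map_sum]
      refine Finset.dvd_sum fun j hj => ?_
      rw [Finset.mem_range] at hj
      rw [map_mul, map_mul, map_pow, map_pow]
      refine Dvd.dvd.mul_left ?_ _
      have h2 := mul_dvd_mul (pow_dvd_pow_of_dvd (th_vv (x := x) (f := f) k) j)
        (pow_dvd_pow_of_dvd (th_uu (f := f) (x := x k)).1 (p + 1 - j))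
      rwa [← pow_add, show j + (p + 1 - j) = p + 1 by omega] at h2
    · rw [← Finset.mul_prod_erase _ _ (Finset.mem_univ k), map_mul, map_prod]
      refine Dvd.dvd.mul_left ?_ _
      have h2 := Finset.prod_dvd_prod_of_dvd (s := Finset.univ.erase k)
        (fun _ => (X : (MvPolynomial (Fin 2) K)[X]))
        (fun j => th (x k) (f.eval (x k)) (pk x f j)) (fun j hj =>
          (th_pk (Ne.symm (Finset.mem_erase.1 hj).1)).1)
      rw [Finset.prod_const, Finset.card_erase_of_mem (Finset.mem_univ _), Finset.card_univ,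
        Fintype.card_fin] at h2
      exact h2
  have h2 := strip1 prime_X (th_uu (f := f) (x := x k)).2 h1
  rwa [Nat.add_sub_cancel] at h2

/-! ### The contracted curves -/

theorem tc_line (q r : K[X]) : tc q (MvPolynomial.X 1 - pe r) = X + C (pe (q - r)) := by
  rw [map_sub, tc_pe, map_sub]
  have : tc q (MvPolynomial.X 1) = C (pe q) + X := by simp [tc]
  rw [this, C_sub]
  ring

theorem pe_inj : Function.Injective (pe (K := K)) := by
  rw [injective_iff_map_eq_zero]
  intro f h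
  ext n
  rw [← pe_coeff, h]
  simp

theorem tc_line_not {q r : K[X]} (h : q ≠ r) : ¬ X ∣ tc q (MvPolynomial.X 1 - pe r) := by
  rw [X_dvd_iff, tc_line, coeff_add, coeff_X_zero, zero_add, coeff_C_zero]
  intro h1
  exact h (sub_eq_zero.1 (pe_inj (h1.trans (map_zero _).symm)))

theorem fk_ne {x : Fin (p + 2) → K} (hx : Function.Injective x) {f : K[X]}
    (ha : f.coeff (p + 1) ≠ 0) {j k : Fin (p + 2)} (h : j ≠ k) : fk x f k ≠ fk x f j := by
  intro h1
  have h2 := fk_eval (x := x) (f := f) (j := j) (k := k) h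
  rw [h1] at h2
  exact fk_eval_ne hx ha j h2.symm

theorem fk_ne_f {x : Fin (p + 2) → K} {f : K[X]}
    (ha : f.coeff (p + 1) ≠ 0) (k : Fin (p + 2)) : fk x f k ≠ f := by
  rw [fk, Ne, sub_eq_self]
  exact mul_ne_zero (C_ne_zero.2 ha) (gk_monic x k).ne_zero

theorem pk_dvd {x : Fin (p + 2) → K} {f : K[X]} (hf : f.natDegree ≤ p + 1)
    {N : MvPolynomial (Fin 2) K} (hN : uu f * N = fh x f - ∏ k, pk x f k) (k : Fin (p + 2)) :
    pk x f k ∣ uu f * (N - MvPolynomial.C (f.eval (x k)) * uu f ^ p) := by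
  have h1 : uu f * (N - MvPolynomial.C (f.eval (x k)) * uu f ^ p) =
      (∑ j ∈ Finset.range (p + 2), MvPolynomial.C (f.coeff j) *
        ((vv x f ^ j - (MvPolynomial.C (x k) * uu f) ^ j) * uu f ^ (p + 1 - j))) -
      ∏ k, pk x f k := by
    have h2 : MvPolynomial.C (f.eval (x k)) * uu f ^ (p + 1) =
        ∑ j ∈ Finset.range (p + 2), MvPolynomial.C (f.coeff j) *
          ((MvPolynomial.C (x k) * uu f) ^ j * uu f ^ (p + 1 - j)) := by
      rw [eval_eq_sum_range' (n := p + 2) (by omega), map_sum, Finset.sum_mul]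
      refine Finset.sum_congr rfl fun j hj => ?_
      rw [Finset.mem_range] at hj
      rw [mul_pow, map_mul, map_pow]
      have h3 : uu f ^ (p + 1) = uu f ^ j * uu f ^ (p + 1 - j) := by
        rw [← pow_add]
        congr 1
        omega
      rw [h3]
      ring
    have h4 : uu f * (N - MvPolynomial.C (f.eval (x k)) * uu f ^ p) =
        uu f * N - MvPolynomial.C (f.eval (x k)) * uu f ^ (p + 1) := by ring
    rw [h4, h2, hN, fh]
    simp only [sub_mul, mul_sub, Finset.sum_sub_distrib]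
    ring
  rw [h1]
  refine dvd_sub (Finset.dvd_sum fun j _ => Dvd.dvd.mul_left (Dvd.dvd.mul_right ?_ _) _)
    (Finset.dvd_prod_of_mem _ (Finset.mem_univ k))
  refine Dvd.dvd.trans ?_ (sub_dvd_pow_sub_pow _ _ j)
  rw [vv_sub x f k, add_sub_cancel_left]
  exact Dvd.intro_left _ rfl

theorem tc_N {x : Fin (p + 2) → K} {f : K[X]} (hf : f.natDegree ≤ p + 1)
    (ha : f.coeff (p + 1) ≠ 0)
    {N : MvPolynomial (Fin 2) K} (hN : uu f * N = fh x f - ∏ k, pk x f k) (k : Fin (p + 2)) :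
    X ∣ tc (fk x f k) (N - MvPolynomial.C (f.eval (x k)) * uu f ^ p) := by
  have h1 := map_dvd (tc (fk x f k)) (pk_dvd hf hN k)
  rw [pk, tc_line, sub_self, map_zero, map_zero, add_zero, map_mul] at h1
  exact (prime_X.dvd_or_dvd h1).resolve_left (tc_line_not (fk_ne_f ha k))

/-! ### The transform -/

/-- `∑ c_{a b} V ^ a N ^ b U ^ (B - a - p b)`. -/
noncomputable def hs (p B : ℕ) (V N U h : MvPolynomial (Fin 2) K) : MvPolynomial (Fin 2) K :=
  ∑ s ∈ h.support, MvPolynomial.C (MvPolynomial.coeff s h) *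
    (V ^ s 0 * N ^ s 1 * U ^ (B - (s 0 + p * s 1)))

theorem hs_map {R : Type} [CommRing R] (φ : MvPolynomial (Fin 2) K →+* R) {B : ℕ}
    {V N U h : MvPolynomial (Fin 2) K} {ui : R} (hu : φ U * ui = 1)
    (hB : ∀ s ∈ h.support, s 0 + p * s 1 ≤ B) : φ (hs p B V N U h) = φ U ^ B *
      MvPolynomial.eval₂Hom (φ.comp MvPolynomial.C) ![φ V * ui, φ N * ui ^ p] h := by
  rw [hs, map_sum, MvPolynomial.coe_eval₂Hom, MvPolynomial.eval₂_eq', Finset.mul_sum]
  refine Finset.sum_congr rfl fun s hs => ?_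
  have h1 := hB s hs
  rw [Fin.prod_univ_two, map_mul, map_mul, map_mul, map_pow, map_pow, map_pow,
    RingHom.comp_apply]
  simp only [Matrix.cons_val_zero, Matrix.cons_val_one]
  have h2 : φ U ^ B = φ U ^ (B - (s 0 + p * s 1)) * (φ U ^ s 0 * (φ U ^ p) ^ s 1) := by
    rw [← pow_mul, ← pow_add, ← pow_add]
    congr 1
    omega
  have h3 : φ U ^ s 0 * ui ^ s 0 = 1 := by rw [← mul_pow, hu, one_pow]
  have h4 : (φ U ^ p) ^ s 1 * (ui ^ p) ^ s 1 = 1 := by
    rw [← mul_pow, ← mul_pow, hu, one_pow, one_pow]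
  rw [h2, mul_pow, mul_pow]
  linear_combination (-(φ (MvPolynomial.C (MvPolynomial.coeff s h)) * φ V ^ s 0 * φ N ^ s 1 *
    φ U ^ (B - (s 0 + p * s 1)) * ((φ U ^ p) ^ s 1 * (ui ^ p) ^ s 1))) * h3 -
    (φ (MvPolynomial.C (MvPolynomial.coeff s h)) * φ V ^ s 0 * φ N ^ s 1 *
    φ U ^ (B - (s 0 + p * s 1))) * h4

theorem place {R : Type} [CommRing R] (φ : MvPolynomial (Fin 2) K →+* R) {T A A' : R} {z y : K}
    {B : ℕ} {V N U h : MvPolynomial (Fin 2) K} (hu : IsUnit (φ U))
    (hv : φ V = φ (MvPolynomial.C z) * φ U + A * T)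
    (hN : φ N = φ (MvPolynomial.C y) * φ U ^ p + A' * T) {w : ℕ} (hw : X ^ w ∣ th z y h)
    (hB : ∀ s ∈ h.support, s 0 + p * s 1 ≤ B) : T ^ w ∣ φ (hs p B V N U h) := by
  obtain ⟨ui, hui⟩ := hu.exists_right_inv
  rw [hs_map φ hui hB]
  refine Dvd.dvd.mul_left ?_ _
  refine th_dvd _ (A := A * ui) (B := A' * ui ^ p) ?_ ?_ hw
  · simp only [MvPolynomial.coe_eval₂Hom, MvPolynomial.eval₂_X, MvPolynomial.eval₂_C,
      Matrix.cons_val_zero, RingHom.comp_apply]
    rw [hv]
    linear_combination φ (MvPolynomial.C z) * hui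
  · simp only [MvPolynomial.coe_eval₂Hom, MvPolynomial.eval₂_X, MvPolynomial.eval₂_C,
      Matrix.cons_val_one, Matrix.cons_val_zero, Matrix.cons_val_fin_one, RingHom.comp_apply]
    rw [hN]
    have h3 : φ U ^ p * ui ^ p = 1 := by rw [← mul_pow, hui, one_pow]
    linear_combination φ (MvPolynomial.C y) * h3

/-- Power series over the fraction field. -/
noncomputable def ips : (MvPolynomial (Fin 2) K)[X] →+*
    PowerSeries (FractionRing (MvPolynomial (Fin 2) K)) :=
  coeToPowerSeries.ringHom.comp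
    (mapRingHom (algebraMap (MvPolynomial (Fin 2) K) (FractionRing (MvPolynomial (Fin 2) K))))

theorem ips_coeff (q : (MvPolynomial (Fin 2) K)[X]) (n : ℕ) :
    PowerSeries.coeff n (ips q) = algebraMap _ _ (q.coeff n) := by
  simp [ips]

theorem ips_dvd {q : (MvPolynomial (Fin 2) K)[X]} {w : ℕ} (h : PowerSeries.X ^ w ∣ ips q) :
    X ^ w ∣ q := by
  rw [PowerSeries.X_pow_dvd_iff] at h
  rw [X_pow_dvd_iff]
  intro d hd
  have h1 := h d hd
  rw [ips_coeff] at h1
  exact (map_eq_zero_iff _ (IsFractionRing.injective _ _)).1 h1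

theorem ips_unit {q : (MvPolynomial (Fin 2) K)[X]} (h : ¬ X ∣ q) : IsUnit (ips q) := by
  rw [PowerSeries.isUnit_iff_constantCoeff, ← PowerSeries.coeff_zero_eq_constantCoeff_apply,
    ips_coeff, isUnit_iff_ne_zero]
  intro h1
  exact h (X_dvd_iff.2 ((map_eq_zero_iff _ (IsFractionRing.injective _ _)).1 h1))

theorem ips_X : ips (K := K) X = PowerSeries.X := by
  simp [ips]

/-- Transfer of orders along a homomorphism to polynomials in `T`. -/
theorem place_poly (φ : MvPolynomial (Fin 2) K →+* (MvPolynomial (Fin 2) K)[X]) {z y : K}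
    {B : ℕ} {V N U h : MvPolynomial (Fin 2) K} (hu : ¬ X ∣ φ U)
    (hv : X ∣ φ (V - MvPolynomial.C z * U)) (hN : X ∣ φ (N - MvPolynomial.C y * U ^ p))
    {w : ℕ} (hw : X ^ w ∣ th z y h)
    (hB : ∀ s ∈ h.support, s 0 + p * s 1 ≤ B) : X ^ w ∣ φ (hs p B V N U h) := by
  apply ips_dvd
  obtain ⟨A, hA⟩ := hv
  obtain ⟨A', hA'⟩ := hN
  rw [map_sub, map_mul] at hA
  rw [map_sub, map_mul, map_pow] at hA'
  have h1 : φ V = φ (MvPolynomial.C z) * φ U + A * X := by linear_combination hA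
  have h2 : φ N = φ (MvPolynomial.C y) * φ U ^ p + A' * X := by linear_combination hA'
  have h3 := place (ips.comp φ) (T := PowerSeries.X) (A := ips A) (A' := ips A') (z := z) (y := y)
    (B := B) (V := V) (N := N) (U := U) (h := h) (p := p) (ips_unit hu) (by
      rw [RingHom.comp_apply, h1, map_add, map_mul, map_mul, ips_X]
      rfl) (by
      rw [RingHom.comp_apply, h2, map_add, map_mul, map_mul, map_pow, ips_X]
      rfl) hw hB
  exact h3

end Pool.Agent.J4H37.WN
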