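import Pool.Agent.J4H37.WN.WpC

set_option autoImplicit false

/-!
# The reflections of the weighted planes `(1, p)`: the transformation of polynomials
-/

namespace Pool.Agent.J4H37.WN

open Polynomial

variable {K : Type} [Field K] {p : ℕ}

theorem rel {E : Type} [Field E] (φ : MvPolynomial (Fin 2) K →+* E) {x : Fin (p + 2) → K}
    {f : K[X]} (hf : f.natDegree ≤ p + 1) {N : MvPolynomial (Fin 2) K}
    (hN : uu f * N = fh x f - ∏ k, pk x f k) {z y : E} (hu : φ (uu f) ≠ 0)
    (hG : φ (pe (gg x)) ≠ 0) (hz : z * φ (uu f) = φ (vv x f)) (hy : y * φ (uu f) ^ p = φ N) :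
    (y - eval₂ (φ.comp MvPolynomial.C) z f) * (φ (MvPolynomial.X 0) - z) =
      φ (MvPolynomial.C (f.coeff (p + 1))) * eval₂ (φ.comp MvPolynomial.C) z (gg x) := by
  obtain ⟨u, hu'⟩ : ∃ u, u = φ (uu f) := ⟨_, rfl⟩
  obtain ⟨F, hF⟩ : ∃ F, F = eval₂ (φ.comp MvPolynomial.C) z f := ⟨_, rfl⟩
  obtain ⟨G, hG'⟩ : ∃ G, G = eval₂ (φ.comp MvPolynomial.C) z (gg x) := ⟨_, rfl⟩
  obtain ⟨G0, hG0⟩ : ∃ G0, G0 = φ (pe (gg x)) := ⟨_, rfl⟩
  rw [← hu'] at hu hz hy
  rw [← hG0] at hG
  have h1 : φ (fh x f) = u ^ (p + 1) * F := by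
    rw [hF, eval₂_eq_sum_range' _ (n := p + 2) (by omega), fh, map_sum, Finset.mul_sum]
    refine Finset.sum_congr rfl fun j hj => ?_
    rw [Finset.mem_range] at hj
    rw [map_mul, map_mul, map_pow, map_pow, ← hz, ← hu', RingHom.comp_apply, mul_pow]
    have h3 : u ^ (p + 1) = u ^ j * u ^ (p + 1 - j) := by
      rw [← pow_add]
      congr 1
      omega
    rw [h3]
    ring
  have h2 : G0 * φ (∏ k, pk x f k) = u ^ (p + 2) * G := by
    have h3 : G0 = ∏ k, (φ (MvPolynomial.X 0) - φ (MvPolynomial.C (x k))) := by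
      rw [hG0, gg, map_prod, map_prod]
      refine Finset.prod_congr rfl fun k _ => ?_
      rw [map_sub, pe_X, pe_C, map_sub]
    have h4 : G = ∏ k, (z - φ (MvPolynomial.C (x k))) := by
      rw [hG', gg, ← coe_eval₂RingHom, map_prod]
      refine Finset.prod_congr rfl fun k _ => ?_
      simp
    have h5 : u ^ (p + 2) = ∏ _k : Fin (p + 2), u := by
      rw [Finset.prod_const, Finset.card_univ, Fintype.card_fin]
    rw [h3, h4, h5, map_prod, ← Finset.prod_mul_distrib, ← Finset.prod_mul_distrib]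
    refine Finset.prod_congr rfl fun k _ => ?_
    have h6 := congrArg φ (vv_sub x f k)
    rw [← hz, map_add, map_mul, map_mul, map_sub, ← hu'] at h6
    linear_combination -h6
  have h3 : u * φ N = u ^ (p + 1) * F - φ (∏ k, pk x f k) := by
    rw [← h1, ← map_sub, ← hN, map_mul, hu']
  have h4 : G0 * (y - F) = -(u * G) := by
    have h5 : u ^ (p + 1) * (G0 * (y - F)) = u ^ (p + 1) * (-(u * G)) := by
      rw [← hy] at h3
      linear_combination G0 * h3 - h2
    exact mul_left_cancel₀ (pow_ne_zero _ hu) h5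
  have h5 : (φ (MvPolynomial.X 0) - z) * u = -(φ (MvPolynomial.C (f.coeff (p + 1))) * G0) := by
    have h6 : φ (vv x f) = φ (MvPolynomial.X 0) * u + φ (MvPolynomial.C (f.coeff (p + 1))) * G0 := by
      rw [vv, map_add, map_mul, map_mul, ← hu', ← hG0]
    rw [← hz] at h6
    linear_combination -h6
  rw [← hF, ← hG']
  have h6 : (G0 * u) * ((y - F) * (φ (MvPolynomial.X 0) - z)) =
      (G0 * u) * (φ (MvPolynomial.C (f.coeff (p + 1))) * G) := by
    linear_combination ((φ (MvPolynomial.X 0) - z) * u) * h4 - (u * G) * h5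
  exact mul_left_cancel₀ (mul_ne_zero hG hu) h6

theorem inverse_mem {E : Type} [Field E] (L : Subfield E) {a X0 Y0 z y : E} (F G : E → E)
    (hF : ∀ t ∈ L, F t ∈ L) (hG : ∀ t ∈ L, G t ∈ L) (ha : a ∈ L) (hz : z ∈ L) (hy : y ∈ L)
    (r1 : (y - F z) * (X0 - z) = a * G z) (r2 : (Y0 - F X0) * (z - X0) = a * G X0)
    (h1 : y - F z ≠ 0) (h2 : z - X0 ≠ 0) : X0 ∈ L ∧ Y0 ∈ L := by
  have h3 : X0 = z + a * G z / (y - F z) := by
    rw [← r1, mul_div_cancel_left₀ _ h1]
    ring
  have h4 : X0 ∈ L := by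
    rw [h3]
    exact add_mem hz (div_mem (mul_mem ha (hG z hz)) (sub_mem hy (hF z hz)))
  refine ⟨h4, ?_⟩
  have h5 : Y0 = F X0 + a * G X0 / (z - X0) := by
    rw [← r2, mul_div_cancel_right₀ _ h2]
    ring
  rw [h5]
  exact add_mem (hF _ h4) (div_mem (mul_mem ha (hG _ h4)) (sub_mem hz h4))

theorem pk_ne (x : Fin (p + 2) → K) (f : K[X]) (k : Fin (p + 2)) : pk x f k ≠ 0 := by
  intro h0
  have h2 := congrArg (MvPolynomial.coeff (Finsupp.single 1 1)) h0
  rw [pk, MvPolynomial.coeff_sub, pe_coeff_one, MvPolynomial.coeff_X, if_pos rfl] at h2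
  simp at h2

theorem uu_ne {f : K[X]} (ha : f.coeff (p + 1) ≠ 0) : uu f ≠ 0 := by
  intro h0
  have := om_uu_ge ha
  rw [h0, map_zero, natDegree_zero] at this
  omega

/-- The transform is not zero. -/
theorem hs_ne {x : Fin (p + 2) → K} {f : K[X]} (hf : f.natDegree ≤ p + 1)
    (ha : f.coeff (p + 1) ≠ 0) {N : MvPolynomial (Fin 2) K}
    (hN : uu f * N = fh x f - ∏ k, pk x f k) {h : MvPolynomial (Fin 2) K} (h0 : h ≠ 0) {B : ℕ}
    (hB : ∀ s ∈ h.support, s 0 + p * s 1 ≤ B) : hs p B (vv x f) N (uu f) h ≠ 0 := by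
  obtain ⟨E, hE⟩ : ∃ E, E = FractionRing (MvPolynomial (Fin 2) K) := ⟨_, rfl⟩
  subst hE
  obtain ⟨φ, hφ⟩ : ∃ φ : MvPolynomial (Fin 2) K →+* FractionRing (MvPolynomial (Fin 2) K),
    φ = algebraMap _ _ := ⟨_, rfl⟩
  have hinj : Function.Injective φ := by
    rw [hφ]
    exact IsFractionRing.injective _ _
  have hu : φ (uu f) ≠ 0 := (map_ne_zero_iff _ hinj).2 (uu_ne ha)
  have hG : φ (pe (gg x)) ≠ 0 := (map_ne_zero_iff _ hinj).2
    ((map_ne_zero_iff _ pe_inj).2 (gg_ne x))
  obtain ⟨z, hz⟩ : ∃ z, z = φ (vv x f) * (φ (uu f))⁻¹ := ⟨_, rfl⟩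
  obtain ⟨y, hy⟩ : ∃ y, y = φ N * (φ (uu f))⁻¹ ^ p := ⟨_, rfl⟩
  have hz' : z * φ (uu f) = φ (vv x f) := by
    rw [hz, mul_assoc, inv_mul_cancel₀ hu, mul_one]
  have hy' : y * φ (uu f) ^ p = φ N := by
    rw [hy, mul_assoc, ← mul_pow, inv_mul_cancel₀ hu, one_pow, mul_one]
  have hσ : φ.comp MvPolynomial.C = algebraMap K (FractionRing (MvPolynomial (Fin 2) K)) := by
    rw [hφ, IsScalarTower.algebraMap_eq K (MvPolynomial (Fin 2) K)
      (FractionRing (MvPolynomial (Fin 2) K)), MvPolynomial.algebraMap_eq]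
  have r1 := rel φ hf hN hu hG hz' hy'
  have r2 : (φ (MvPolynomial.X 1) - eval₂ (φ.comp MvPolynomial.C) (φ (MvPolynomial.X 0)) f) *
      (z - φ (MvPolynomial.X 0)) = φ (MvPolynomial.C (f.coeff (p + 1))) *
        eval₂ (φ.comp MvPolynomial.C) (φ (MvPolynomial.X 0)) (gg x) := by
    have h1 : ∀ q : K[X], eval₂ (φ.comp MvPolynomial.C) (φ (MvPolynomial.X 0)) q = φ (pe q) := by
      intro q
      rw [pe, coe_eval₂RingHom, hom_eval₂]
    rw [h1, h1]
    have h2 : φ (MvPolynomial.X 1) - φ (pe f) = φ (uu f) := by rw [uu, map_sub]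
    rw [h2]
    have h3 : φ (vv x f) = φ (MvPolynomial.X 0) * φ (uu f) +
        φ (MvPolynomial.C (f.coeff (p + 1))) * φ (pe (gg x)) := by
      rw [vv, map_add, map_mul, map_mul]
    rw [← hz'] at h3
    linear_combination h3
  have hcon : ∀ k, z - φ (MvPolynomial.C (x k)) ≠ 0 := by
    intro k h1
    have h6 := congrArg φ (vv_sub x f k)
    rw [← hz', map_add, map_mul, map_mul, map_sub] at h6
    have h7 : (φ (MvPolynomial.X 0) - φ (MvPolynomial.C (x k))) * φ (pk x f k) = 0 := by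
      linear_combination (φ (uu f)) * h1 - h6
    rcases mul_eq_zero.1 h7 with h8 | h8
    · rw [← map_sub] at h8
      have h9 := (map_eq_zero_iff _ hinj).1 h8
      have h10 : (pe (X - C (x k)) : MvPolynomial (Fin 2) K) = 0 := by
        rw [map_sub, pe_X, pe_C, h9]
      exact X_sub_C_ne_zero _ ((map_eq_zero_iff _ pe_inj).1 h10)
    · exact pk_ne x f k ((map_eq_zero_iff _ hinj).1 h8)
  have hgz : eval₂ (φ.comp MvPolynomial.C) z (gg x) ≠ 0 := by
    rw [gg, ← coe_eval₂RingHom, map_prod, Finset.prod_ne_zero_iff]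
    intro k _
    simpa using hcon k
  have haz : φ (MvPolynomial.C (f.coeff (p + 1))) ≠ 0 :=
    (map_ne_zero_iff _ hinj).2 (MvPolynomial.C_ne_zero.2 ha)
  have hprod := mul_ne_zero haz hgz
  rw [← r1] at hprod
  have hne1 := (mul_ne_zero_iff.1 hprod).1
  have hne2 : z - φ (MvPolynomial.X 0) ≠ 0 := by
    intro h1
    exact (mul_ne_zero_iff.1 hprod).2 (by linear_combination -h1)
  have hx : AlgebraicIndependent K (fun i : Fin 2 => φ (MvPolynomial.X i)) := by
    rw [hφ]
    have h1 := MvPolynomial.algebraicIndependent_X (Fin 2) K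
    exact h1.map' (f := IsScalarTower.toAlgHom K (MvPolynomial (Fin 2) K)
      (FractionRing (MvPolynomial (Fin 2) K))) (IsFractionRing.injective _ _)
  have hmem : ∀ i : Fin 2, φ (MvPolynomial.X i) ∈ IntermediateField.adjoin K (Set.range ![z, y]) := by
    obtain ⟨L, hL⟩ : ∃ L, L = IntermediateField.adjoin K (Set.range ![z, y]) := ⟨_, rfl⟩
    rw [← hL]
    have hzL : z ∈ L := by
      rw [hL]
      exact IntermediateField.subset_adjoin K _ ⟨0, rfl⟩
    have hyL : y ∈ L := by
      rw [hL]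
      exact IntermediateField.subset_adjoin K _ ⟨1, rfl⟩
    have hcl : ∀ (q : K[X]), ∀ t ∈ L.toSubfield, eval₂ (φ.comp MvPolynomial.C) t q ∈
        L.toSubfield := by
      intro q t ht
      rw [hσ]
      change aeval t q ∈ L
      have h1 := aeval_algebraMap_apply (A := L) (FractionRing (MvPolynomial (Fin 2) K))
        (⟨t, ht⟩ : L) q
      have h2 : algebraMap L (FractionRing (MvPolynomial (Fin 2) K)) ⟨t, ht⟩ = t := rfl
      rw [h2] at h1
      rw [h1]
      exact (aeval (⟨t, ht⟩ : L) q).2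
    have h3 := inverse_mem L.toSubfield (fun t => eval₂ (φ.comp MvPolynomial.C) t f)
      (fun t => eval₂ (φ.comp MvPolynomial.C) t (gg x)) (hcl f) (hcl (gg x)) (by
        have : φ (MvPolynomial.C (f.coeff (p + 1))) =
            algebraMap K (FractionRing (MvPolynomial (Fin 2) K)) (f.coeff (p + 1)) := by
          rw [← hσ]
          rfl
        rw [this]
        exact L.algebraMap_mem _) hzL hyL r1 r2 hne1 hne2
    intro i
    fin_cases i
    · exact h3.1
    · exact h3.2
  have hind := Pool.Agent.W816.CR.trd_aux K (FractionRing (MvPolynomial (Fin 2) K)) (Fin 2) _ _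
    hx hmem
  intro hs0
  have h1 := hs_map φ (B := B) (V := vv x f) (N := N) (U := uu f) (h := h) (p := p)
    (ui := (φ (uu f))⁻¹) (mul_inv_cancel₀ hu) hB
  rw [hs0, map_zero, ← hz, ← hy] at h1
  have h2 := (mul_eq_zero.1 h1.symm).resolve_left (pow_ne_zero _ hu)
  have h3 : MvPolynomial.aeval ![z, y] h = 0 := by
    rw [MvPolynomial.aeval_def, ← hσ]
    exact h2
  exact h0 (hind.eq_zero_of_aeval_eq_zero h h3)

/-- **The transformation.** -/
theorem transform {x : Fin (p + 2) → K} (hx : Function.Injective x) {f : K[X]}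
    (hf : f.natDegree ≤ p + 1) (ha : f.coeff (p + 1) ≠ 0) {N : MvPolynomial (Fin 2) K}
    (hN : uu f * N = fh x f - ∏ k, pk x f k) {h : MvPolynomial (Fin 2) K} (h0 : h ≠ 0) {B : ℕ}
    (hB : ∀ s ∈ h.support, s 0 + p * s 1 ≤ B) (w : Fin (p + 2) → ℕ)
    (hw : ∀ k, X ^ w k ∣ th (x k) (f.eval (x k)) h) :
    ∃ q : MvPolynomial (Fin 2) K, q ≠ 0 ∧
      (om p q).natDegree + p * ∑ k, w k ≤ (p + 1) * B ∧
      (∀ k, X ^ (B - ∑ j ∈ Finset.univ.erase k, w j) ∣ th (x k) (f.eval (x k)) q) ∧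
      ∀ (X0 Y0 z y : K) (m : ℕ), Y0 ≠ f.eval X0 →
        z * (Y0 - f.eval X0) = X0 * (Y0 - f.eval X0) + f.coeff (p + 1) * (gg x).eval X0 →
        y * (Y0 - f.eval X0) ^ p = MvPolynomial.eval ![X0, Y0] N →
        (∀ k, Y0 ≠ (fk x f k).eval X0) → X ^ m ∣ th z y h → X ^ m ∣ th X0 Y0 q := by
  classical
  obtain ⟨H, hH⟩ : ∃ H, H = hs p B (vv x f) N (uu f) h := ⟨_, rfl⟩
  have hH0 : H ≠ 0 := hH ▸ hs_ne hf ha hN h0 hB
  -- divisibility
  have hdiv : ∀ J : Finset (Fin (p + 2)), (∏ j ∈ J, pk x f j ^ w j) ∣ H := by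
    intro J
    induction J using Finset.induction_on with
    | empty => simp
    | insert k J hk ih =>
      obtain ⟨q, hq⟩ := ih
      have h1 : X ^ w k ∣ tc (fk x f k) H := by
        rw [hH]
        refine place_poly (tc (fk x f k)) (z := x k) (y := f.eval (x k)) (V := vv x f) (N := N)
          (U := uu f) (tc_line_not (fk_ne_f ha k)) ?_ (tc_N hf ha hN k) (hw k) hB
        rw [vv_sub x f k, add_sub_cancel_left, map_mul]
        have h2 : tc (fk x f k) (pk x f k) = X := by
          rw [pk, tc_line, sub_self, map_zero, map_zero, add_zero]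
        rw [h2]
        exact Dvd.intro_left _ rfl
      rw [hq, map_mul, map_prod] at h1
      have h2 : X ^ w k ∣ tc (fk x f k) q := by
        refine strip_prod0 prime_X J (fun j => tc (fk x f k) (pk x f j)) w ?_ (by
          simpa only [map_pow] using h1)
        intro j hj
        exact tc_line_not (fk_ne hx ha (fun h => hk (h ▸ hj)))
      rw [Finset.prod_insert hk, hq, mul_comm]
      exact mul_dvd_mul_left _ (tc_dvd _ _ _ h2)
  obtain ⟨q, hq⟩ := hdiv Finset.univ
  have hq0 : q ≠ 0 := by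
    rintro rfl
    exact hH0 (by rw [hq, mul_zero])
  have hP0 : (∏ j, pk x f j ^ w j) ≠ 0 :=
    Finset.prod_ne_zero_iff.2 fun j _ => pow_ne_zero _ (pk_ne x f j)
  refine ⟨q, hq0, ?_, ?_, ?_⟩
  · have h1 : (om p H).natDegree ≤ (p + 1) * B := by
      rw [hH, hs, map_sum]
      refine natDegree_sum_le_of_forall_le _ _ fun s hs => ?_
      rw [map_mul, map_mul, map_mul, map_pow, map_pow, map_pow]
      refine natDegree_mul_le.trans ?_
      rw [om_C, zero_add]
      refine natDegree_mul_le.trans ?_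
      have h2 : (om p (vv x f) ^ s 0 * om p N ^ s 1).natDegree ≤
          s 0 * (p + 1) + s 1 * (p * (p + 1)) :=
        natDegree_mul_le.trans (add_le_add
          (natDegree_pow_le.trans (Nat.mul_le_mul_left _ (om_vv_le x hf)))
          (natDegree_pow_le.trans (Nat.mul_le_mul_left _ (om_N hf ha hN))))
      have h3 : (om p (uu f) ^ (B - (s 0 + p * s 1))).natDegree ≤
          (B - (s 0 + p * s 1)) * (p + 1) :=
        natDegree_pow_le.trans (Nat.mul_le_mul_left _ (om_uu_le hf))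
      have h4 := hB s hs
      obtain ⟨r, hr⟩ := Nat.exists_eq_add_of_le h4
      have h5 : B - (s 0 + p * s 1) = r := by omega
      rw [h5] at h3 ⊢
      rw [hr]
      nlinarith
    rw [hq, om_mul p hP0 hq0] at h1
    have h2 : ∀ J : Finset (Fin (p + 2)), p * ∑ j ∈ J, w j ≤
        (om p (∏ j ∈ J, pk x f j ^ w j)).natDegree := by
      intro J
      induction J using Finset.induction_on with
      | empty => simp
      | insert k J hk ih =>
        rw [Finset.sum_insert hk, Finset.prod_insert hk, om_mul p (pow_ne_zero _ (pk_ne x f k))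
          (Finset.prod_ne_zero_iff.2 fun j _ => pow_ne_zero _ (pk_ne x f j)), map_pow,
          natDegree_pow, mul_add]
        have h3 := Nat.mul_le_mul_left (w k) (om_pk_ge x f k)
        have h4 : p * w k = w k * p := mul_comm _ _
        omega
    have h3 := h2 Finset.univ
    omega
  · intro k
    have h1 : X ^ B ∣ th (x k) (f.eval (x k)) H := by
      rw [hH, hs, map_sum]
      refine Finset.dvd_sum fun s hs => ?_
      rw [map_mul, map_mul, map_mul, map_pow, map_pow, map_pow]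
      refine Dvd.dvd.mul_left ?_ _
      have h2 := mul_dvd_mul (mul_dvd_mul (pow_dvd_pow_of_dvd (th_vv (x := x) (f := f) k) (s 0))
        (pow_dvd_pow_of_dvd (th_N hN k) (s 1)))
        (pow_dvd_pow_of_dvd (th_uu (f := f) (x := x k)).1 (B - (s 0 + p * s 1)))
      rw [← pow_mul, ← pow_add, ← pow_add] at h2
      have h3 := hB s hs
      rwa [show s 0 + p * s 1 + (B - (s 0 + p * s 1)) = B by omega] at h2
    rw [hq, ← Finset.mul_prod_erase _ _ (Finset.mem_univ k), mul_assoc, map_mul, map_pow] at h1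
    have h2 := prime_X.pow_dvd_of_dvd_mul_left _ (fun h3 => th_pk_self hx ha k
      (prime_X.dvd_of_dvd_pow h3)) h1
    rw [map_mul, map_prod] at h2
    refine strip_prod prime_X (Finset.univ.erase k) (fun j => th (x k) (f.eval (x k)) (pk x f j)) w
      ?_ (by simpa only [map_pow] using h2)
    intro j hj
    exact (th_pk (Ne.symm (Finset.mem_erase.1 hj).1)).2
  · intro X0 Y0 z y m h1 h2 h3 h4 h5
    have h6 : X ^ m ∣ th X0 Y0 H := by
      rw [hH]
      refine place_poly (th X0 Y0) (z := z) (y := y) ?_ ?_ ?_ h5 hB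
      · rw [X_dvd_th, uu, map_sub, eval_pe, MvPolynomial.eval_X]
        simpa [sub_eq_zero] using h1
      · rw [X_dvd_th, vv, uu]
        simp only [map_sub, map_add, map_mul, eval_pe, MvPolynomial.eval_X, MvPolynomial.eval_C,
          Matrix.cons_val_zero, Matrix.cons_val_one, Matrix.cons_val_fin_one]
        linear_combination -h2
      · rw [X_dvd_th, uu]
        simp only [map_sub, map_mul, map_pow, eval_pe, MvPolynomial.eval_X, MvPolynomial.eval_C,
          Matrix.cons_val_one, Matrix.cons_val_fin_one]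
        linear_combination -h3
    rw [hq, map_mul, map_prod] at h6
    refine strip_prod0 prime_X Finset.univ (fun j => th X0 Y0 (pk x f j)) w ?_ (by
      simpa only [map_pow] using h6)
    intro j _
    rw [X_dvd_th, pk, map_sub, eval_pe, MvPolynomial.eval_X]
    simpa [sub_eq_zero] using h4 j

end Pool.Agent.J4H37.WN
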