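import Pool.Agent.J4H37.WN.WpD
import Pool.Agent.J4H37.WN.Ray

set_option autoImplicit false

/-!
# The reflections of the weighted planes `(1, p)`: generic points
-/

namespace Pool.Agent.J4H37.WN

open Polynomial

variable {p : ℕ}

/-- The interpolation polynomial. -/
noncomputable def itp {K : Type} [Field K] (x y : Fin (p + 2) → K) : K[X] :=
  ∑ k, C (y k * (∏ j ∈ Finset.univ.erase k, (x k - x j))⁻¹) * gk x k

theorem itp_deg {K : Type} [Field K] (x y : Fin (p + 2) → K) : (itp x y).natDegree ≤ p + 1 := by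
  refine natDegree_sum_le_of_forall_le _ _ fun k _ => ?_
  refine (natDegree_C_mul_le _ _).trans ?_
  rw [gk_deg]

theorem itp_coeff {K : Type} [Field K] (x y : Fin (p + 2) → K) :
    (itp x y).coeff (p + 1) = ∑ k, y k * (∏ j ∈ Finset.univ.erase k, (x k - x j))⁻¹ := by
  rw [itp, finsetSum_coeff]
  refine Finset.sum_congr rfl fun k _ => ?_
  rw [coeff_C_mul]
  have h3 : (gk x k).coeff (p + 1) = 1 := by
    have := (gk_monic x k).coeff_natDegree
    rwa [gk_deg] at this
  rw [h3, mul_one]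

theorem itp_eval {K : Type} [Field K] {x : Fin (p + 2) → K} (hx : Function.Injective x)
    (y : Fin (p + 2) → K) (k : Fin (p + 2)) : (itp x y).eval (x k) = y k := by
  rw [itp, eval_finsetSum, Finset.sum_eq_single k]
  · rw [eval_mul, eval_C, mul_assoc]
    have h1 : (gk x k).eval (x k) = ∏ j ∈ Finset.univ.erase k, (x k - x j) := by
      rw [gk, eval_prod]
      simp
    rw [h1, inv_mul_cancel₀, mul_one]
    rw [← h1]
    exact gk_eval_ne hx k
  · intro j _ hj
    rw [eval_mul, gk_eval (Ne.symm hj), mul_zero]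
  · intro h
    exact absurd (Finset.mem_univ k) h

section closure

variable {K : Type} [Field K] (L : Subfield K) {x y : Fin (p + 2) → K} (hx : ∀ k, x k ∈ L)
  (hy : ∀ k, y k ∈ L)

include hx

theorem gk_mem (k : Fin (p + 2)) {t : K} (ht : t ∈ L) : (gk x k).eval t ∈ L := by
  rw [gk, eval_prod]
  refine prod_mem fun j _ => ?_
  rw [eval_sub, eval_X, eval_C]
  exact sub_mem ht (hx j)

theorem gg_mem {t : K} (ht : t ∈ L) : (gg x).eval t ∈ L := by
  rw [gg, eval_prod]
  refine prod_mem fun j _ => ?_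
  rw [eval_sub, eval_X, eval_C]
  exact sub_mem ht (hx j)

include hy

theorem itp_mem {t : K} (ht : t ∈ L) : (itp x y).eval t ∈ L := by
  rw [itp, eval_finsetSum]
  refine sum_mem fun k _ => ?_
  rw [eval_mul, eval_C]
  exact mul_mem (mul_mem (hy k) (inv_mem (prod_mem fun j _ => sub_mem (hx k) (hx j))))
    (gk_mem L hx k ht)

theorem itp_coeff_mem : (itp x y).coeff (p + 1) ∈ L := by
  rw [itp_coeff]
  exact sum_mem fun k _ => mul_mem (hy k) (inv_mem (prod_mem fun j _ => sub_mem (hx k) (hx j)))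

theorem fk_mem (k : Fin (p + 2)) {t : K} (ht : t ∈ L) : (fk x (itp x y) k).eval t ∈ L := by
  rw [fk, eval_sub, eval_mul, eval_C]
  exact sub_mem (itp_mem L hx hy ht) (mul_mem (itp_coeff_mem L hx hy) (gk_mem L hx k ht))

end closure

/-- A member of an algebraically independent family is not in the field of the others. -/
theorem not_mem_others {K : Type} [Field K] [CharZero K] {ι : Type} [Fintype ι] [DecidableEq ι]
    {q : ι → K} (hq : AlgebraicIndependent ℚ q) (i : ι) :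
    q i ∉ IntermediateField.adjoin ℚ (Set.range (Function.update q i 0)) := by
  intro h
  have h1 := Pool.Agent.W816.CR.t_trd K ι q (Function.update q i 0) hq (fun j => by
    by_cases hj : j = i
    · rw [hj]
      exact h
    · refine IntermediateField.subset_adjoin ℚ _ ⟨j, ?_⟩
      rw [Function.update_of_ne hj])
  exact h1.ne_zero i (Function.update_self _ _ _)

theorem mem_others {K : Type} [Field K] [CharZero K] {ι : Type} [Fintype ι] [DecidableEq ι]
    {q : ι → K} {i j : ι} (h : j ≠ i) :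
    q j ∈ (IntermediateField.adjoin ℚ (Set.range (Function.update q i 0))).toSubfield :=
  IntermediateField.subset_adjoin ℚ _ ⟨j, by rw [Function.update_of_ne h]⟩

theorem itp_coeff_ne {K : Type} [Field K] [CharZero K] {n : ℕ} {Q : Fin n → Fin 2 → K}
    (hQ : AlgebraicIndependent ℚ (fun ij : Fin n × Fin 2 => Q ij.1 ij.2))
    {i : Fin (p + 2) → Fin n} (hi : Function.Injective i) :
    (itp (fun k => Q (i k) 0) (fun k => Q (i k) 1)).coeff (p + 1) ≠ 0 := by
  classical
  intro h0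
  rw [itp_coeff, ← Finset.add_sum_erase _ _ (Finset.mem_univ 0)] at h0
  have hne : (∏ j ∈ Finset.univ.erase 0, (Q (i 0) 0 - Q (i j) 0)) ≠ 0 := by
    rw [Finset.prod_ne_zero_iff]
    intro j hj h1
    have h2 := hQ.injective (a₁ := (i 0, 0)) (a₂ := (i j, 0)) (sub_eq_zero.1 h1)
    exact (Finset.mem_erase.1 hj).1 (hi (Prod.ext_iff.1 h2).1).symm
  have h1 : Q (i 0) 1 = -(∑ k ∈ Finset.univ.erase 0, Q (i k) 1 *
      (∏ j ∈ Finset.univ.erase k, (Q (i k) 0 - Q (i j) 0))⁻¹) *
        ∏ j ∈ Finset.univ.erase 0, (Q (i 0) 0 - Q (i j) 0) := by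
    have h2 : Q (i 0) 1 = Q (i 0) 1 * (∏ j ∈ Finset.univ.erase 0, (Q (i 0) 0 - Q (i j) 0))⁻¹ *
        ∏ j ∈ Finset.univ.erase 0, (Q (i 0) 0 - Q (i j) 0) := by
      rw [mul_assoc, inv_mul_cancel₀ hne, mul_one]
    rw [h2]
    congr 1
    linear_combination h0
  have h2 := not_mem_others hQ (i 0, 1)
  refine h2 ?_
  change Q (i 0) 1 ∈ (IntermediateField.adjoin ℚ (Set.range
    (Function.update (fun ij : Fin n × Fin 2 => Q ij.1 ij.2) (i 0, 1) 0))).toSubfield
  rw [h1]
  have hx : ∀ k, Q (i k) 0 ∈ (IntermediateField.adjoin ℚ (Set.range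
      (Function.update (fun ij : Fin n × Fin 2 => Q ij.1 ij.2) (i 0, 1) 0))).toSubfield := fun k =>
    mem_others (q := fun ij : Fin n × Fin 2 => Q ij.1 ij.2) (i := (i 0, 1)) (j := (i k, 0))
      (by simp)
  refine mul_mem (neg_mem (sum_mem fun k hk => mul_mem ?_
    (inv_mem (prod_mem fun j _ => sub_mem (hx k) (hx j))))) (prod_mem fun j _ =>
      sub_mem (hx 0) (hx j))
  refine mem_others (q := fun ij : Fin n × Fin 2 => Q ij.1 ij.2) (i := (i 0, 1)) (j := (i k, 1)) ?_
  intro h3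
  exact (Finset.mem_erase.1 hk).1 (hi (Prod.ext_iff.1 h3).1)

/-- The other generic points. -/
theorem exists_other {K : Type} [Field K] [CharZero K] {n : ℕ} {Q : Fin n → Fin 2 → K}
    (hQ : AlgebraicIndependent ℚ (fun ij : Fin n × Fin 2 => Q ij.1 ij.2))
    {i : Fin (p + 2) → Fin n} (hi : Function.Injective i) {x : Fin (p + 2) → K} {f : K[X]}
    (hx : x = fun k => Q (i k) 0) (hf : f = itp x (fun k => Q (i k) 1))
    {N : MvPolynomial (Fin 2) K} (hN : uu f * N = fh x f - ∏ k, pk x f k) :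
    ∃ P : Fin n → Fin 2 → K, AlgebraicIndependent ℚ (fun ij : Fin n × Fin 2 => P ij.1 ij.2) ∧
      (∀ k, P (i k) = Q (i k)) ∧ ∀ l, (∀ k, i k ≠ l) →
        P l 1 ≠ f.eval (P l 0) ∧
        Q l 0 * (P l 1 - f.eval (P l 0)) =
          P l 0 * (P l 1 - f.eval (P l 0)) + f.coeff (p + 1) * (gg x).eval (P l 0) ∧
        Q l 1 * (P l 1 - f.eval (P l 0)) ^ p = MvPolynomial.eval ![P l 0, P l 1] N ∧
        ∀ k, P l 1 ≠ (fk x f k).eval (P l 0) := by
  classical
  have ha : f.coeff (p + 1) ≠ 0 := by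
    rw [hf, hx]
    exact itp_coeff_ne hQ hi
  have hfd : f.natDegree ≤ p + 1 := by
    rw [hf]
    exact itp_deg _ _
  have hid : ∀ X0 Y0 : K, (MvPolynomial.eval ![X0, Y0]).comp MvPolynomial.C = RingHom.id K := by
    intro X0 Y0
    ext c
    simp
  -- the relations at one point
  have key : ∀ X0 Y0 z y : K, Y0 - f.eval X0 ≠ 0 → (gg x).eval X0 ≠ 0 →
      z * (Y0 - f.eval X0) = X0 * (Y0 - f.eval X0) + f.coeff (p + 1) * (gg x).eval X0 →
      y * (Y0 - f.eval X0) ^ p = MvPolynomial.eval ![X0, Y0] N →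
      (y - f.eval z) * (X0 - z) = f.coeff (p + 1) * (gg x).eval z := by
    intro X0 Y0 z y h1 h2 h3 h4
    have hu : MvPolynomial.eval ![X0, Y0] (uu f) = Y0 - f.eval X0 := by
      rw [uu, map_sub, eval_pe, MvPolynomial.eval_X]
      simp
    have h5 := rel (MvPolynomial.eval ![X0, Y0]) (z := z) (y := y) hfd hN (by rw [hu]; exact h1)
      (by rw [eval_pe]; exact h2) (by
        rw [hu, h3, vv, map_add, map_mul, map_mul, hu, eval_pe]
        simp) (by rw [hu]; exact h4)
    rw [hid, eval₂_id, eval₂_id] at h5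
    simpa using h5
  obtain ⟨q, hq⟩ : ∃ q : Fin n × Fin 2 → K, q = fun ij => Q ij.1 ij.2 := ⟨_, rfl⟩
  rw [← hq] at hQ
  have hq' : ∀ l j, Q l j = q (l, j) := fun l j => by rw [hq]
  -- generic conditions
  have g1 : ∀ l, (∀ k, i k ≠ l) → ∀ k, Q l 0 ≠ x k := by
    intro l hl k h
    rw [hx] at h
    have h2 : q (l, 0) = q (i k, 0) := by rw [← hq', ← hq']; exact h
    exact hl k (Prod.ext_iff.1 (hQ.injective h2)).1.symm
  have hmem1 : ∀ l, (∀ k, i k ≠ l) → ∀ k j, Q (i k) j ∈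
      (IntermediateField.adjoin ℚ (Set.range (Function.update q (l, 1) 0))).toSubfield := by
    intro l hl k j
    rw [hq']
    refine mem_others ?_
    intro h
    exact hl k (Prod.ext_iff.1 h).1
  have hmem0 : ∀ l, Q l 0 ∈
      (IntermediateField.adjoin ℚ (Set.range (Function.update q (l, 1) 0))).toSubfield := by
    intro l
    rw [hq']
    exact mem_others (by simp)
  have g2 : ∀ l, (∀ k, i k ≠ l) → Q l 1 - f.eval (Q l 0) ≠ 0 := by
    intro l hl h
    refine not_mem_others hQ (l, 1) ?_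
    rw [← hq', sub_eq_zero.1 h, hf, hx]
    exact itp_mem _ (fun k => hmem1 l hl k 0) (fun k => hmem1 l hl k 1) (hmem0 l)
  have g3 : ∀ l, (∀ k, i k ≠ l) → ∀ k, Q l 1 ≠ (fk x f k).eval (Q l 0) := by
    intro l hl k h
    refine not_mem_others hQ (l, 1) ?_
    rw [← hq', h, hf, hx]
    exact fk_mem _ (fun k => hmem1 l hl k 0) (fun k => hmem1 l hl k 1) k (hmem0 l)
  have g4 : ∀ l, (∀ k, i k ≠ l) → (gg x).eval (Q l 0) ≠ 0 := by
    intro l hl
    rw [gg, eval_prod, Finset.prod_ne_zero_iff]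
    intro k _
    rw [eval_sub, eval_X, eval_C, sub_ne_zero]
    exact g1 l hl k
  -- the points
  obtain ⟨Z, hZ⟩ : ∃ Z : Fin n → K, Z = fun l => Q l 0 + f.coeff (p + 1) *
    (gg x).eval (Q l 0) / (Q l 1 - f.eval (Q l 0)) := ⟨_, rfl⟩
  obtain ⟨Y, hY⟩ : ∃ Y : Fin n → K, Y = fun l => MvPolynomial.eval ![Q l 0, Q l 1] N /
    (Q l 1 - f.eval (Q l 0)) ^ p := ⟨_, rfl⟩
  have hZ1 : ∀ l, (∀ k, i k ≠ l) → Z l * (Q l 1 - f.eval (Q l 0)) =
      Q l 0 * (Q l 1 - f.eval (Q l 0)) + f.coeff (p + 1) * (gg x).eval (Q l 0) := by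
    intro l hl
    rw [hZ]
    simp only
    rw [add_mul, div_mul_cancel₀ _ (g2 l hl)]
  have hY1 : ∀ l, (∀ k, i k ≠ l) → Y l * (Q l 1 - f.eval (Q l 0)) ^ p =
      MvPolynomial.eval ![Q l 0, Q l 1] N := by
    intro l hl
    rw [hY]
    simp only
    rw [div_mul_cancel₀ _ (pow_ne_zero _ (g2 l hl))]
  have hr1 : ∀ l, (∀ k, i k ≠ l) →
      (Y l - f.eval (Z l)) * (Q l 0 - Z l) = f.coeff (p + 1) * (gg x).eval (Z l) := fun l hl =>
    key _ _ _ _ (g2 l hl) (g4 l hl) (hZ1 l hl) (hY1 l hl)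
  have hr2 : ∀ l, (∀ k, i k ≠ l) →
      (Q l 1 - f.eval (Q l 0)) * (Z l - Q l 0) = f.coeff (p + 1) * (gg x).eval (Q l 0) := by
    intro l hl
    linear_combination hZ1 l hl
  have hZQ : ∀ l, (∀ k, i k ≠ l) → Z l - Q l 0 ≠ 0 := by
    intro l hl h
    have := hr2 l hl
    rw [h, mul_zero] at this
    exact mul_ne_zero ha (g4 l hl) this.symm
  -- the value of `pk`
  have hpk : ∀ (X0 Y0 z : K) (k : Fin (p + 2)),
      z * (Y0 - f.eval X0) = X0 * (Y0 - f.eval X0) + f.coeff (p + 1) * (gg x).eval X0 →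
      (z - x k) * (Y0 - f.eval X0) = (X0 - x k) * (Y0 - (fk x f k).eval X0) := by
    intro X0 Y0 z k h
    have h2 : (fk x f k).eval X0 = f.eval X0 - f.coeff (p + 1) * (gk x k).eval X0 := by
      rw [fk, eval_sub, eval_mul, eval_C]
    have h3 : (gg x).eval X0 = (X0 - x k) * (gk x k).eval X0 := by
      rw [← gg_eq x k, eval_mul, eval_sub, eval_X, eval_C]
    rw [h2]
    rw [h3] at h
    linear_combination h
  have hZx : ∀ l, (∀ k, i k ≠ l) → ∀ k, Z l - x k ≠ 0 := by
    intro l hl k h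
    have h1 := hpk _ _ _ k (hZ1 l hl)
    rw [h, zero_mul] at h1
    rcases mul_eq_zero.1 h1.symm with h2 | h2
    · exact g1 l hl k (sub_eq_zero.1 h2)
    · exact g3 l hl k (sub_eq_zero.1 h2)
  have hgZ : ∀ l, (∀ k, i k ≠ l) → (gg x).eval (Z l) ≠ 0 := by
    intro l hl
    rw [gg, eval_prod, Finset.prod_ne_zero_iff]
    intro k _
    rw [eval_sub, eval_X, eval_C]
    exact hZx l hl k
  have hYf : ∀ l, (∀ k, i k ≠ l) → Y l - f.eval (Z l) ≠ 0 := by
    intro l hl h
    have := hr1 l hl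
    rw [h, zero_mul] at this
    exact mul_ne_zero ha (hgZ l hl) this.symm
  obtain ⟨P, hP⟩ : ∃ P : Fin n → Fin 2 → K, P = fun l => if ∃ k, i k = l then Q l else
    ![Z l, Y l] := ⟨_, rfl⟩
  have hP1 : ∀ k, P (i k) = Q (i k) := by
    intro k
    rw [hP]
    simp only
    rw [if_pos ⟨k, rfl⟩]
  have hP2 : ∀ l, (∀ k, i k ≠ l) → P l = ![Z l, Y l] := by
    intro l hl
    rw [hP]
    simp only
    rw [if_neg (by push Not; exact hl)]
  have hP20 : ∀ l, (∀ k, i k ≠ l) → P l 0 = Z l := fun l hl => by rw [hP2 l hl]; rfl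
  have hP21 : ∀ l, (∀ k, i k ≠ l) → P l 1 = Y l := fun l hl => by rw [hP2 l hl]; rfl
  refine ⟨P, ?_, hP1, ?_⟩
  · refine Pool.Agent.W816.CR.t_trd K (Fin n × Fin 2) q _ hQ ?_
    obtain ⟨L, hL⟩ : ∃ L, L = IntermediateField.adjoin ℚ
      (Set.range (fun ij : Fin n × Fin 2 => P ij.1 ij.2)) := ⟨_, rfl⟩
    rw [← hL]
    have hPL : ∀ l j, P l j ∈ L.toSubfield := by
      intro l j
      rw [hL]
      exact IntermediateField.subset_adjoin ℚ _ ⟨(l, j), rfl⟩
    have hxL : ∀ k, x k ∈ L.toSubfield := by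
      intro k
      rw [hx]
      simp only
      rw [← hP1]
      exact hPL _ _
    have hyL : ∀ k, Q (i k) 1 ∈ L.toSubfield := by
      intro k
      rw [← hP1]
      exact hPL _ _
    rintro ⟨l, j⟩
    rw [← hq']
    change Q l j ∈ L.toSubfield
    by_cases hl : ∃ k, i k = l
    · obtain ⟨k, rfl⟩ := hl
      rw [← hP1]
      exact hPL _ _
    · push Not at hl
      have h1 := inverse_mem L.toSubfield (a := f.coeff (p + 1)) (X0 := Q l 0) (Y0 := Q l 1)
        (z := Z l) (y := Y l) (fun t => f.eval t) (fun t => (gg x).eval t)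
        (fun t ht => by
          rw [hf]
          exact itp_mem _ hxL hyL ht) (fun t ht => gg_mem _ hxL ht) (by
          rw [hf]
          exact itp_coeff_mem _ hxL hyL) (by
          rw [← hP20 l hl]
          exact hPL _ _) (by
          rw [← hP21 l hl]
          exact hPL _ _) (hr1 l hl) (hr2 l hl) (hYf l hl) (hZQ l hl)
      fin_cases j
      · exact h1.1
      · exact h1.2
  · intro l hl
    rw [hP20 l hl, hP21 l hl]
    have e1 : Q l 0 * (Y l - f.eval (Z l)) =
        Z l * (Y l - f.eval (Z l)) + f.coeff (p + 1) * (gg x).eval (Z l) := by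
      linear_combination hr1 l hl
    refine ⟨fun h => hYf l hl (sub_eq_zero.2 h), e1, ?_, ?_⟩
    · obtain ⟨y', hy'⟩ : ∃ y', y' = MvPolynomial.eval ![Z l, Y l] N /
        (Y l - f.eval (Z l)) ^ p := ⟨_, rfl⟩
      have h1 : y' * (Y l - f.eval (Z l)) ^ p = MvPolynomial.eval ![Z l, Y l] N := by
        rw [hy', div_mul_cancel₀ _ (pow_ne_zero _ (hYf l hl))]
      have h2 := key _ _ _ _ (hYf l hl) (hgZ l hl) e1 h1
      rw [← hr2 l hl] at h2
      have h3 := mul_right_cancel₀ (hZQ l hl) h2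
      have h4 : y' = Q l 1 := by linear_combination h3
      rw [← h4, h1]
    · intro k h
      have h1 := hpk _ _ _ k e1
      rw [h, sub_self, mul_zero] at h1
      rcases mul_eq_zero.1 h1 with h2 | h2
      · exact g1 l hl k (sub_eq_zero.1 h2)
      · rw [← h] at h2
        exact hYf l hl h2

end Pool.Agent.J4H37.WN
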