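import Pool.Agent.J4H37.WN.WpE
import Pool.Agent.J4H37.WN.Comp

set_option autoImplicit false

/-!
# The reflections of the weighted planes `(1, p)`: nef classes
-/

namespace Pool.Agent.J4H37.WN

open Polynomial

variable {p n : ℕ}

/-- `(c; L)` is nef on the weighted plane `(1, p)` at generic points. -/
def WNef (p : ℕ) {n : ℕ} (c : ℝ) (L : Fin n → ℝ) : Prop :=
  (∀ i, 0 ≤ L i) ∧ ∀ Q : Fin n → Fin 2 → ℂ,
    AlgebraicIndependent ℚ (fun ij : Fin n × Fin 2 => Q ij.1 ij.2) →
    ∀ (B : ℕ) (w : Fin n → ℕ) (h : MvPolynomial (Fin 2) ℂ), h ≠ 0 → (om p h).natDegree ≤ B →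
      (∀ i, X ^ (w i) ∣ th (Q i 0) (Q i 1) h) → ∑ i, L i * (w i : ℝ) ≤ c * B

theorem sum_img {m : ℕ} {i : Fin m → Fin n} (hi : Function.Injective i) (s : Finset (Fin m))
    (F : Fin n → ℝ) : ∑ l, (if ∃ j ∈ s, i j = l then F l else 0) = ∑ j ∈ s, F (i j) := by
  classical
  rw [← Finset.sum_filter]
  have h1 : Finset.univ.filter (fun l => ∃ j ∈ s, i j = l) = s.image i := by
    ext l
    simp
  rw [h1, Finset.sum_image fun a _ b _ h => hi h]

theorem WNef.nonneg {c : ℝ} {L : Fin n → ℝ} (h : WNef p c L) : 0 ≤ c := by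
  obtain ⟨Q, hQ⟩ := exists_points n
  have h1 := h.2 Q hQ 1 (fun _ => 0) 1 one_ne_zero (by simp) (by simp)
  simpa using h1

theorem WNef.step {c : ℝ} {L : Fin n → ℝ} (h : WNef p c L) {i : Fin (p + 2) → Fin n}
    (hi : Function.Injective i) {δ : ℝ} (hδ : δ = p * c - ∑ k, L (i k)) :
    WNef p (c + δ) (fun l => L l + if ∃ k, i k = l then δ else 0) := by
  classical
  refine ⟨?_, ?_⟩
  · intro l
    by_cases hl : ∃ k, i k = l
    · simp only
      rw [if_pos hl]
      obtain ⟨k, rfl⟩ := hl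
      obtain ⟨Q, hQ⟩ := exists_points n
      obtain ⟨x, hx⟩ : ∃ x : Fin (p + 2) → ℂ, x = fun k => Q (i k) 0 := ⟨_, rfl⟩
      obtain ⟨f, hf⟩ : ∃ f, f = itp x (fun k => Q (i k) 1) := ⟨_, rfl⟩
      have hxi : Function.Injective x := by
        intro a b hab
        rw [hx] at hab
        have := hQ.injective (a₁ := (i a, 0)) (a₂ := (i b, 0)) hab
        exact hi (Prod.ext_iff.1 this).1
      have hxe : ∀ j, x j = Q (i j) 0 := fun j => by rw [hx]
      have hfe : ∀ j, f.eval (x j) = Q (i j) 1 := fun j => by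
        rw [hf, itp_eval hxi]
      have h1 := h.2 Q hQ p (fun l => if ∃ j ∈ Finset.univ.erase k, i j = l then 1 else 0)
        (pk x f k) (pk_ne x f k) (om_pk_le x (hf ▸ itp_deg _ _) k) (by
          intro l
          by_cases hl : ∃ j ∈ Finset.univ.erase k, i j = l
          · rw [if_pos hl, pow_one]
            obtain ⟨j, hj, rfl⟩ := hl
            have h2 := (th_pk (x := x) (f := f) (Finset.mem_erase.1 hj).1).1
            rwa [hfe, hxe] at h2
          · rw [if_neg hl, pow_zero]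
            exact one_dvd _)
      have h2 : ∑ l, L l * (((if ∃ j ∈ Finset.univ.erase k, i j = l then 1 else 0 : ℕ)) : ℝ) =
          ∑ j ∈ Finset.univ.erase k, L (i j) := by
        rw [← sum_img hi]
        refine Finset.sum_congr rfl fun l _ => ?_
        split_ifs <;> simp
      rw [h2] at h1
      have h3 := Finset.add_sum_erase Finset.univ (fun k => L (i k)) (Finset.mem_univ k)
      rw [hδ, ← h3]
      linarith
    · simp only
      rw [if_neg hl, add_zero]
      exact h.1 l
  · intro Q hQ B w g hg0 hgB hgw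
    obtain ⟨x, hx⟩ : ∃ x : Fin (p + 2) → ℂ, x = fun k => Q (i k) 0 := ⟨_, rfl⟩
    obtain ⟨f, hf⟩ : ∃ f, f = itp x (fun k => Q (i k) 1) := ⟨_, rfl⟩
    have hxi : Function.Injective x := by
      intro a b hab
      rw [hx] at hab
      have := hQ.injective (a₁ := (i a, 0)) (a₂ := (i b, 0)) hab
      exact hi (Prod.ext_iff.1 this).1
    have hxe : ∀ j, x j = Q (i j) 0 := fun j => by rw [hx]
    have hfe : ∀ j, f.eval (x j) = Q (i j) 1 := fun j => by
      rw [hf, itp_eval hxi]
    have ha : f.coeff (p + 1) ≠ 0 := by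
      rw [hf, hx]
      exact itp_coeff_ne hQ hi
    have hfd : f.natDegree ≤ p + 1 := by
      rw [hf]
      exact itp_deg _ _
    obtain ⟨N, hN⟩ := exists_N x f
    obtain ⟨P, hP, hPi, hPl⟩ := exists_other hQ hi hx hf hN
    obtain ⟨q, hq0, hqd, hq1, hq2⟩ := transform hxi hfd ha hN hg0 ((om_le_iff p g B).1 hgB)
      (fun k => w (i k)) (fun k => by
        rw [hfe, hxe]
        exact hgw _)
    obtain ⟨W, hW⟩ : ∃ W, W = ∑ k, w (i k) := ⟨_, rfl⟩
    have h1 := h.2 P hP (om p q).natDegree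
      (fun l => if ∃ k, i k = l then B - (W - w l) else w l) q hq0 le_rfl (by
        intro l
        by_cases hl : ∃ k, i k = l
        · rw [if_pos hl]
          obtain ⟨k, rfl⟩ := hl
          have h2 := hq1 k
          have h3 := Finset.add_sum_erase Finset.univ (fun k => w (i k)) (Finset.mem_univ k)
          rw [← hW] at h3
          rw [hfe, hxe] at h2
          rw [hPi]
          have h4 : W - w (i k) = ∑ j ∈ Finset.univ.erase k, w (i j) := by omega
          rw [h4]
          exact h2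
        · rw [if_neg hl]
          push Not at hl
          obtain ⟨e1, e2, e3, e4⟩ := hPl l hl
          exact hq2 _ _ _ _ _ e1 e2 e3 e4 (hgw l))
    have h2 : ∑ l, L l * ((w l : ℝ) + if ∃ k, i k = l then (B : ℝ) - W else 0) ≤
        ∑ l, L l * ((if ∃ k, i k = l then B - (W - w l) else w l : ℕ) : ℝ) := by
      refine Finset.sum_le_sum fun l _ => mul_le_mul_of_nonneg_left ?_ (h.1 l)
      by_cases hl : ∃ k, i k = l
      · rw [if_pos hl, if_pos hl]
        have h3 : w l ≤ W := by
          obtain ⟨k, rfl⟩ := hl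
          rw [hW]
          exact Finset.single_le_sum (f := fun k => w (i k)) (fun _ _ => Nat.zero_le _)
            (Finset.mem_univ k)
        have h4 : (B : ℝ) ≤ ((B - (W - w l) : ℕ) : ℝ) + ((W - w l : ℕ) : ℝ) := by
          exact_mod_cast (by omega : B ≤ (B - (W - w l)) + (W - w l))
        rw [Nat.cast_sub h3] at h4
        linarith
      · rw [if_neg hl, if_neg hl, add_zero]
    have h3 : ∀ F : ℝ, ∑ l, L l * (if ∃ k, i k = l then F else 0) = (∑ k, L (i k)) * F := by
      intro F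
      have h4 := sum_img hi Finset.univ (fun l => L l * F)
      rw [← Finset.sum_mul] at h4
      rw [← h4]
      refine Finset.sum_congr rfl fun l _ => ?_
      simp
    have h4 : ∑ l, L l * ((w l : ℝ) + if ∃ k, i k = l then (B : ℝ) - W else 0) =
        ∑ l, L l * (w l : ℝ) + (∑ k, L (i k)) * (B - W) := by
      rw [← h3, ← Finset.sum_add_distrib]
      exact Finset.sum_congr rfl fun l _ => mul_add _ _ _
    have h5 : ∑ l, (L l + if ∃ k, i k = l then δ else 0) * (w l : ℝ) =
        ∑ l, L l * (w l : ℝ) + δ * W := by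
      have h6 := sum_img hi Finset.univ (fun l => δ * (w l : ℝ))
      rw [← Finset.mul_sum] at h6
      have h7 : δ * (W : ℝ) = δ * ∑ k, (w (i k) : ℝ) := by
        rw [hW]
        push_cast
        rfl
      rw [h7, ← h6, ← Finset.sum_add_distrib]
      refine Finset.sum_congr rfl fun l _ => ?_
      by_cases hl : ∃ k, i k = l
      · rw [if_pos hl, if_pos (by simpa using hl)]
        ring
      · rw [if_neg hl, if_neg (by simpa using hl)]
        ring
    have h6 : ((om p q).natDegree : ℝ) + p * W ≤ (p + 1) * B := by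
      rw [hW]
      exact_mod_cast hqd
    have h7 : c * ((om p q).natDegree : ℝ) ≤ c * ((p + 1) * B - p * W) :=
      mul_le_mul_of_nonneg_left (by linarith) h.nonneg
    simp only
    rw [h5]
    rw [h4] at h2
    have h8 : ∑ l, L l * (w l : ℝ) + (∑ k, L (i k)) * (B - W) ≤ c * ((p + 1) * B - p * W) :=
      (h2.trans h1).trans h7
    rw [hδ]
    nlinarith

/-- The classes of `p` points. -/
theorem WNef.base {T : Finset (Fin n)} (hT : T.card ≤ p) :
    WNef p 1 (fun l : Fin n => if l ∈ T then 1 else 0) := by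
  classical
  refine ⟨fun i => by dsimp only; split_ifs <;> norm_num, ?_⟩
  intro Q hQ B w h h0 hB hw
  have hinj : Set.InjOn (fun l => Q l 0) (T : Set (Fin n)) := by
    intro a _ b _ hab
    have := hQ.injective (a₁ := (a, 0)) (a₂ := (b, 0)) hab
    exact (Prod.ext_iff.1 this).1
  obtain ⟨f, hf⟩ : ∃ f : ℂ[X], f = Lagrange.interpolate T (fun l => Q l 0) (fun l => Q l 1) :=
    ⟨_, rfl⟩
  have hfe : ∀ l ∈ T, f.eval (Q l 0) = Q l 1 := by
    intro l hl
    rw [hf]
    exact Lagrange.eval_interpolate_at_node _ hinj hl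
  have hfd : f.natDegree ≤ p := by
    have h1 := Lagrange.degree_interpolate_lt (fun l => Q l 1) hinj
    rw [← hf] at h1
    by_cases hf0 : f = 0
    · rw [hf0]
      simp
    · rw [degree_eq_natDegree hf0] at h1
      have : f.natDegree < T.card := by exact_mod_cast h1
      omega
  obtain ⟨G, hG⟩ : ∃ G : ℂ[X], G = ∏ l ∈ T, (X - C (Q l 0)) := ⟨_, rfl⟩
  have hGd : G.natDegree ≤ p := by
    rw [hG, natDegree_prod_of_monic _ _ fun _ _ => monic_X_sub_C _]
    simpa using hT
  have hG0 : G ≠ 0 := by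
    rw [hG]
    exact Finset.prod_ne_zero_iff.2 fun _ _ => X_sub_C_ne_zero _
  have hGe : ∀ l ∈ T, G.eval (Q l 0) = 0 := by
    intro l hl
    rw [hG, eval_prod, Finset.prod_eq_zero hl]
    simp
  obtain ⟨μ, hμ⟩ : ∃ μ : ℂ[X][X], μ = f.map C + C X * G.map C := ⟨_, rfl⟩
  obtain ⟨ρ, hρ⟩ : ∃ ρ : MvPolynomial (Fin 2) ℂ →+* ℂ[X][X], ρ =
    MvPolynomial.eval₂Hom ((C : ℂ[X] →+* ℂ[X][X]).comp C) ![X, μ] := ⟨_, rfl⟩
  have hρ0 : ρ (MvPolynomial.X 0) = X := by simp [hρ]
  have hρ1 : ρ (MvPolynomial.X 1) = μ := by simp [hρ]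
  have hρC : ∀ c, ρ (MvPolynomial.C c) = C (C c) := fun c => by simp [hρ]
  have hμd : μ.natDegree ≤ p := by
    rw [hμ]
    refine (natDegree_add_le _ _).trans (max_le (natDegree_map_le.trans hfd) ?_)
    exact (natDegree_C_mul_le _ _).trans (natDegree_map_le.trans hGd)
  have hdeg : (ρ h).natDegree ≤ B := by
    have h1 := (om_le_iff p h B).1 hB
    rw [h.as_sum, map_sum]
    refine natDegree_sum_le_of_forall_le _ _ fun s hs => ?_
    have h2 := h1 s hs
    rw [MvPolynomial.monomial_eq, Finsupp.prod_fintype _ _ (by simp), Fin.prod_univ_two, map_mul,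
      map_mul, map_pow, map_pow, hρC, hρ0, hρ1]
    refine (natDegree_C_mul_le _ _).trans (natDegree_mul_le.trans ?_)
    rw [natDegree_X_pow]
    have h3 := natDegree_pow_le (p := μ) (n := s 1)
    have h4 := Nat.mul_le_mul_left (s 1) hμd
    have h5 : s 1 * p = p * s 1 := mul_comm _ _
    omega
  have hne : ρ h ≠ 0 := by
    intro hρh
    obtain ⟨φ, hφ⟩ : ∃ φ : MvPolynomial (Fin 2) ℂ →+* FractionRing (MvPolynomial (Fin 2) ℂ),
      φ = algebraMap _ _ := ⟨_, rfl⟩
    have hφi : Function.Injective φ := by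
      rw [hφ]
      exact IsFractionRing.injective _ _
    have hGφ : φ (pe G) ≠ 0 := (map_ne_zero_iff _ hφi).2 ((map_ne_zero_iff _ pe_inj).2 hG0)
    obtain ⟨ρ', hρ'⟩ : ∃ ρ' : ℂ[X][X] →+* FractionRing (MvPolynomial (Fin 2) ℂ), ρ' =
      eval₂RingHom (eval₂RingHom (φ.comp MvPolynomial.C)
        ((φ (MvPolynomial.X 1) - φ (pe f)) / φ (pe G))) (φ (MvPolynomial.X 0)) := ⟨_, rfl⟩
    have hm : ∀ q : ℂ[X], ρ' (q.map C) = φ (pe q) := by
      intro q
      have h1 : (ρ'.comp (mapRingHom C)) = φ.comp pe := by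
        apply Polynomial.ringHom_ext
        · intro c
          simp [hρ', pe]
        · simp [hρ', pe]
      exact DFunLike.congr_fun h1 q
    have h1 : ρ'.comp ρ = φ := by
      apply MvPolynomial.ringHom_ext
      · intro c
        rw [RingHom.comp_apply, hρC]
        simp [hρ']
      · intro j
        fin_cases j
        · change ρ' (ρ (MvPolynomial.X 0)) = φ (MvPolynomial.X 0)
          rw [hρ0]
          simp [hρ']
        · change ρ' (ρ (MvPolynomial.X 1)) = φ (MvPolynomial.X 1)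
          rw [hρ1, hμ, map_add, map_mul, hm, hm]
          have h2 : ρ' (C X) = (φ (MvPolynomial.X 1) - φ (pe f)) / φ (pe G) := by
            simp [hρ']
          rw [h2, div_mul_cancel₀ _ hGφ]
          ring
    have h2 := DFunLike.congr_fun h1 h
    rw [RingHom.comp_apply, hρh, map_zero] at h2
    exact h0 ((map_eq_zero_iff _ hφi).1 h2.symm)
  have hdvd : ∀ l ∈ T, (X - C (C (Q l 0))) ^ w l ∣ ρ h := by
    intro l hl
    have h1 : (X - C (C (Q l 0)) : ℂ[X][X]) ∣ μ - C (C (Q l 1)) := by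
      rw [dvd_iff_isRoot, IsRoot.def, hμ, eval_sub, eval_add, eval_mul, eval_C, eval_C, eval_map,
        eval_map, eval₂_hom, eval₂_hom, hfe l hl, hGe l hl]
      simp
    obtain ⟨b, hb⟩ := h1
    refine th_dvd ρ (A := 1) (B := b) ?_ ?_ (hw l)
    · rw [hρ0, hρC]
      ring
    · rw [hρ1, hρC]
      linear_combination hb
  have hprod : ∀ J : Finset (Fin n), J ⊆ T → (∏ l ∈ J, (X - C (C (Q l 0))) ^ w l) ∣ ρ h := by
    intro J
    induction J using Finset.induction_on with
    | empty => simp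
    | insert k J hk ih =>
      intro hJ
      obtain ⟨q, hq⟩ := ih ((Finset.subset_insert _ _).trans hJ)
      have hkT := hJ (Finset.mem_insert_self _ _)
      have h1 := hdvd k hkT
      rw [hq] at h1
      have h2 := strip_prod0 (prime_X_sub_C (C (Q k 0))) J (fun l => X - C (C (Q l 0))) w (by
        intro l hl h3
        rw [dvd_iff_isRoot, IsRoot.def, eval_sub, eval_X, eval_C, ← C_sub, C_eq_zero,
          sub_eq_zero] at h3
        have h4 := hinj hkT (hJ (Finset.mem_insert_of_mem hl)) h3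
        exact hk (h4 ▸ hl)) h1
      rw [Finset.prod_insert hk, hq, mul_comm]
      exact mul_dvd_mul_left _ h2
  have h1 := natDegree_le_of_dvd (hprod T subset_rfl) hne
  rw [natDegree_prod_of_monic _ _ fun _ _ => (monic_X_sub_C _).pow _] at h1
  simp only [natDegree_pow, natDegree_X_sub_C, mul_one] at h1
  have h2 : ∑ l ∈ T, w l ≤ B := h1.trans hdeg
  have h3 : ∑ i, (if i ∈ T then (1 : ℝ) else 0) * (w i : ℝ) = ((∑ l ∈ T, w l : ℕ) : ℝ) := by
    push_cast
    rw [← Finset.sum_filter_add_sum_filter_not Finset.univ (fun i => i ∈ T)]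
    rw [Finset.sum_eq_zero (s := Finset.univ.filter (fun i => ¬ i ∈ T)), add_zero]
    · rw [Finset.filter_mem_eq_inter, Finset.univ_inter]
      refine Finset.sum_congr rfl fun i hi => ?_
      rw [if_pos hi, one_mul]
    · intro i hi
      rw [if_neg (Finset.mem_filter.1 hi).2, zero_mul]
  simp only
  rw [h3, one_mul]
  exact_mod_cast h2

/-- Orders from ideals. -/
theorem th_of_mem {K : Type} [Field K] {x y : K} {h : MvPolynomial (Fin 2) K} {m : ℕ}
    (hm : h ∈ (Ideal.span {MvPolynomial.X 0 - MvPolynomial.C x,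
      MvPolynomial.X 1 - MvPolynomial.C y} : Ideal (MvPolynomial (Fin 2) K)) ^ m) :
    X ^ m ∣ th x y h := by
  have h1 : Ideal.map (th x y) (Ideal.span {MvPolynomial.X 0 - MvPolynomial.C x,
      MvPolynomial.X 1 - MvPolynomial.C y}) ≤ Ideal.span {X} := by
    rw [Ideal.map_span, Ideal.span_le]
    rintro _ ⟨g, hg, rfl⟩
    rw [SetLike.mem_coe, Ideal.mem_span_singleton]
    rcases hg with rfl | rfl
    · simp [th]
    · simp [th]
  have h2 := Ideal.mem_map_of_mem (th x y) hm
  rw [Ideal.map_pow] at h2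
  have h3 := Ideal.pow_right_mono h1 m h2
  rwa [Ideal.span_singleton_pow, Ideal.mem_span_singleton] at h3

theorem WNef.noPoly {c : ℝ} {L : Fin n → ℝ} (h : WNef p c L) {Q : Fin n → Fin 2 → ℂ}
    (hQ : AlgebraicIndependent ℚ (fun ij : Fin n × Fin 2 => Q ij.1 ij.2)) {d : ℕ}
    {w : Fin n → ℕ} (hd : Real.sqrt p * c * d < ∑ i, L i * (w i : ℝ)) :
    NoPoly (p : ℝ) (d * Real.sqrt p) Q w := by
  intro g hg0 hg
  by_contra hcon
  push Not at hcon
  have h1 : (om p g).natDegree ≤ ⌊(d : ℝ) * Real.sqrt p⌋₊ := by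
    rw [om_le_iff]
    intro s hs
    rw [Nat.le_floor_iff (by positivity)]
    have := hg s hs
    push_cast
    exact this
  have h2 := h.2 Q hQ _ w g hg0 h1 (fun i => th_of_mem (hcon i))
  have h3 : ((⌊(d : ℝ) * Real.sqrt p⌋₊ : ℕ) : ℝ) ≤ d * Real.sqrt p :=
    Nat.floor_le (by positivity)
  have h4 := mul_le_mul_of_nonneg_left h3 h.nonneg
  linarith

end Pool.Agent.J4H37.WN
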