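import Pool.Agent.J4H37.WN.WpF
import Pool.Agent.R355.NegAut

set_option autoImplicit false

/-!
# The reflections of the weighted planes `(1, p)`: nef classes on the plane
-/

namespace Pool.Agent.J4H37.WN

open Polynomial Pool.Agent.TH167

variable {p n : ℕ}

/-- **Nef classes on the weighted planes are nef on the plane.** -/
theorem WNef.curv (hp : 9 ≤ p) {c : ℝ} {L : Fin n → ℝ} (h : WNef p c L)
    {P : Fin n → Fin 2 → ℂ}
    (hP : AlgebraicIndependent ℚ (fun ij : Fin n × Fin 2 => P ij.1 ij.2)) :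
    ∀ x ∈ Pool.Agent.R355.ConeAct.curvCone P,
      0 ≤ Pool.Agent.R355.ConeAct.dot (Real.sqrt p * c, L) x := by
  classical
  refine Pool.Agent.R355.ConeAct.nef_of_gen ?_
  rintro x (⟨G, d, w, hG, rfl⟩ | ⟨j, rfl⟩)
  · by_contra hcon
    have hd : Real.sqrt p * c * d < ∑ i, L i * (w i : ℝ) := by
      unfold Pool.Agent.R355.ConeAct.dot at hcon
      simp only at hcon
      linarith [not_le.1 hcon]
    obtain ⟨P0, hP0⟩ := special_real (t := (p : ℝ)) (by exact_mod_cast hp) (d := d) w P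
      (h.noPoly hP hd)
    have hch : CharZero (FractionRing (Polynomial ℂ)) :=
      charZero_of_injective_algebraMap
        (IsFractionRing.injective (Polynomial ℂ) (FractionRing (Polynomial ℂ)))
    have h2 := empty_spread hP0 hP
    have hfin := Pool.Agent.W609.CR.vs_fin (fun j => Pool.Agent.W609.CR.aff (P j)) w d
    have h3 : G ∈ SHDefs.sys P d w := by
      unfold SHDefs.sys
      rw [Submodule.mem_inf, Submodule.restrictScalars_mem, Ideal.mem_iInf]
      exact ⟨hG.homogeneous, fun i => (hG.mult i).1⟩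
    rw [SH.sys_eq] at h2 h3
    rw [Submodule.finrank_eq_zero] at h2
    rw [h2] at h3
    exact hG.irreducible.ne_zero h3
  · unfold Pool.Agent.R355.ConeAct.dot
    simp only [mul_zero, zero_sub]
    rw [Finset.sum_eq_single j]
    · rw [Pi.single_eq_same]
      have : 0 ≤ L j := h.1 j
      linarith
    · intro l _ hl
      rw [Pi.single_eq_of_ne hl, mul_zero]
    · intro h
      exact absurd (Finset.mem_univ j) h

/-- Fewer points. -/
theorem WNef.restrict {m : ℕ} {c : ℝ} {L : Fin m → ℝ} (h : WNef p c L) {τ : Fin n → Fin m}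
    (hτ : Function.Injective τ) : WNef p c (fun i => L (τ i)) := by
  classical
  refine ⟨fun i => h.1 _, ?_⟩
  intro Q hQ B w g hg0 hgB hgw
  obtain ⟨Q1, hQ1⟩ := exists_points m
  have hy : AlgebraicIndependent ℚ (fun ij : Fin n × Fin 2 => Q1 (τ ij.1) ij.2) := by
    refine hQ1.comp (fun ij : Fin n × Fin 2 => (τ ij.1, ij.2)) ?_
    rintro ⟨a, b⟩ ⟨a', b'⟩ hab
    have h1 := Prod.ext_iff.1 hab
    exact Prod.ext (hτ h1.1) h1.2
  obtain ⟨σ, hσ⟩ := Pool.Agent.R355.NegOrb.exists_aut_two hy hQ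
  have hQ' : AlgebraicIndependent ℚ (fun ij : Fin m × Fin 2 => σ (Q1 ij.1 ij.2)) :=
    hQ1.map' (f := (σ : ℂ →+* ℂ).toRatAlgHom) σ.injective
  have hw : ∀ i, (∑ j, if τ j = τ i then w j else 0) = w i := by
    intro i
    rw [Finset.sum_eq_single i]
    · rw [if_pos rfl]
    · intro j _ hj
      rw [if_neg fun h => hj (hτ h)]
    · intro h
      exact absurd (Finset.mem_univ i) h
  have h1 := h.2 (fun l j => σ (Q1 l j)) hQ' B (fun l => ∑ j, if τ j = l then w j else 0) g hg0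
    hgB (by
      intro l
      by_cases hl : ∃ i, τ i = l
      · obtain ⟨i, rfl⟩ := hl
        rw [hw i, hσ (i, 0), hσ (i, 1)]
        exact hgw i
      · push Not at hl
        rw [Finset.sum_eq_zero fun j _ => if_neg (hl j), pow_zero]
        exact one_dvd _)
  refine le_trans (le_of_eq ?_) h1
  have h2 : ∀ l, L l * ((∑ j, if τ j = l then w j else 0 : ℕ) : ℝ) =
      ∑ j, if τ j = l then L (τ j) * (w j : ℝ) else 0 := by
    intro l
    push_cast
    rw [Finset.mul_sum]
    refine Finset.sum_congr rfl fun j _ => ?_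
    split_ifs with h3
    · rw [h3]
    · simp
  rw [Finset.sum_congr rfl fun l _ => h2 l, Finset.sum_comm]
  refine Finset.sum_congr rfl fun j _ => ?_
  rw [Finset.sum_ite_eq Finset.univ (τ j), if_pos (Finset.mem_univ _)]

/-- The coefficients are at most `c`. -/
theorem WNef.le {c : ℝ} {L : Fin n → ℝ} (h : WNef p c L) (l : Fin n) : L l ≤ c := by
  classical
  obtain ⟨Q, hQ⟩ := exists_points n
  have h1 := h.2 Q hQ 1 (fun j => if j = l then 1 else 0)
    (MvPolynomial.X 0 - MvPolynomial.C (Q l 0)) (by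
      intro h0
      have h2 := congrArg (MvPolynomial.eval ![Q l 0 + 1, 0]) h0
      simp at h2) (by
      rw [map_sub]
      refine (natDegree_sub_le _ _).trans (max_le om_X0 ?_)
      rw [om_C]
      exact Nat.zero_le _) (by
      intro j
      by_cases hj : j = l
      · rw [hj, if_pos rfl, pow_one, X_dvd_th]
        simp
      · rw [if_neg hj, pow_zero]
        exact one_dvd _)
  simpa using h1

/-- The reflection of an integral class. -/
theorem WNef.step_nat {k : ℕ} {L : Fin n → ℕ} (h : WNef p (k : ℝ) (fun i => (L i : ℝ)))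
    (hsq : ∑ i, L i ^ 2 = p * k ^ 2) {T : Finset (Fin n)} (hT : T.card = p + 2) :
    ∃ (k' : ℕ) (L' : Fin n → ℕ), (k' : ℤ) = k + (p * k - ∑ i ∈ T, (L i : ℤ)) ∧
      (∀ i, (L' i : ℤ) = L i + if i ∈ T then (p * k - ∑ i ∈ T, (L i : ℤ)) else 0) ∧
      WNef p (k' : ℝ) (fun i => (L' i : ℝ)) ∧ ∑ i, L' i ^ 2 = p * k' ^ 2 := by
  classical
  obtain ⟨δ, hδ⟩ : ∃ δ : ℤ, δ = p * k - ∑ i ∈ T, (L i : ℤ) := ⟨_, rfl⟩
  obtain ⟨i, hi⟩ : ∃ i : Fin (p + 2) → Fin n, i = T.orderEmbOfFin hT := ⟨_, rfl⟩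
  have hinj : Function.Injective i := by
    rw [hi]
    exact (T.orderEmbOfFin hT).injective
  have hr : ∀ l, (∃ k, i k = l) ↔ l ∈ T := by
    intro l
    have h1 := T.range_orderEmbOfFin hT
    rw [← hi] at h1
    rw [← Set.mem_range, h1, Finset.mem_coe]
  have hsum : ∑ k, (L (i k) : ℝ) = ∑ l ∈ T, (L l : ℝ) := by
    rw [← Finset.sum_image (s := Finset.univ) (g := i) (f := fun l => (L l : ℝ))
      (fun a _ b _ hab => hinj hab)]
    congr 1
    ext l
    rw [← hr]
    simp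
  have hδR : (δ : ℝ) = p * k - ∑ k, (L (i k) : ℝ) := by
    rw [hδ, hsum]
    push_cast
    rfl
  have h1 := h.step hinj hδR
  have hk : 0 ≤ (k : ℤ) + δ := by
    have := h1.nonneg
    exact_mod_cast this
  have hL : ∀ l, 0 ≤ (L l : ℤ) + if l ∈ T then δ else 0 := by
    intro l
    have h2 := h1.1 l
    dsimp only at h2
    by_cases hl : l ∈ T
    · rw [if_pos hl]
      rw [if_pos ((hr l).2 hl)] at h2
      exact_mod_cast h2
    · rw [if_neg hl]
      omega
  obtain ⟨k', hk'⟩ := Int.eq_ofNat_of_zero_le hk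
  choose L' hL' using fun l => Int.eq_ofNat_of_zero_le (hL l)
  refine ⟨k', L', ?_, ?_, ?_, ?_⟩
  · rw [← hδ]
    exact hk'.symm
  · intro l
    rw [← hδ]
    exact (hL' l).symm
  · have e1 : (k' : ℝ) = k + δ := by
      have := hk'.symm
      exact_mod_cast this
    have e2 : (fun l => (L' l : ℝ)) = fun l => (L l : ℝ) + if ∃ k, i k = l then (δ : ℝ) else 0 := by
      funext l
      have h2 : ((L' l : ℤ) : ℝ) = (((L l : ℤ) + if l ∈ T then δ else 0 : ℤ) : ℝ) := by
        rw [hL' l]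
      push_cast at h2
      rw [h2]
      by_cases hl : l ∈ T
      · rw [if_pos hl, if_pos ((hr l).2 hl)]
      · rw [if_neg hl, if_neg (fun h => hl ((hr l).1 h))]
    rw [e1, e2]
    exact h1
  · have h2 : ((∑ i, L' i ^ 2 : ℕ) : ℤ) = ((p * k' ^ 2 : ℕ) : ℤ) := by
      push_cast
      have h3 : ∑ l, (L' l : ℤ) ^ 2 = ∑ l, (L l : ℤ) ^ 2 +
          (2 * δ * ∑ l ∈ T, (L l : ℤ) + δ ^ 2 * T.card) := by
        have h4 : ∀ l, (L' l : ℤ) ^ 2 = (L l : ℤ) ^ 2 +
            if l ∈ T then 2 * δ * (L l : ℤ) + δ ^ 2 else 0 := by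
          intro l
          have h5 : (L' l : ℤ) = L l + if l ∈ T then δ else 0 := (hL' l).symm
          rw [h5]
          split_ifs <;> ring
        rw [Finset.sum_congr rfl fun l _ => h4 l, Finset.sum_add_distrib, ← Finset.sum_filter,
          Finset.filter_mem_eq_inter, Finset.univ_inter, Finset.sum_add_distrib,
          ← Finset.mul_sum, Finset.sum_const, nsmul_eq_mul]
        ring
      have h5 : ∑ l, (L l : ℤ) ^ 2 = p * k ^ 2 := by exact_mod_cast hsq
      have h6 : (k' : ℤ) = k + δ := hk'.symm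
      rw [h3, h5, h6, hT]
      have h7 : ∑ l ∈ T, (L l : ℤ) = p * k - δ := by
        rw [hδ]
        ring
      rw [h7]
      push_cast
      ring
    exact_mod_cast h2

/-- A set of `p + 2` indices with small sum. -/
theorem exists_small {L : Fin n → ℕ} {k : ℕ} (hk : 0 < k) (hp : 5 ≤ p) (hn : p + 5 ≤ n)
    (hsq : ∑ i, L i ^ 2 = p * k ^ 2) :
    ∃ T : Finset (Fin n), T.card = p + 2 ∧ ∑ i ∈ T, L i < p * k := by
  classical
  have hne : (Finset.powersetCard (p + 2) (Finset.univ : Finset (Fin n))).Nonempty := by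
    rw [Finset.powersetCard_nonempty]
    simp
    omega
  obtain ⟨T, hT, hmin⟩ := Finset.exists_min_image _ (fun T : Finset (Fin n) => ∑ i ∈ T, L i) hne
  have hTc : T.card = p + 2 := (Finset.mem_powersetCard.1 hT).2
  refine ⟨T, hTc, ?_⟩
  -- swapping
  have hswap : ∀ i ∈ T, ∀ j ∈ Tᶜ, L i ≤ L j := by
    intro i hi j hj
    have hj' : j ∉ T := Finset.mem_compl.1 hj
    have h1 := hmin (insert j (T.erase i)) (by
      rw [Finset.mem_powersetCard]
      refine ⟨Finset.subset_univ _, ?_⟩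
      rw [Finset.card_insert_of_notMem (fun h => hj' (Finset.mem_of_mem_erase h)),
        Finset.card_erase_of_mem hi, hTc]
      omega)
    rw [Finset.sum_insert (fun h => hj' (Finset.mem_of_mem_erase h)),
      ← Finset.add_sum_erase T _ hi] at h1
    omega
  have hcc : (Tᶜ : Finset (Fin n)).card = n - (p + 2) := by
    rw [Finset.card_compl, Fintype.card_fin, hTc]
  have h1 : Tᶜ.card * ∑ i ∈ T, L i ≤ T.card * ∑ j ∈ Tᶜ, L j := by
    calc Tᶜ.card * ∑ i ∈ T, L i = ∑ i ∈ T, ∑ _j ∈ Tᶜ, L i := by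
          rw [Finset.mul_sum]
          refine Finset.sum_congr rfl fun i _ => ?_
          rw [Finset.sum_const, smul_eq_mul]
      _ ≤ ∑ i ∈ T, ∑ j ∈ Tᶜ, L j := Finset.sum_le_sum fun i hi =>
          Finset.sum_le_sum fun j hj => hswap i hi j hj
      _ = T.card * ∑ j ∈ Tᶜ, L j := by
          rw [Finset.sum_const, smul_eq_mul]
  have h2 : ∑ i ∈ T, L i + ∑ j ∈ Tᶜ, L j = ∑ i, L i := Finset.sum_add_sum_compl T _
  have h3 : n * ∑ i ∈ T, L i ≤ (p + 2) * ∑ i, L i := by
    rw [hcc, hTc] at h1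
    rw [← h2]
    have h0 : (n - (p + 2)) * ∑ i ∈ T, L i + (p + 2) * ∑ i ∈ T, L i = n * ∑ i ∈ T, L i := by
      rw [← add_mul]
      congr 1
      omega
    rw [← h0, mul_add]
    omega
  have h4 : (∑ i, L i) ^ 2 ≤ n * (p * k ^ 2) := by
    have h5 := sq_sum_le_card_mul_sum_sq (s := (Finset.univ : Finset (Fin n))) (f := L)
    rw [hsq, Finset.card_univ, Fintype.card_fin] at h5
    exact h5
  by_contra hcon
  rw [not_lt] at hcon
  have h5 : n * (p * k) ≤ (p + 2) * ∑ i, L i := (Nat.mul_le_mul_left _ hcon).trans h3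
  have h6 : (n * (p * k)) ^ 2 ≤ (p + 2) ^ 2 * (n * (p * k ^ 2)) := by
    calc (n * (p * k)) ^ 2 ≤ ((p + 2) * ∑ i, L i) ^ 2 := Nat.pow_le_pow_left h5 2
      _ = (p + 2) ^ 2 * (∑ i, L i) ^ 2 := by ring
      _ ≤ (p + 2) ^ 2 * (n * (p * k ^ 2)) := Nat.mul_le_mul_left _ h4
  have h7 : n * p ≤ (p + 2) ^ 2 := by
    have h8 : (n * p * k ^ 2) * (n * p) ≤ (n * p * k ^ 2) * (p + 2) ^ 2 := by nlinarith
    refine Nat.le_of_mul_le_mul_left h8 ?_
    have hn0 : 0 < n := by omega
    have hp0 : 0 < p := by omega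
    positivity
  have h8 : (p + 5) * p ≤ n * p := Nat.mul_le_mul_right _ hn
  nlinarith

end Pool.Agent.J4H37.WN
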