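import Pool.Agent.J4H37.WN.WpG

set_option autoImplicit false

/-!
# From emptiness along one ray to nefness on the weighted plane `(1, p)`
-/

namespace Pool.Agent.J4H37.WN

open Polynomial

/-- `h (X + x, Y + y)`. -/
noncomputable def sh2 {K : Type} [Field K] (x y : K) :
    MvPolynomial (Fin 2) K →+* MvPolynomial (Fin 2) K :=
  MvPolynomial.eval₂Hom MvPolynomial.C
    ![MvPolynomial.X 0 + MvPolynomial.C x, MvPolynomial.X 1 + MvPolynomial.C y]

theorem th_eq {K : Type} [Field K] (x y : K) (h : MvPolynomial (Fin 2) K) :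
    th x y h = om 1 (sh2 x y h) := by
  have h1 : th x y = (om 1).comp (sh2 x y) := by
    apply MvPolynomial.ringHom_ext
    · intro c
      simp [th, om, sh2]
    · intro i
      fin_cases i
      · simp [th, om, sh2, add_comm]
      · simp [th, om, sh2, add_comm]
  exact DFunLike.congr_fun h1 h

theorem dvd_th_iff {K : Type} [Field K] {x y : K} {h : MvPolynomial (Fin 2) K} {w : ℕ} :
    X ^ w ∣ th x y h ↔ ∀ s : Fin 2 →₀ ℕ, s 0 + s 1 < w →
      MvPolynomial.coeff s (sh2 x y h) = 0 := by
  rw [th_eq, X_pow_dvd_iff]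
  constructor
  · intro h1 s hs
    have h2 := om_coeff 1 (sh2 x y h) (s 0 + s 1) s
    rw [h1 _ hs, one_mul, if_pos rfl] at h2
    simpa using h2.symm
  · intro h1 d hd
    ext s
    rw [om_coeff, MvPolynomial.coeff_zero]
    split_ifs with h2
    · exact h1 s (by omega)
    · rfl

theorem sh2_inv {K : Type} [Field K] (x y : K) (h : MvPolynomial (Fin 2) K) :
    sh2 (-x) (-y) (sh2 x y h) = h := by
  have h1 : (sh2 (-x) (-y)).comp (sh2 x y) = RingHom.id _ := by
    apply MvPolynomial.ringHom_ext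
    · intro c
      simp [sh2]
    · intro i
      fin_cases i <;> simp [sh2]
  exact DFunLike.congr_fun h1 h

/-- Orders and ideals. -/
theorem mem_of_th {K : Type} [Field K] {x y : K} {h : MvPolynomial (Fin 2) K} {m : ℕ}
    (hm : X ^ m ∣ th x y h) : h ∈ (Ideal.span {MvPolynomial.X 0 - MvPolynomial.C x,
      MvPolynomial.X 1 - MvPolynomial.C y} : Ideal (MvPolynomial (Fin 2) K)) ^ m := by
  rw [dvd_th_iff] at hm
  obtain ⟨I, hI⟩ : ∃ I : Ideal (MvPolynomial (Fin 2) K), I =
    Ideal.span {MvPolynomial.X 0 - MvPolynomial.C x, MvPolynomial.X 1 - MvPolynomial.C y} :=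
    ⟨_, rfl⟩
  rw [← hI]
  have hx : (MvPolynomial.X 0 - MvPolynomial.C x : MvPolynomial (Fin 2) K) ∈ I := by
    rw [hI]
    exact Ideal.subset_span (by simp)
  have hy : (MvPolynomial.X 1 - MvPolynomial.C y : MvPolynomial (Fin 2) K) ∈ I := by
    rw [hI]
    exact Ideal.subset_span (by simp)
  rw [← sh2_inv x y h, (sh2 x y h).as_sum, map_sum]
  refine Ideal.sum_mem _ fun s hs => ?_
  have h1 : m ≤ s 0 + s 1 := by
    by_contra hcon
    exact MvPolynomial.mem_support_iff.1 hs (hm s (not_le.1 hcon))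
  have h2 : sh2 (-x) (-y) (MvPolynomial.monomial s (MvPolynomial.coeff s (sh2 x y h))) =
      MvPolynomial.C (MvPolynomial.coeff s (sh2 x y h)) *
        ((MvPolynomial.X 0 - MvPolynomial.C x) ^ s 0 *
          (MvPolynomial.X 1 - MvPolynomial.C y) ^ s 1) := by
    rw [MvPolynomial.monomial_eq, Finsupp.prod_fintype _ _ (by simp), Fin.prod_univ_two]
    simp [sh2, sub_eq_add_neg]
  rw [h2]
  refine Ideal.mul_mem_left _ _ (Ideal.pow_le_pow_right h1 ?_)
  rw [pow_add]
  exact Ideal.mul_mem_mul (Ideal.pow_mem_pow hx _) (Ideal.pow_mem_pow hy _)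

/-- The exponents of weight at most `B`. -/
def wexp (p B : ℕ) : Finset (ℕ × ℕ) :=
  (Finset.range (B + 1) ×ˢ Finset.range (B + 1)).filter fun s => s.1 + p * s.2 ≤ B

theorem card_wexp {p B : ℕ} (hp : 0 < p) : B ^ 2 < 2 * p * (wexp p B).card := by
  have h1 : (wexp p B).card = ∑ b ∈ Finset.range (B / p + 1), (B - p * b + 1) := by
    have h2 : wexp p B = (Finset.range (B / p + 1)).biUnion fun b =>
        (Finset.range (B - p * b + 1)).image fun a => (a, b) := by
      ext ⟨a, b⟩
      unfold wexp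
      simp only [Finset.mem_filter, Finset.mem_product, Finset.mem_range, Finset.mem_biUnion,
        Finset.mem_image, Prod.mk.injEq]
      constructor
      · rintro ⟨⟨h3, h4⟩, h5⟩
        refine ⟨b, ?_, a, by omega, rfl, rfl⟩
        rw [Nat.lt_succ_iff, Nat.le_div_iff_mul_le hp]
        nlinarith
      · rintro ⟨b', h3, a', h4, rfl, rfl⟩
        rw [Nat.lt_succ_iff, Nat.le_div_iff_mul_le hp, mul_comm] at h3
        have h5 : b' ≤ p * b' := Nat.le_mul_of_pos_left _ hp
        exact ⟨⟨by omega, by omega⟩, by omega⟩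
    rw [h2, Finset.card_biUnion]
    · refine Finset.sum_congr rfl fun b _ => ?_
      rw [Finset.card_image_of_injective _ (fun a a' h => (Prod.ext_iff.1 h).1),
        Finset.card_range]
    · intro b _ b' _ hb
      rw [Function.onFun, Finset.disjoint_left]
      rintro ⟨a, c⟩ h3 h4
      simp only [Finset.mem_image, Finset.mem_range, Prod.mk.injEq] at h3 h4
      obtain ⟨_, _, _, rfl⟩ := h3
      obtain ⟨_, _, _, h5⟩ := h4
      exact hb h5.symm
  obtain ⟨m, hm⟩ : ∃ m, m = B / p := ⟨_, rfl⟩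
  have hm1 : p * m ≤ B := by
    rw [hm]
    exact Nat.mul_div_le B p
  have hm2 : B < p * (m + 1) := by
    rw [hm]
    exact Nat.lt_mul_div_succ B hp
  rw [← hm] at h1
  have h3 : ∀ k : ℕ, (2 * ∑ b ∈ Finset.range k, ((B : ℤ) - p * b + 1)) =
      2 * k * (B + 1) - p * (k * (k - 1)) := by
    intro k
    induction k with
    | zero => simp
    | succ k ih =>
      rw [Finset.sum_range_succ]
      push_cast
      linear_combination ih
  have h5 : ((wexp p B).card : ℤ) = ∑ b ∈ Finset.range (m + 1), ((B : ℤ) - p * b + 1) := by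
    rw [h1]
    push_cast
    refine Finset.sum_congr rfl fun b hb => ?_
    have h6 : p * b ≤ B := by
      have h7 := Finset.mem_range.1 hb
      have : p * b ≤ p * m := Nat.mul_le_mul_left _ (by omega)
      omega
    rw [Nat.cast_sub h6]
    push_cast
    ring
  have h6 : (2 * ((wexp p B).card : ℤ)) = (m + 1) * (2 * (B + 1) - p * m) := by
    rw [h5, h3]
    push_cast
    ring
  have h7 : ((B ^ 2 : ℕ) : ℤ) < ((2 * p * (wexp p B).card : ℕ) : ℤ) := by
    push_cast
    have e1 : (2 * p * (wexp p B).card : ℤ) = (p * (m + 1)) * (2 * (B + 1) - p * m) := by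
      rw [mul_assoc, mul_left_comm, h6]
      ring
    rw [e1]
    have a1 : (p * m : ℤ) ≤ B := by exact_mod_cast hm1
    have a2 : (B : ℤ) < p * (m + 1) := by exact_mod_cast hm2
    have a3 : (0 : ℤ) ≤ B := Int.natCast_nonneg _
    nlinarith
  exact_mod_cast h7

end Pool.Agent.J4H37.WN
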