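import Pool.Agent.J4H37.WN.WpH
import Pool.Agent.TH366.RC.Fits
import Pool.Agent.TH545.Nag.Gen
import Pool.Agent.TH176.Nag.Main

set_option autoImplicit false

/-!
# From emptiness along one ray to nefness on the weighted plane `(1, p)`, II
-/

namespace Pool.Agent.J4H37.WN

open Polynomial

variable {n p : ℕ}

theorem ex2_inj : Function.Injective ex2 := by
  intro s t h
  have h0 := DFunLike.congr_fun h 0
  have h1 := DFunLike.congr_fun h 1
  rw [ex2_zero, ex2_zero] at h0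
  rw [ex2_one, ex2_one] at h1
  exact Prod.ext h0 h1

theorem sum_conds (m : ℕ) : 2 * ∑ k : Fin m, ((k : ℕ) + 1) = m * (m + 1) := by
  rw [Fin.sum_univ_eq_sum_range (fun k => k + 1) m]
  induction m with
  | zero => simp
  | succ m ih =>
    rw [Finset.sum_range_succ, mul_add, ih]
    ring

/-- Polynomials with few conditions exist. -/
theorem exists_wpoly (hp : 0 < p) (Q : Fin n → Fin 2 → ℂ) (v : Fin n → ℕ) (B : ℕ)
    (h : p * ∑ i, v i * (v i + 1) ≤ B ^ 2) :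
    ∃ g : MvPolynomial (Fin 2) ℂ, g ≠ 0 ∧ (om p g).natDegree ≤ B ∧
      ∀ i, X ^ v i ∣ th (Q i 0) (Q i 1) g := by
  classical
  obtain ⟨A, hA⟩ : ∃ A : (i : Fin n) → MvPolynomial (Fin 2) ℂ →ₗ[ℂ] MvPolynomial (Fin 2) ℂ,
    A = fun i => (MvPolynomial.aeval ![MvPolynomial.X 0 + MvPolynomial.C (Q i 0),
      MvPolynomial.X 1 + MvPolynomial.C (Q i 1)]).toLinearMap := ⟨_, rfl⟩
  have hA' : ∀ i g, A i g = sh2 (Q i 0) (Q i 1) g := by
    intro i g
    rw [hA]
    rfl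
  obtain ⟨P, hP⟩ : ∃ P : (↥(wexp p B) → ℂ) →ₗ[ℂ] MvPolynomial (Fin 2) ℂ,
    P = ∑ s : ↥(wexp p B), (MvPolynomial.monomial (ex2 s.1)).comp (LinearMap.proj s) := ⟨_, rfl⟩
  have hP' : ∀ c, P c = ∑ s : ↥(wexp p B), MvPolynomial.monomial (ex2 s.1) (c s) := by
    intro c
    rw [hP]
    simp
  have hPc : ∀ c (s : ↥(wexp p B)), MvPolynomial.coeff (ex2 s.1) (P c) = c s := by
    intro c s
    rw [hP', MvPolynomial.coeff_sum, Finset.sum_eq_single s]
    · rw [MvPolynomial.coeff_monomial, if_pos rfl]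
    · intro t _ ht
      rw [MvPolynomial.coeff_monomial, if_neg]
      intro h1
      exact ht (Subtype.ext (ex2_inj h1))
    · intro h1
      exact absurd (Finset.mem_univ s) h1
  obtain ⟨Φ, hΦ⟩ : ∃ Φ : (↥(wexp p B) → ℂ) →ₗ[ℂ]
      ((Σ i : Fin n, Σ k : Fin (v i), Fin ((k : ℕ) + 1)) → ℂ),
    Φ = LinearMap.pi fun r => (MvPolynomial.lcoeff ℂ
      (ex2 ((r.2.2 : ℕ), (r.2.1 : ℕ) - (r.2.2 : ℕ)))).comp ((A r.1).comp P) := ⟨_, rfl⟩
  have hlt : Module.finrank ℂ ((Σ i : Fin n, Σ k : Fin (v i), Fin ((k : ℕ) + 1)) → ℂ) <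
      Module.finrank ℂ (↥(wexp p B) → ℂ) := by
    rw [Module.finrank_fintype_fun_eq_card, Module.finrank_fintype_fun_eq_card,
      Fintype.card_coe, Fintype.card_sigma]
    have h1 := card_wexp (B := B) hp
    have h2 : 2 * ∑ i, Fintype.card (Σ k : Fin (v i), Fin ((k : ℕ) + 1)) =
        ∑ i, v i * (v i + 1) := by
      rw [Finset.mul_sum]
      refine Finset.sum_congr rfl fun i _ => ?_
      rw [Fintype.card_sigma, ← sum_conds]
      simp
    have h3 : p * (2 * ∑ i, Fintype.card (Σ k : Fin (v i), Fin ((k : ℕ) + 1))) <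
        p * (2 * (wexp p B).card) := by
      rw [h2]
      calc p * ∑ i, v i * (v i + 1) ≤ B ^ 2 := h
        _ < 2 * p * (wexp p B).card := h1
        _ = p * (2 * (wexp p B).card) := by ring
    have h4 := Nat.lt_of_mul_lt_mul_left h3
    omega
  obtain ⟨c, hc, hc0⟩ := Submodule.exists_mem_ne_zero_of_ne_bot
    (LinearMap.ker_ne_bot_of_finrank_lt (f := Φ) hlt)
  rw [LinearMap.mem_ker] at hc
  refine ⟨P c, ?_, ?_, ?_⟩
  · intro h0
    apply hc0
    funext s
    rw [← hPc c s, h0]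
    simp
  · rw [om_le_iff]
    intro s hs
    rw [hP'] at hs
    have h1 := MvPolynomial.support_sum hs
    rw [Finset.mem_biUnion] at h1
    obtain ⟨t, _, ht⟩ := h1
    have h2 := MvPolynomial.support_monomial_subset ht
    rw [Finset.mem_singleton] at h2
    rw [h2, ex2_zero, ex2_one]
    exact (Finset.mem_filter.1 t.2).2
  · intro i
    rw [dvd_th_iff]
    intro s hs
    have h1 := congrFun hc ⟨i, ⟨s 0 + s 1, hs⟩, ⟨s 0, by simp only; omega⟩⟩
    rw [hΦ] at h1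
    simp only [LinearMap.pi_apply, LinearMap.comp_apply, Pi.zero_apply, hA',
      MvPolynomial.lcoeff_apply] at h1
    have h2 : ex2 (s 0, s 0 + s 1 - s 0) = s := by
      ext j
      fin_cases j
      · exact ex2_zero _
      · refine (ex2_one _).trans ?_
        simp
    rw [h2] at h1
    exact h1

/-- From one ray to all classes. -/
theorem wnef_of_ray (hp : 0 < p) {c : ℝ} (hc : 0 < c) {L : Fin n → ℝ} (hL : ∀ i, 0 ≤ L i)
    (hsq : ∑ i, L i ^ 2 ≤ p * c ^ 2)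
    (hray : ∀ Q : Fin n → Fin 2 → ℂ,
      AlgebraicIndependent ℚ (fun ij : Fin n × Fin 2 => Q ij.1 ij.2) → ∀ y : ℕ, 1 ≤ y →
      ∃ w : Fin n → ℕ, (∀ i, (w i : ℝ) ≤ y * L i + 1) ∧
        ∀ h : MvPolynomial (Fin 2) ℂ, (om p h).natDegree ≤ ⌊(y : ℝ) * (p * c)⌋₊ →
          (∀ i, X ^ (w i) ∣ th (Q i 0) (Q i 1) h) → h = 0) :
    WNef p c L := by
  refine ⟨hL, ?_⟩
  intro Q hQ d w f hf0 hfd hf
  have hpR : (1 : ℝ) ≤ p := by exact_mod_cast hp
  by_contra hcon
  rw [not_le] at hcon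
  have hd0 : (0 : ℝ) ≤ d := Nat.cast_nonneg d
  obtain ⟨δ, hδ⟩ : ∃ δ : ℝ, δ = ∑ i, L i * (w i : ℝ) - c * d := ⟨_, rfl⟩
  have hδ0 : 0 < δ := by rw [hδ]; linarith
  obtain ⟨W, hW⟩ : ∃ W : ℝ, W = ∑ i, (w i : ℝ) ^ 2 := ⟨_, rfl⟩
  have hW0 : 0 ≤ W := by rw [hW]; positivity
  obtain ⟨Y, hY⟩ := exists_nat_gt ((W + 1) / δ + (d + 1) / c)
  have hY1 : (W + 1) / δ < Y := by
    have : 0 ≤ ((d : ℝ) + 1) / c := by positivity
    linarith
  have hY2 : (d + 1) / c < Y := by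
    have : 0 ≤ (W + 1) / δ := by positivity
    linarith
  rw [div_lt_iff₀ hδ0] at hY1
  rw [div_lt_iff₀ hc] at hY2
  have hYpos : (0 : ℝ) < Y := by
    by_contra h0
    push Not at h0
    nlinarith
  have hYN : 1 ≤ Y := by
    by_contra h0
    have : Y = 0 := by omega
    subst this
    simp at hYpos
  -- the constant in the linear term
  obtain ⟨C, hC⟩ : ∃ C : ℝ, C = ∑ i, (3 * |Y * L i - w i| + 2) := ⟨_, rfl⟩
  have hC0 : 0 ≤ C := by rw [hC]; positivity
  obtain ⟨D, hD⟩ : ∃ D : ℝ, D = Y * (p * c) - d := ⟨_, rfl⟩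
  have hYc : (d : ℝ) + 1 < Y * (p * c) := by
    have h1 : (Y : ℝ) * c ≤ Y * (p * c) := by
      have h2 : c ≤ p * c := le_mul_of_one_le_left hc.le hpR
      exact mul_le_mul_of_nonneg_left h2 hYpos.le
    nlinarith
  have hD1 : 1 < D := by rw [hD]; linarith
  obtain ⟨z, hz⟩ := exists_nat_gt (2 * D + p * C + 1)
  have hz1 : (1 : ℝ) < z := by
    have : (0 : ℝ) ≤ p * C := by positivity
    linarith
  have hzN : 1 ≤ z := by
    by_contra h0
    have : z = 0 := by omega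
    subst this
    simp at hz1
    linarith
  obtain ⟨w0, hw0, hE⟩ := hray Q hQ (Y * z) (Nat.mul_pos hYN hzN)
  obtain ⟨d0, hd0'⟩ : ∃ d0, d0 = ⌊((Y * z : ℕ) : ℝ) * (p * c)⌋₊ := ⟨_, rfl⟩
  rw [← hd0'] at hE
  have hfl : ((Y * z : ℕ) : ℝ) * (p * c) < d0 + 1 := by
    rw [hd0']
    exact Nat.lt_floor_add_one _
  push_cast at hfl
  have hzd : z * d ≤ d0 := by
    have h1 : ((z * d : ℕ) : ℝ) < ((d0 + 1 : ℕ) : ℝ) := by
      push_cast
      nlinarith
    have h2 : z * d < d0 + 1 := by exact_mod_cast h1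
    omega
  obtain ⟨e, he⟩ := Nat.exists_eq_add_of_le hzd
  have hcount : p * ∑ i, (w0 i - z * w i) * (w0 i - z * w i + 1) ≤ e ^ 2 := by
    have h1 : ∀ i, (((w0 i - z * w i) * (w0 i - z * w i + 1) : ℕ) : ℝ) ≤
        (z : ℝ) ^ 2 * (Y * L i - w i) ^ 2 + z * (3 * |Y * L i - w i| + 2) := by
      intro i
      have habs : Y * L i - w i ≤ |Y * L i - w i| := le_abs_self _
      have habs0 : 0 ≤ |Y * L i - w i| := abs_nonneg _
      rcases le_or_gt (w0 i) (z * w i) with h | h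
      · rw [Nat.sub_eq_zero_of_le h, zero_mul, Nat.cast_zero]
        positivity
      · have h2 : ((w0 i - z * w i : ℕ) : ℝ) = (w0 i : ℝ) - z * w i := by
          rw [Nat.cast_sub h.le]; push_cast; ring
        have h3 : (0 : ℝ) ≤ (w0 i : ℝ) - z * w i := by
          rw [← h2]; exact Nat.cast_nonneg _
        have h4 : (w0 i : ℝ) - z * w i ≤ z * (Y * L i - w i) + 1 := by
          have := hw0 i
          push_cast at this
          linarith
        rw [Nat.cast_mul, Nat.cast_add, Nat.cast_one, h2]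
        have h5 : ((w0 i : ℝ) - z * w i) * ((w0 i : ℝ) - z * w i + 1) ≤
            (z * (Y * L i - w i) + 1) * (z * (Y * L i - w i) + 1 + 1) :=
          mul_le_mul h4 (by linarith) (by linarith) (by linarith)
        refine h5.trans ?_
        have h6 : z * (Y * L i - w i) ≤ z * |Y * L i - w i| :=
          mul_le_mul_of_nonneg_left habs (by linarith)
        nlinarith
    have h2 : ((∑ i, (w0 i - z * w i) * (w0 i - z * w i + 1) : ℕ) : ℝ) ≤
        (z : ℝ) ^ 2 * ∑ i, (Y * L i - w i) ^ 2 + z * C := by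
      rw [Nat.cast_sum, hC, Finset.mul_sum, Finset.mul_sum, ← Finset.sum_add_distrib]
      exact Finset.sum_le_sum fun i _ => h1 i
    have h3 : ∑ i, (Y * L i - w i) ^ 2 =
        Y ^ 2 * ∑ i, L i ^ 2 - 2 * Y * ∑ i, L i * (w i : ℝ) + W := by
      rw [hW, Finset.mul_sum, Finset.mul_sum, ← Finset.sum_sub_distrib,
        ← Finset.sum_add_distrib]
      exact Finset.sum_congr rfl fun i _ => by ring
    have h4 : ∑ i, L i * (w i : ℝ) = δ + c * d := by rw [hδ]; ring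
    rw [h4] at h3
    have h5 : (z : ℝ) * D - 1 ≤ e := by
      have h6 : (d0 : ℝ) = z * d + e := by rw [he]; push_cast; ring
      rw [h6] at hfl
      rw [hD]
      nlinarith
    have h6 : (0 : ℝ) ≤ z * D - 1 := by nlinarith
    have h7 : ((z : ℝ) * D - 1) ^ 2 ≤ (e : ℝ) ^ 2 := pow_le_pow_left₀ h6 h5 2
    have h8 : (p : ℝ) * ((z : ℝ) ^ 2 * ∑ i, (Y * L i - w i) ^ 2 + z * C) ≤
        ((z : ℝ) * D - 1) ^ 2 := by
      have h9 : (Y : ℝ) ^ 2 * ∑ i, L i ^ 2 ≤ Y ^ 2 * (p * c ^ 2) :=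
        mul_le_mul_of_nonneg_left hsq (by positivity)
      have h11 : (1 : ℝ) ≤ 2 * Y * δ - W := by nlinarith
      have h10 : (p : ℝ) * ∑ i, (Y * L i - w i) ^ 2 + 1 ≤ D ^ 2 := by
        have e1 : (p : ℝ) * ∑ i, (Y * L i - w i) ^ 2 ≤
            p * (Y ^ 2 * (p * c ^ 2) - 2 * Y * (δ + c * d) + W) := by
          rw [h3]
          exact mul_le_mul_of_nonneg_left (by linarith) (by positivity)
        have e2 : D ^ 2 = p * (Y ^ 2 * (p * c ^ 2) - 2 * Y * (δ + c * d) + W) +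
            p * (2 * Y * δ - W) + d ^ 2 := by
          rw [hD]
          ring
        have e3 : (1 : ℝ) ≤ p * (2 * Y * δ - W) := by nlinarith
        have e4 : (0 : ℝ) ≤ (d : ℝ) ^ 2 := by positivity
        linarith
      have h12 : (z : ℝ) ^ 2 * (p * ∑ i, (Y * L i - w i) ^ 2 + 1) ≤ z ^ 2 * D ^ 2 :=
        mul_le_mul_of_nonneg_left h10 (by positivity)
      have h13 : (z : ℝ) * (2 * D + p * C) ≤ z * z :=
        mul_le_mul_of_nonneg_left (by linarith) (by linarith)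
      nlinarith
    have h14 : (((p * ∑ i, (w0 i - z * w i) * (w0 i - z * w i + 1) : ℕ)) : ℝ) ≤
        ((e ^ 2 : ℕ) : ℝ) := by
      rw [Nat.cast_mul, Nat.cast_pow]
      exact (mul_le_mul_of_nonneg_left h2 (by positivity)).trans (h8.trans h7)
    exact_mod_cast h14
  obtain ⟨g, hg0, hgd, hg⟩ := exists_wpoly hp Q (fun i => w0 i - z * w i) e hcount
  have hfg : g * f ^ z = 0 := by
    refine hE _ ?_ fun i => ?_
    · rw [om_mul p hg0 (pow_ne_zero _ hf0), map_pow, natDegree_pow, he]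
      have := Nat.mul_le_mul_left z hfd
      omega
    · rw [map_mul, map_pow]
      have h1 := mul_dvd_mul (hg i) (pow_dvd_pow_of_dvd (hf i) z)
      rw [← pow_mul, ← pow_add] at h1
      refine (pow_dvd_pow _ ?_).trans h1
      have : w i * z = z * w i := mul_comm _ _
      omega
  rcases mul_eq_zero.1 hfg with h | h
  · exact hg0 h
  · exact pow_ne_zero _ hf0 h

end Pool.Agent.J4H37.WN
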