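import Pool.Agent.J4H37.WN.WpI

set_option autoImplicit false
set_option maxHeartbeats 400000

/-!
# The classes composed of squares are nef on the weighted planes `(1, p)`
-/

namespace Pool.Agent.J4H37.WN

open Polynomial Pool.Agent.TH176.Nag

variable {n p : ℕ}

theorem toL_support_w {K : Type} [Field K] {q : MvPolynomial (Fin 2) K} {D : ℕ}
    (hq : ∀ s, MvPolynomial.coeff s q ≠ 0 → s 0 + p * s 1 ≤ D) :
    (↑(toL K q).coeff.support : Set (ℤ × ℤ)) ⊆
      {m : ℤ × ℤ | 0 ≤ m.1 ∧ 0 ≤ m.2 ∧ m.1 + p * m.2 ≤ (D : ℤ)} := by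
  intro m hm
  have hm' : (toL K q).coeff m ≠ 0 := by simpa using hm
  rw [toL_coeff] at hm'
  obtain ⟨s, hs, hs'⟩ := Finset.exists_ne_zero_of_sum_ne_zero hm'
  have h1 : ((s 0 : ℤ), (s 1 : ℤ)) = m := by
    by_contra h; rw [if_neg h] at hs'; exact hs' rfl
  have h2 := hq s (MvPolynomial.mem_support_iff.1 hs)
  rw [← h1]
  refine ⟨by simp, by simp, ?_⟩
  simp only
  exact_mod_cast h2

theorem finite_tri_w (hp : 0 < p) (d : ℕ) :
    ({m : ℤ × ℤ | 0 ≤ m.1 ∧ 0 ≤ m.2 ∧ m.1 + p * m.2 ≤ (d : ℤ)}).Finite := by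
  apply Set.Finite.subset (Set.finite_Icc ((0, 0) : ℤ × ℤ) ((d : ℤ), (d : ℤ)))
  rintro ⟨a, b⟩ ⟨h1, h2, h3⟩
  simp only at h1 h2 h3
  rw [Set.mem_Icc, Prod.mk_le_mk, Prod.mk_le_mk]
  have hp' : (1 : ℤ) ≤ p := by exact_mod_cast hp
  have h4 : b ≤ p * b := by nlinarith
  have h5 : 0 ≤ p * b := by positivity
  exact ⟨⟨h1, h2⟩, by linarith, by linarith⟩

theorem sum_get' (L : List ℝ) (f : ℝ → ℝ) : ∑ i, f (L.get i) = (L.map f).sum := by
  have h : (List.ofFn fun i => f (L.get i)) = (List.ofFn L.get).map f := by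
    rw [List.map_ofFn]; rfl
  rw [← List.sum_ofFn, h, List.ofFn_get]

theorem mem_pt_pow {P : Fin 2 → ℂ} {h : MvPolynomial (Fin 2) ℂ} {m : ℕ}
    (hm : h ∈ (Ideal.span {MvPolynomial.X 0 - MvPolynomial.C (P 0),
      MvPolynomial.X 1 - MvPolynomial.C (P 1)} : Ideal (MvPolynomial (Fin 2) ℂ)) ^ m) :
    h ∈ (Pool.Agent.H932R5.pt (E := 1) P) ^ m := by
  have h5 : (Ideal.span {MvPolynomial.X 0 - MvPolynomial.C (P 0),
      MvPolynomial.X 1 - MvPolynomial.C (P 1)} : Ideal (MvPolynomial (Fin 2) ℂ)) ≤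
      (Pool.Agent.H932R5.pt (E := 1) P : Ideal (MvPolynomial (Fin 2) ℂ)) := by
    rw [Ideal.span_le]
    intro a ha
    rcases ha with ha | ha
    · exact Ideal.subset_span ⟨0, ha.symm⟩
    · exact Ideal.subset_span ⟨1, (Set.mem_singleton_iff.1 ha).symm⟩
  exact Ideal.pow_right_mono h5 m hm

theorem lm_aux {P : Fin 2 → ℂ} {h : MvPolynomial (Fin 2) ℂ} {m : ℕ} (h0 : P 0 ≠ 0)
    (h1 : P 1 ≠ 0) (hm : h ∈ (Pool.Agent.H932R5.pt (E := 1) P) ^ m) :
    LM (toL ℂ h).coeff (P 0) (P 1) m :=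
  LM_of_pt h0 h1 (P := P) rfl rfl hm

/-- **The classes composed of squares.** -/
theorem WNef.of_fits (hp : 0 < p) {c : ℝ} {L : List ℝ}
    (hF : Pool.Agent.TH366.RC.Fits (p * c) c L) {g : Fin L.length → Fin n}
    (hg : Function.Injective g) : WNef p c (Function.extend g L.get 0) := by
  classical
  obtain ⟨hb, hc, hpos, hsq, hT⟩ := hF.sem
  have hpR : (0 : ℝ) < p := by exact_mod_cast hp
  obtain ⟨L', hL'⟩ : ∃ L' : Fin n → ℝ, L' = Function.extend g L.get 0 := ⟨_, rfl⟩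
  rw [← hL']
  have e1 : ∀ j, L' (g j) = L.get j := fun j => by rw [hL', hg.extend_apply]
  have e2 : ∀ l, (¬ ∃ j, g j = l) → L' l = 0 := fun l hl => by
    rw [hL', Function.extend_apply' _ _ _ hl]
    rfl
  have hpos' : ∀ j, 0 < L.get j := fun j => hpos _ (List.get_mem L j)
  have hL0 : ∀ l, 0 ≤ L' l := by
    intro l
    by_cases hl : ∃ j, g j = l
    · obtain ⟨j, rfl⟩ := hl
      rw [e1]
      exact (hpos' j).le
    · rw [e2 l hl]
  refine wnef_of_ray hp hc hL0 ?_ ?_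
  · have h1 : ∑ l, L' l ^ 2 = ∑ j, L.get j ^ 2 := by
      have h2 := sum_img hg Finset.univ (fun l => L' l ^ 2)
      simp only [e1] at h2
      rw [← h2]
      refine Finset.sum_congr rfl fun l _ => ?_
      by_cases hl : ∃ j, g j = l
      · rw [if_pos (by simpa using hl)]
      · rw [if_neg (by simpa using hl), e2 l hl]
        ring
    rw [h1, sum_get' L fun t => t ^ 2, hsq]
    exact le_of_eq (by ring)
  · intro Q hQ y hy
    have hy' : (1 : ℝ) ≤ y := by exact_mod_cast hy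
    have hy0 : (0 : ℝ) < y := by linarith
    refine ⟨fun l => if ∃ j, g j = l then ⌊y * L' l⌋₊ + 1 else 0, fun l => ?_, ?_⟩
    · dsimp only
      by_cases hl : ∃ j, g j = l
      · rw [if_pos hl]
        push_cast
        have := Nat.floor_le (a := y * L' l) (mul_nonneg hy0.le (hL0 l))
        linarith
      · rw [if_neg hl]
        push_cast
        have := mul_nonneg hy0.le (hL0 l)
        linarith
    · intro h hd hh
      obtain ⟨w, hw⟩ : ∃ w : Fin L.length → ℕ, w = fun j => ⌊y * L.get j⌋₊ + 1 := ⟨_, rfl⟩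
      have h1 := hT w y hy0 (fun i => by
        rw [hw]
        push_cast
        exact Nat.lt_floor_add_one _) 0
      obtain ⟨d, hd'⟩ : ∃ d : ℕ, d = ⌊(y : ℝ) * (p * c)⌋₊ := ⟨_, rfl⟩
      rw [← hd'] at hd
      have h2 : Emp w {m : ℤ × ℤ | 0 ≤ m.1 ∧ 0 ≤ m.2 ∧ m.1 + p * m.2 ≤ (d : ℤ)} := by
        refine h1.mono ?_
        rintro ⟨a, b⟩ ⟨h3, h4, h5⟩
        simp only at h3 h4 h5
        have h3' : (0 : ℝ) ≤ a := by exact_mod_cast h3
        have h5' : ((a + p * b : ℤ) : ℝ) ≤ ((d : ℤ) : ℝ) := by exact_mod_cast h5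
        push_cast at h5'
        have h6 : (d : ℝ) ≤ y * (p * c) := by
          rw [hd']
          exact Nat.floor_le (by positivity)
        have h7 : (p : ℝ) * c / c = p := by field_simp
        refine ⟨h4, ?_, ?_⟩
        · simp only; linarith
        · simp only
          rw [zero_add, zero_add, mul_assoc, Pool.Agent.TH366.RC.sqrt_mul_sqrt_div hb hc, h7]
          linarith
      have hxy : AlgebraicIndependent ℚ (fun q : Fin L.length × Fin 2 =>
          ![(fun j => Q (g j) 0) q.1, (fun j => Q (g j) 1) q.1] q.2) := by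
        have h3 : (fun q : Fin L.length × Fin 2 =>
            (![(fun j => Q (g j) 0) q.1, (fun j => Q (g j) 1) q.1] : Fin 2 → ℂ) q.2) =
            fun q : Fin L.length × Fin 2 => Q (g q.1) q.2 := by
          funext q
          obtain ⟨i, j⟩ := q
          fin_cases j <;> rfl
        rw [h3]
        refine hQ.comp (fun ij : Fin L.length × Fin 2 => (g ij.1, ij.2)) ?_
        rintro ⟨a, b⟩ ⟨a', b'⟩ hab
        have h4 := Prod.ext_iff.1 hab
        exact Prod.ext (hg h4.1) h4.2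
      have hne : ∀ j k, Q (g j) k ≠ 0 := fun j k => hQ.ne_zero (g j, k)
      have key := Pool.Agent.TH545.Nag.Emp_generic (finite_tri_w hp d)
        (fun m hm => ⟨hm.1, hm.2.1⟩) h2 (x := fun j => Q (g j) 0) (y := fun j => Q (g j) 1) hxy
      have hLM : ∀ j, LM (toL ℂ h).coeff (Q (g j) 0) (Q (g j) 1) (w j) := by
        intro j
        have h3 := hh (g j)
        dsimp only at h3
        rw [if_pos ⟨j, rfl⟩, e1] at h3
        have h4 := mem_of_th h3
        have h5 := mem_pt_pow h4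
        have h6 : w j = ⌊(y : ℝ) * L.get j⌋₊ + 1 := by rw [hw]
        rw [← h6] at h5
        exact lm_aux (hne j 0) (hne j 1) h5
      have h0 := key (toL ℂ h).coeff (toL_support_w (fun s hs =>
        (om_le_iff p h d).1 hd s (MvPolynomial.mem_support_iff.2 hs))) hLM
      exact toL_eq_zero h0

end Pool.Agent.J4H37.WN
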