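import Pool.Agent.J4H37.WN.WpJ

set_option autoImplicit false

/-!
# The case `p = 1`, and real classes
-/

namespace Pool.Agent.J4H37.WN

open Polynomial Pool.Agent.TH167

variable {p n : ℕ}

/-- Dehomogenization. -/
noncomputable def deh : MvPolynomial (Fin 3) ℂ →+* MvPolynomial (Fin 2) ℂ :=
  MvPolynomial.eval₂Hom MvPolynomial.C ![MvPolynomial.X 0, MvPolynomial.X 1, 1]

theorem deh_monomial (t : Fin 3 →₀ ℕ) (c : ℂ) :
    deh (MvPolynomial.monomial t c) = MvPolynomial.monomial (ex2 (t 0, t 1)) c := by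
  rw [← mono_eq, MvPolynomial.monomial_eq, Finsupp.prod_fintype _ _ (by simp),
    Fin.prod_univ_three]
  simp [deh]

theorem deh_coeff {G : MvPolynomial (Fin 3) ℂ} {d : ℕ} (hG : G.IsHomogeneous d)
    {t : Fin 3 →₀ ℕ} (ht : t ∈ G.support) :
    MvPolynomial.coeff (ex2 (t 0, t 1)) (deh G) = MvPolynomial.coeff t G := by
  classical
  have hdeg : ∀ s ∈ G.support, s 0 + s 1 + s 2 = d := by
    intro s hs
    have h1 := hG (MvPolynomial.mem_support_iff.1 hs)
    rw [Finsupp.weight_apply, Finsupp.sum_fintype _ _ (by simp), Fin.sum_univ_three] at h1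
    simpa using h1
  conv_lhs => rw [G.as_sum, map_sum, MvPolynomial.coeff_sum]
  rw [Finset.sum_eq_single t]
  · rw [deh_monomial, MvPolynomial.coeff_monomial, if_pos rfl]
  · intro s hs hst
    rw [deh_monomial, MvPolynomial.coeff_monomial, if_neg]
    intro h1
    have h2 := ex2_inj h1
    have h3 := Prod.ext_iff.1 h2
    simp only at h3
    have h4 := hdeg s hs
    have h5 := hdeg t ht
    apply hst
    ext j
    fin_cases j
    · exact h3.1
    · exact h3.2
    · change s 2 = t 2
      omega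
  · intro h
    exact absurd ht h

/-- The classes which are nef on the weighted plane `(1, 1)` are nef on the plane. -/
theorem WNef.curv_one {c : ℝ} {L : Fin n → ℝ} (h : WNef 1 c L) {P : Fin n → Fin 2 → ℂ}
    (hP : AlgebraicIndependent ℚ (fun ij : Fin n × Fin 2 => P ij.1 ij.2)) :
    ∀ x ∈ Pool.Agent.R355.ConeAct.curvCone P, 0 ≤ Pool.Agent.R355.ConeAct.dot (c, L) x := by
  classical
  refine Pool.Agent.R355.ConeAct.nef_of_gen ?_
  rintro x (⟨G, d, w, hG, rfl⟩ | ⟨j, rfl⟩)
  · have hG0 := hG.irreducible.ne_zero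
    obtain ⟨t, ht⟩ := MvPolynomial.support_nonempty.2 hG0
    have h0 : deh G ≠ 0 := by
      intro h0
      have h1 := deh_coeff hG.homogeneous ht
      rw [h0, MvPolynomial.coeff_zero] at h1
      exact MvPolynomial.mem_support_iff.1 ht h1.symm
    have hd : (om 1 (deh G)).natDegree ≤ d := by
      rw [om_le_iff]
      intro s hs
      rw [G.as_sum, map_sum] at hs
      have h1 := MvPolynomial.support_sum hs
      rw [Finset.mem_biUnion] at h1
      obtain ⟨t, ht, h2⟩ := h1
      rw [deh_monomial] at h2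
      have h3 := MvPolynomial.support_monomial_subset h2
      rw [Finset.mem_singleton] at h3
      rw [h3, ex2_zero, ex2_one]
      have h4 := hG.homogeneous (MvPolynomial.mem_support_iff.1 ht)
      rw [Finsupp.weight_apply, Finsupp.sum_fintype _ _ (by simp), Fin.sum_univ_three] at h4
      simp at h4
      simp only
      omega
    have ho : ∀ i, X ^ (w i) ∣ th (P i 0) (P i 1) (deh G) := by
      intro i
      apply th_of_mem
      have h1 := Ideal.mem_map_of_mem deh (hG.mult i).1
      rw [Ideal.map_pow] at h1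
      refine Ideal.pow_right_mono ?_ (w i) h1
      unfold SHDefs.pt
      rw [Ideal.map_span, Ideal.span_le]
      rintro _ ⟨g, hg, rfl⟩
      rcases hg with rfl | rfl
      · refine Ideal.subset_span (Or.inl ?_)
        simp [deh]
      · refine Ideal.subset_span (Or.inr ?_)
        simp [deh]
    have h1 := h.2 P hP d w (deh G) h0 hd ho
    unfold Pool.Agent.R355.ConeAct.dot
    simp only
    linarith
  · unfold Pool.Agent.R355.ConeAct.dot
    simp only [mul_zero, zero_sub]
    rw [Finset.sum_eq_single j]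
    · rw [Pi.single_eq_same]
      have : 0 ≤ L j := h.1 j
      linarith
    · intro l _ hl
      rw [Pi.single_eq_of_ne hl, mul_zero]
    · intro h
      exact absurd (Finset.mem_univ j) h

/-- The reflection of a real class. -/
theorem WNef.step_real {c : ℝ} {L : Fin n → ℝ} (h : WNef p c L)
    (hsq : ∑ i, L i ^ 2 = p * c ^ 2) {T : Finset (Fin n)} (hT : T.card = p + 2) :
    WNef p (c + (p * c - ∑ i ∈ T, L i)) (fun l => L l + if l ∈ T then p * c - ∑ i ∈ T, L i else 0) ∧
      ∑ l, (L l + if l ∈ T then p * c - ∑ i ∈ T, L i else 0) ^ 2 =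
        p * (c + (p * c - ∑ i ∈ T, L i)) ^ 2 := by
  classical
  obtain ⟨δ, hδ⟩ : ∃ δ : ℝ, δ = p * c - ∑ i ∈ T, L i := ⟨_, rfl⟩
  rw [← hδ]
  obtain ⟨i, hi⟩ : ∃ i : Fin (p + 2) → Fin n, i = T.orderEmbOfFin hT := ⟨_, rfl⟩
  have hinj : Function.Injective i := by
    rw [hi]
    exact (T.orderEmbOfFin hT).injective
  have hr : ∀ l, (∃ k, i k = l) ↔ l ∈ T := by
    intro l
    have h1 := T.range_orderEmbOfFin hT
    rw [← hi] at h1
    rw [← Set.mem_range, h1, Finset.mem_coe]
  have hsum : ∑ k, L (i k) = ∑ l ∈ T, L l := by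
    rw [← Finset.sum_image (s := Finset.univ) (g := i) (f := fun l => L l)
      (fun a _ b _ hab => hinj hab)]
    congr 1
    ext l
    rw [← hr]
    simp
  have h1 := h.step hinj (δ := δ) (by rw [hδ, hsum])
  have h2 : (fun l => L l + if ∃ k, i k = l then δ else 0) =
      fun l => L l + if l ∈ T then δ else 0 := by
    funext l
    by_cases hl : l ∈ T
    · rw [if_pos hl, if_pos ((hr l).2 hl)]
    · rw [if_neg hl, if_neg (fun h => hl ((hr l).1 h))]
  rw [h2] at h1
  refine ⟨h1, ?_⟩
  have h4 : ∀ l, (L l + if l ∈ T then δ else 0) ^ 2 = L l ^ 2 +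
      if l ∈ T then 2 * δ * L l + δ ^ 2 else 0 := by
    intro l
    split_ifs <;> ring
  rw [Finset.sum_congr rfl fun l _ => h4 l, Finset.sum_add_distrib, ← Finset.sum_filter,
    Finset.filter_mem_eq_inter, Finset.univ_inter, Finset.sum_add_distrib,
    ← Finset.mul_sum, Finset.sum_const, nsmul_eq_mul, hsq, hT]
  have h7 : ∑ l ∈ T, L l = p * c - δ := by
    rw [hδ]
    ring
  rw [h7]
  push_cast
  ring

end Pool.Agent.J4H37.WN
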