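import Pool.Agent.J4H37.WN.WpK

set_option autoImplicit false
set_option maxHeartbeats 400000

/-!
# From nefness on the weighted plane `(1, p)` to composed rectangles
-/

namespace Pool.Agent.J4H37.WN

open Polynomial Pool.Agent.TH176.Nag

variable {n p : ℕ}

section field

variable {K : Type} [Field K]

theorem prod_desc' {n : ℤ} (hn : 0 ≤ n) (i : ℕ) :
    ∏ t ∈ Finset.range i, ((n : K) - (t : K)) = (i.factorial : K) * (n.toNat.choose i : K) := by
  obtain ⟨k, rfl⟩ := Int.eq_ofNat_of_zero_le hn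
  rw [Int.toNat_natCast, Int.cast_natCast]
  induction i with
  | zero => simp
  | succ i ih =>
    rw [Finset.prod_range_succ, ih]
    rcases le_or_gt i k with h | h
    · have h1 : ((k.choose (i + 1) * (i + 1) : ℕ) : K) = ((k.choose i * (k - i) : ℕ) : K) := by
        rw [Nat.choose_succ_right_eq]
      rw [Nat.factorial_succ]
      push_cast [Nat.cast_sub h] at h1 ⊢
      linear_combination -(i.factorial : K) * h1
    · rw [Nat.choose_eq_zero_of_lt h, Nat.choose_eq_zero_of_lt (by omega)]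
      simp

theorem pow_split' {x : K} (hx : x ≠ 0) {n : ℤ} (hn : 0 ≤ n) (i : ℕ) :
    (n.toNat.choose i : K) * x ^ n = x ^ i * (x ^ (n.toNat - i) * (n.toNat.choose i : K)) := by
  rcases le_or_gt i n.toNat with h | h
  · have h1 : x ^ n = x ^ i * x ^ (n.toNat - i) := by
      rw [← pow_add, Nat.add_sub_cancel' h, ← zpow_natCast, Int.toNat_of_nonneg hn]
    rw [h1]; ring
  · rw [Nat.choose_eq_zero_of_lt h]; simp

theorem sum_of_LM [CharZero K] {f : (ℤ × ℤ) →₀ K}
    (hpos : ∀ m ∈ f.support, 0 ≤ m.1 ∧ 0 ≤ m.2) {x y : K} (hx : x ≠ 0) (hy : y ≠ 0) {w : ℕ}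
    (h : LM f x y w) {i l : ℕ} (hil : i + l < w) : ∑ m ∈ f.support, f m *
      ((x ^ (m.1.toNat - i) * (m.1.toNat.choose i : K)) *
        (y ^ (m.2.toNat - l) * (m.2.toNat.choose l : K))) = 0 := by
  have h1 := h _ (PF_desc2 (K := K) (a := i) (b := l) (w := w) hil)
  have hc : (x ^ i * y ^ l * ((i.factorial : K) * (l.factorial : K))) ≠ 0 := by
    have h2 : (i.factorial : K) ≠ 0 := by exact_mod_cast i.factorial_ne_zero
    have h3 : (l.factorial : K) ≠ 0 := by exact_mod_cast l.factorial_ne_zero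
    exact mul_ne_zero (mul_ne_zero (pow_ne_zero _ hx) (pow_ne_zero _ hy)) (mul_ne_zero h2 h3)
  apply mul_left_cancel₀ hc
  rw [mul_zero, ← h1, Finset.mul_sum]
  unfold pr Finsupp.sum
  refine Finset.sum_congr rfl fun m hm => ?_
  obtain ⟨hm1, hm2⟩ := hpos m hm
  simp only
  rw [prod_desc' hm1, prod_desc' hm2]
  linear_combination (-(f m) * (i.factorial : K) * (l.factorial : K) * (x ^ i *
    (x ^ (m.1.toNat - i) * (m.1.toNat.choose i : K)))) * pow_split' hy hm2 l -
    (f m) * (i.factorial : K) * (l.factorial : K) * ((m.2.toNat.choose l : K) * y ^ m.2) *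
      pow_split' hx hm1 i

theorem coeff_sh2 (x y c : K) (a b i j : ℕ) :
    MvPolynomial.coeff (ex2 (i, j)) (sh2 x y (MvPolynomial.monomial (ex2 (a, b)) c)) =
      c * ((x ^ (a - i) * (a.choose i : K)) * (y ^ (b - j) * (b.choose j : K))) := by
  classical
  have h1 : sh2 x y (MvPolynomial.monomial (ex2 (a, b)) c) =
      ∑ k ∈ Finset.range (a + 1), ∑ l ∈ Finset.range (b + 1), MvPolynomial.monomial (ex2 (k, l))
        (c * ((x ^ (a - k) * (a.choose k : K)) * (y ^ (b - l) * (b.choose l : K)))) := by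
    rw [← mono_eq, map_mul, map_mul, map_pow, map_pow]
    have e0 : sh2 x y (MvPolynomial.X 0) = MvPolynomial.X 0 + MvPolynomial.C x := by simp [sh2]
    have e1 : sh2 x y (MvPolynomial.X 1) = MvPolynomial.X 1 + MvPolynomial.C y := by simp [sh2]
    have e2 : sh2 x y (MvPolynomial.C c) = MvPolynomial.C c := by simp [sh2]
    rw [e0, e1, e2, add_pow, add_pow, Finset.sum_mul_sum, Finset.mul_sum]
    refine Finset.sum_congr rfl fun k _ => ?_
    rw [Finset.mul_sum]
    refine Finset.sum_congr rfl fun l _ => ?_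
    rw [← mono_eq]
    simp only [map_mul, map_pow, map_natCast]
    ring
  rw [h1, MvPolynomial.coeff_sum]
  have h2 : ∀ k ∈ Finset.range (a + 1), MvPolynomial.coeff (ex2 (i, j))
      (∑ l ∈ Finset.range (b + 1), MvPolynomial.monomial (ex2 (k, l))
        (c * ((x ^ (a - k) * (a.choose k : K)) * (y ^ (b - l) * (b.choose l : K))))) =
      if k = i then c * ((x ^ (a - i) * (a.choose i : K)) * (y ^ (b - j) * (b.choose j : K)))
        else 0 := by
    intro k _
    rw [MvPolynomial.coeff_sum]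
    by_cases hk : k = i
    · rw [if_pos hk, Finset.sum_eq_single j]
      · rw [MvPolynomial.coeff_monomial, if_pos (by rw [hk]), hk]
      · intro l _ hl
        rw [MvPolynomial.coeff_monomial, if_neg]
        intro h
        exact hl (Prod.ext_iff.1 (ex2_inj h)).2
      · intro hj
        rw [Finset.mem_range, not_lt] at hj
        rw [Nat.choose_eq_zero_of_lt (show b < j by omega)]
        simp
    · rw [if_neg hk]
      refine Finset.sum_eq_zero fun l _ => ?_
      rw [MvPolynomial.coeff_monomial, if_neg]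
      intro h
      exact hk (Prod.ext_iff.1 (ex2_inj h)).1
  rw [Finset.sum_congr rfl h2]
  by_cases hi : i ≤ a
  · rw [Finset.sum_ite_eq' (Finset.range (a + 1)) i, if_pos (Finset.mem_range.2 (by omega))]
  · rw [Finset.sum_ite_eq' (Finset.range (a + 1)) i, if_neg (by rw [Finset.mem_range]; omega),
      Nat.choose_eq_zero_of_lt (show a < i by omega)]
    simp

/-- The polynomial of a Laurent polynomial with nonnegative exponents. -/
noncomputable def hof (f : (ℤ × ℤ) →₀ K) : MvPolynomial (Fin 2) K :=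
  ∑ m ∈ f.support, MvPolynomial.monomial (ex2 (m.1.toNat, m.2.toNat)) (f m)

theorem coeff_hof {f : (ℤ × ℤ) →₀ K} (hpos : ∀ m ∈ f.support, 0 ≤ m.1 ∧ 0 ≤ m.2) {m : ℤ × ℤ}
    (hm : m ∈ f.support) : MvPolynomial.coeff (ex2 (m.1.toNat, m.2.toNat)) (hof f) = f m := by
  classical
  unfold hof
  rw [MvPolynomial.coeff_sum, Finset.sum_eq_single m]
  · rw [MvPolynomial.coeff_monomial, if_pos rfl]
  · intro m' hm' hne
    rw [MvPolynomial.coeff_monomial, if_neg]
    intro h
    have h5 := ex2_inj h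
    apply hne
    obtain ⟨h1, h2⟩ := hpos m' hm'
    obtain ⟨h3, h4⟩ := hpos m hm
    rw [Prod.mk.injEq] at h5
    ext
    · omega
    · omega
  · intro h; exact absurd hm h

theorem hof_dvd [CharZero K] {f : (ℤ × ℤ) →₀ K}
    (hpos : ∀ m ∈ f.support, 0 ≤ m.1 ∧ 0 ≤ m.2) {x y : K} (hx : x ≠ 0) (hy : y ≠ 0) {w : ℕ}
    (h : LM f x y w) : X ^ w ∣ th x y (hof f) := by
  classical
  rw [dvd_th_iff]
  intro s hs
  have e : s = ex2 (s 0, s 1) := by
    ext j
    fin_cases j
    · exact (ex2_zero (s 0, s 1)).symm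
    · exact (ex2_one (s 0, s 1)).symm
  rw [e]
  unfold hof
  rw [map_sum, MvPolynomial.coeff_sum]
  simp only [coeff_sh2]
  exact sum_of_LM hpos hx hy h hs

end field

/-- Emptiness of the triangle. -/
theorem WNef.emp {c : ℝ} {L : Fin n → ℝ} (h : WNef p c L) {w : Fin n → ℕ} {D : ℕ}
    (hlt : c * D < ∑ i, L i * (w i : ℝ)) :
    Emp w {m : ℤ × ℤ | 0 ≤ m.1 ∧ 0 ≤ m.2 ∧ m.1 + p * m.2 ≤ (D : ℤ)} := by
  classical
  obtain ⟨Q, hQ⟩ := exists_points n
  refine ⟨ℂ, inferInstance, inferInstance, fun i => Q i 0, fun i => Q i 1,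
    fun i => hQ.ne_zero (i, 0), fun i => hQ.ne_zero (i, 1), fun f hfS hfL => ?_⟩
  have hpos : ∀ m ∈ f.support, 0 ≤ m.1 ∧ 0 ≤ m.2 := fun m hm =>
    ⟨(hfS hm).1, (hfS hm).2.1⟩
  by_contra hf0
  obtain ⟨m, hm⟩ := Finsupp.support_nonempty_iff.2 hf0
  have h0 : hof f ≠ 0 := by
    intro h0
    have h1 := coeff_hof hpos hm
    rw [h0, MvPolynomial.coeff_zero] at h1
    exact Finsupp.mem_support_iff.1 hm h1.symm
  have hd : (om p (hof f)).natDegree ≤ D := by
    rw [om_le_iff]
    intro s hs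
    unfold hof at hs
    have h1 := MvPolynomial.support_sum hs
    rw [Finset.mem_biUnion] at h1
    obtain ⟨t, ht, h2⟩ := h1
    have h3 := MvPolynomial.support_monomial_subset h2
    rw [Finset.mem_singleton] at h3
    rw [h3, ex2_zero, ex2_one]
    have h4 := hfS ht
    obtain ⟨h5, h6, h7⟩ := h4
    simp only at h5 h6 h7 ⊢
    have h8 : ((t.1.toNat + p * t.2.toNat : ℕ) : ℤ) ≤ (D : ℤ) := by
      push_cast
      rw [Int.toNat_of_nonneg h5, Int.toNat_of_nonneg h6]
      exact h7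
    exact_mod_cast h8
  have h1 := h.2 Q hQ D w (hof f) h0 hd (fun i => hof_dvd hpos (hQ.ne_zero (i, 0))
    (hQ.ne_zero (i, 1)) (hfL i))
  linarith

open Pool.Agent.TH366.RC

/-- **Composed rectangles from nef classes of the weighted plane.** -/
theorem sem_of_wnef (hp : 0 < p) {c : ℝ} (hc : 0 < c) {L : List ℝ} (hpos : ∀ t ∈ L, 0 < t)
    (h : WNef p c L.get) (hsq : (L.map fun t => t ^ 2).sum = p * c * c) :
    Sem (p * c) c L := by
  classical
  have hpR : (0 : ℝ) < p := by exact_mod_cast hp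
  refine ⟨by positivity, hc, hpos, hsq, fun w E hE hw α => ?_⟩
  have hpos' : ∀ j, 0 < L.get j := fun j => hpos _ (List.get_mem L j)
  have hsum : ∑ j, L.get j ^ 2 = p * c * c := by
    rw [sum_get' L fun t => t ^ 2, hsq]
  have hne : Nonempty (Fin L.length) := by
    by_contra hemp
    rw [not_nonempty_iff] at hemp
    rw [Finset.univ_eq_empty, Finset.sum_empty] at hsum
    have : 0 < p * c * c := by positivity
    linarith
  obtain ⟨D, hD⟩ : ∃ D : ℕ, D = ⌊E * (p * c)⌋₊ := ⟨_, rfl⟩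
  have hDle : (D : ℝ) ≤ E * (p * c) := by
    rw [hD]
    exact Nat.floor_le (by positivity)
  have hlt : c * D < ∑ i, L.get i * (w i : ℝ) := by
    calc c * D ≤ c * (E * (p * c)) := by gcongr
      _ = ∑ i, L.get i * (E * L.get i) := by
          have e : ∑ i, L.get i * (E * L.get i) = E * ∑ i, L.get i ^ 2 := by
            rw [Finset.mul_sum]
            refine Finset.sum_congr rfl fun i _ => by ring
          rw [e, hsum]
          ring
      _ < ∑ i, L.get i * (w i : ℝ) := by
          refine Finset.sum_lt_sum_of_nonempty Finset.univ_nonempty fun i _ => ?_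
          exact mul_lt_mul_of_pos_left (hw i) (hpos' i)
  have h1 := h.emp hlt
  have h7 : (p : ℝ) * c / c = p := by field_simp
  refine Emp.comap h1 1 0 0 1 (-⌈α⌉) 0 (by norm_num) ?_
  rintro ⟨a, b⟩ ⟨h3, h4, h5⟩
  simp only [one_mul, zero_mul, add_zero, zero_add] at h3 h4 h5 ⊢
  rw [mul_assoc, Pool.Agent.TH366.RC.sqrt_mul_sqrt_div (by positivity) hc, h7] at h5
  refine ⟨?_, h3, ?_⟩
  · have h8 : ⌈α⌉ ≤ a := Int.ceil_le.2 h4
    simp only
    linarith
  · simp only
    have h9 : α ≤ ⌈α⌉ := Int.le_ceil α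
    have h10 : ((a + -⌈α⌉ + p * b : ℤ) : ℝ) ≤ E * (p * c) := by
      push_cast
      linarith
    have h11 : a + -⌈α⌉ + p * b ≤ ⌊E * (p * c)⌋ := Int.le_floor.2 h10
    rw [hD, Int.natCast_floor_eq_floor (by positivity)]
    exact h11

end Pool.Agent.J4H37.WN
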