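import Pool.Agent.J4H37.WN.WpL

set_option autoImplicit false
set_option maxHeartbeats 400000

/-!
# Composed rectangles and reflections
-/

namespace Pool.Agent.J4H37.WN

open Polynomial Pool.Agent.TH176.Nag

variable {n p : ℕ}

/-- **The classes composed of squares.** -/
theorem WNef.of_sem (hp : 0 < p) {c : ℝ} {L : List ℝ}
    (hF : Pool.Agent.TH366.RC.Sem (p * c) c L) {g : Fin L.length → Fin n}
    (hg : Function.Injective g) : WNef p c (Function.extend g L.get 0) := by
  classical
  obtain ⟨hb, hc, hpos, hsq, hT⟩ := hF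
  have hpR : (0 : ℝ) < p := by exact_mod_cast hp
  obtain ⟨L', hL'⟩ : ∃ L' : Fin n → ℝ, L' = Function.extend g L.get 0 := ⟨_, rfl⟩
  rw [← hL']
  have e1 : ∀ j, L' (g j) = L.get j := fun j => by rw [hL', hg.extend_apply]
  have e2 : ∀ l, (¬ ∃ j, g j = l) → L' l = 0 := fun l hl => by
    rw [hL', Function.extend_apply' _ _ _ hl]
    rfl
  have hpos' : ∀ j, 0 < L.get j := fun j => hpos _ (List.get_mem L j)
  have hL0 : ∀ l, 0 ≤ L' l := by
    intro l
    by_cases hl : ∃ j, g j = l
    · obtain ⟨j, rfl⟩ := hl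
      rw [e1]
      exact (hpos' j).le
    · rw [e2 l hl]
  refine wnef_of_ray hp hc hL0 ?_ ?_
  · have h1 : ∑ l, L' l ^ 2 = ∑ j, L.get j ^ 2 := by
      have h2 := sum_img hg Finset.univ (fun l => L' l ^ 2)
      simp only [e1] at h2
      rw [← h2]
      refine Finset.sum_congr rfl fun l _ => ?_
      by_cases hl : ∃ j, g j = l
      · rw [if_pos (by simpa using hl)]
      · rw [if_neg (by simpa using hl), e2 l hl]
        ring
    rw [h1, sum_get' L fun t => t ^ 2, hsq]
    exact le_of_eq (by ring)
  · intro Q hQ y hy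
    have hy' : (1 : ℝ) ≤ y := by exact_mod_cast hy
    have hy0 : (0 : ℝ) < y := by linarith
    refine ⟨fun l => if ∃ j, g j = l then ⌊y * L' l⌋₊ + 1 else 0, fun l => ?_, ?_⟩
    · dsimp only
      by_cases hl : ∃ j, g j = l
      · rw [if_pos hl]
        push_cast
        have := Nat.floor_le (a := y * L' l) (mul_nonneg hy0.le (hL0 l))
        linarith
      · rw [if_neg hl]
        push_cast
        have := mul_nonneg hy0.le (hL0 l)
        linarith
    · intro h hd hh
      obtain ⟨w, hw⟩ : ∃ w : Fin L.length → ℕ, w = fun j => ⌊y * L.get j⌋₊ + 1 := ⟨_, rfl⟩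
      have h1 := hT w y hy0 (fun i => by
        rw [hw]
        push_cast
        exact Nat.lt_floor_add_one _) 0
      obtain ⟨d, hd'⟩ : ∃ d : ℕ, d = ⌊(y : ℝ) * (p * c)⌋₊ := ⟨_, rfl⟩
      rw [← hd'] at hd
      have h2 : Emp w {m : ℤ × ℤ | 0 ≤ m.1 ∧ 0 ≤ m.2 ∧ m.1 + p * m.2 ≤ (d : ℤ)} := by
        refine h1.mono ?_
        rintro ⟨a, b⟩ ⟨h3, h4, h5⟩
        simp only at h3 h4 h5
        have h3' : (0 : ℝ) ≤ a := by exact_mod_cast h3
        have h5' : ((a + p * b : ℤ) : ℝ) ≤ ((d : ℤ) : ℝ) := by exact_mod_cast h5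
        push_cast at h5'
        have h6 : (d : ℝ) ≤ y * (p * c) := by
          rw [hd']
          exact Nat.floor_le (by positivity)
        have h7 : (p : ℝ) * c / c = p := by field_simp
        refine ⟨h4, ?_, ?_⟩
        · simp only; linarith
        · simp only
          rw [zero_add, zero_add, mul_assoc, Pool.Agent.TH366.RC.sqrt_mul_sqrt_div hb hc, h7]
          linarith
      have hxy : AlgebraicIndependent ℚ (fun q : Fin L.length × Fin 2 =>
          ![(fun j => Q (g j) 0) q.1, (fun j => Q (g j) 1) q.1] q.2) := by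
        have h3 : (fun q : Fin L.length × Fin 2 =>
            (![(fun j => Q (g j) 0) q.1, (fun j => Q (g j) 1) q.1] : Fin 2 → ℂ) q.2) =
            fun q : Fin L.length × Fin 2 => Q (g q.1) q.2 := by
          funext q
          obtain ⟨i, j⟩ := q
          fin_cases j <;> rfl
        rw [h3]
        refine hQ.comp (fun ij : Fin L.length × Fin 2 => (g ij.1, ij.2)) ?_
        rintro ⟨a, b⟩ ⟨a', b'⟩ hab
        have h4 := Prod.ext_iff.1 hab
        exact Prod.ext (hg h4.1) h4.2
      have hne : ∀ j k, Q (g j) k ≠ 0 := fun j k => hQ.ne_zero (g j, k)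
      have key := Pool.Agent.TH545.Nag.Emp_generic (finite_tri_w hp d)
        (fun m hm => ⟨hm.1, hm.2.1⟩) h2 (x := fun j => Q (g j) 0) (y := fun j => Q (g j) 1) hxy
      have hLM : ∀ j, LM (toL ℂ h).coeff (Q (g j) 0) (Q (g j) 1) (w j) := by
        intro j
        have h3 := hh (g j)
        dsimp only at h3
        rw [if_pos ⟨j, rfl⟩, e1] at h3
        have h4 := mem_of_th h3
        have h5 := mem_pt_pow h4
        have h6 : w j = ⌊(y : ℝ) * L.get j⌋₊ + 1 := by rw [hw]
        rw [← h6] at h5
        exact lm_aux (hne j 0) (hne j 1) h5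
      have h0 := key (toL ℂ h).coeff (toL_support_w (fun s hs =>
        (om_le_iff p h d).1 hd s (MvPolynomial.mem_support_iff.2 hs))) hLM
      exact toL_eq_zero h0

open Pool.Agent.TH366.RC in
/-- **The reflection of a composed rectangle.** -/
theorem sem_reflect (hp : 0 < p) {c c' : ℝ} {L L' : List ℝ} {g : Fin L.length → Fin n}
    {g' : Fin L'.length → Fin n} {T : Finset (Fin n)} (hc' : 0 < c') (hL' : ∀ t ∈ L', 0 < t)
    (hg : Function.Injective g) (hg' : Function.Injective g') (hT : T.card = p + 2)
    {δ : ℝ} (hδ : δ = p * c - ∑ i ∈ T, Function.extend g L.get 0 i) (h1 : c' = c + δ)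
    (h2 : ∀ l, Function.extend g' L'.get 0 l =
      Function.extend g L.get 0 l + if l ∈ T then δ else 0) (hS : Sem (p * c) c L) :
    Sem (p * c') c' L' := by
  classical
  have hW := WNef.of_sem hp hS hg
  have hsq : ∑ l, Function.extend g L.get 0 l ^ 2 = p * c ^ 2 := by
    obtain ⟨_, _, _, hsq, _⟩ := hS
    have h2 := sum_img hg Finset.univ (fun l => Function.extend g L.get 0 l ^ 2)
    simp only [hg.extend_apply] at h2
    have h3 : ∑ l, Function.extend g L.get 0 l ^ 2 = ∑ j, L.get j ^ 2 := by
      rw [← h2]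
      refine Finset.sum_congr rfl fun l _ => ?_
      by_cases hl : ∃ j, g j = l
      · rw [if_pos (by simpa using hl)]
      · rw [if_neg (by simpa using hl), Function.extend_apply' _ _ _ hl]
        simp
    rw [h3, sum_get' L fun t => t ^ 2, hsq]
    ring
  obtain ⟨h3, h4⟩ := hW.step_real hsq hT
  rw [← hδ, ← h1] at h3 h4
  have h5 : (fun l => Function.extend g L.get 0 l + if l ∈ T then δ else 0) =
      Function.extend g' L'.get 0 := by
    funext l
    exact (h2 l).symm
  rw [h5] at h3
  have h6 : WNef p c' L'.get := by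
    have h7 := h3.restrict hg'
    have h8 : (fun i => Function.extend g' L'.get 0 (g' i)) = L'.get := by
      funext i
      exact hg'.extend_apply _ _ _
    rwa [h8] at h7
  refine sem_of_wnef hp hc' hL' h6 ?_
  have h9 : ∑ j, L'.get j ^ 2 = p * c' ^ 2 := by
    rw [← h4]
    have h10 := sum_img hg' Finset.univ (fun l => Function.extend g' L'.get 0 l ^ 2)
    simp only [hg'.extend_apply] at h10
    rw [← h10]
    refine Finset.sum_congr rfl fun l _ => ?_
    rw [← h2 l]
    by_cases hl : ∃ j, g' j = l
    · rw [if_pos (by simpa using hl)]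
    · rw [if_neg (by simpa using hl), Function.extend_apply' _ _ _ hl]
      simp
  rw [← sum_get' L' fun t => t ^ 2, h9]
  ring

/-- Every nonnegative vector is the extension of the list of its positive entries. -/
theorem exists_list (y : Fin n → ℝ) (hy : ∀ i, 0 ≤ y i) :
    ∃ (L : List ℝ) (g : Fin L.length → Fin n), Function.Injective g ∧ (∀ t ∈ L, 0 < t) ∧
      Function.extend g L.get 0 = y := by
  classical
  obtain ⟨S, hS⟩ : ∃ S : Finset (Fin n), S = Finset.univ.filter fun i => 0 < y i := ⟨_, rfl⟩
  have hmem : ∀ i ∈ S, 0 < y i := by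
    intro i hi
    rw [hS, Finset.mem_filter] at hi
    exact hi.2
  have hlen : (List.ofFn fun j => y (S.orderEmbOfFin rfl j)).length = S.card := List.length_ofFn
  have hinj : Function.Injective fun j : Fin (List.ofFn fun j => y (S.orderEmbOfFin rfl j)).length =>
      S.orderEmbOfFin rfl (Fin.cast hlen j) := by
    intro a b hab
    exact Fin.cast_injective _ ((S.orderEmbOfFin rfl).injective hab)
  have hget : ∀ j, (List.ofFn fun j => y (S.orderEmbOfFin rfl j)).get j =
      y (S.orderEmbOfFin rfl (Fin.cast hlen j)) := by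
    intro j
    rw [List.get_ofFn]
  refine ⟨List.ofFn fun j => y (S.orderEmbOfFin rfl j), _, hinj, ?_, ?_⟩
  · intro t ht
    rw [List.mem_ofFn] at ht
    obtain ⟨j, rfl⟩ := ht
    exact hmem _ (S.orderEmbOfFin_mem rfl j)
  · funext l
    by_cases hl : l ∈ S
    · have h2 : l ∈ Set.range (S.orderEmbOfFin rfl) := by
        rw [S.range_orderEmbOfFin rfl]
        exact hl
      obtain ⟨j, rfl⟩ := h2
      have h3 := hinj.extend_apply (List.ofFn fun j => y (S.orderEmbOfFin rfl j)).get 0
        (Fin.cast hlen.symm j)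
      simp only [Fin.cast_cast, Fin.cast_eq_self] at h3
      rw [h3, hget]
      simp
    · rw [Function.extend_apply']
      · have h4 : ¬ 0 < y l := by
          intro h
          apply hl
          rw [hS, Finset.mem_filter]
          exact ⟨Finset.mem_univ _, h⟩
        have := hy l
        simp only [Pi.zero_apply]
        linarith
      · rintro ⟨j, hj⟩
        apply hl
        rw [← hj]
        exact S.orderEmbOfFin_mem rfl _

end Pool.Agent.J4H37.WN
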